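import Pool.Agent.Oad.Defs

/-!
Permutation sums and the algebra of the equation at a point
-/

set_option autoImplicit false

namespace Pool.Agent.Oad

open MeasureTheory Set Matrix
open scoped ContDiff

-- BEGIN per
/-- `s ↦ s * τ` is a bijection of the permutations (`Equiv.sum_comp (Equiv.mulRight τ)`), `sign` is multiplicative with values `±1`. -/
theorem sum_perm {k : ℕ} {V : Type} [AddCommGroup V] [Module ℝ V]
    (G : Equiv.Perm (Fin k) → V) (τ : Equiv.Perm (Fin k)) :
    ∑ s, sg s • G (s * τ) = sg τ • ∑ s, sg s • G s := by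
  have h1 : sg τ * sg τ = 1 := by
    rcases Int.units_eq_one_or (Equiv.Perm.sign τ) with h | h <;> simp [sg, h]
  have h2 : ∑ s, sg s • G s = ∑ s, sg (s * τ) • G (s * τ) :=
    (Equiv.sum_comp (Equiv.mulRight τ) fun s => sg s • G s).symm
  rw [h2, Finset.smul_sum]
  refine Finset.sum_congr rfl fun s _ => ?_
  have h3 : sg (s * τ) = sg s * sg τ := by
    simp [sg, Equiv.Perm.sign_mul]
  rw [smul_smul, h3, mul_comm (sg s) (sg τ), ← mul_assoc, h1, one_mul]
-- END per

-- BEGIN frc
/-- Exchange the sums: for fixed `t` the sum over `s` is `det (M.submatrix id t)` (`Matrix.det_apply'`), which is `0` if `t` is not injective (two equal columns) and `sign t * det M` if `t` is a permutation (`Matrix.det_permute'`); `Fintype.sum_of_injective` (or `Finset.sum_subset`) turns the sum over the functions `t` into a sum over permutations. -/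
theorem sum_frame {k : ℕ} (M : Matrix (Fin k) (Fin k) ℝ) (c : (Fin k → Fin k) → ℝ) :
    ∑ s : Equiv.Perm (Fin k), sg s * ∑ t : Fin k → Fin k, (∏ r, M (s r) (t r)) * c t =
      M.det * ∑ s : Equiv.Perm (Fin k), sg s * c s := by
  have h1 : ∀ t : Fin k → Fin k, ∑ s : Equiv.Perm (Fin k), sg s * ∏ r, M (s r) (t r) =
      (M.submatrix id t).det := by
    intro t
    rw [Matrix.det_apply']
    rfl
  have h2 : ∀ t : Fin k → Fin k, ¬ Function.Injective t → (M.submatrix id t).det = 0 := by
    intro t ht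
    obtain ⟨i, j, hij, hne⟩ : ∃ i j, t i = t j ∧ i ≠ j := by
      by_contra hcon
      push Not at hcon
      exact ht fun i j h => hcon i j h
    exact Matrix.det_zero_of_column_eq hne fun l => by
      simp only [Matrix.submatrix_apply, id, hij]
  have h3 : ∀ s : Equiv.Perm (Fin k), (M.submatrix id s).det = sg s * M.det := by
    intro s
    rw [Matrix.det_permute']
    rfl
  calc ∑ s : Equiv.Perm (Fin k), sg s * ∑ t : Fin k → Fin k, (∏ r, M (s r) (t r)) * c t
      = ∑ s : Equiv.Perm (Fin k), ∑ t : Fin k → Fin k, (sg s * ∏ r, M (s r) (t r)) * c t := by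
        refine Finset.sum_congr rfl fun s _ => ?_
        rw [Finset.mul_sum]
        exact Finset.sum_congr rfl fun t _ => by ring
    _ = ∑ t : Fin k → Fin k, ∑ s : Equiv.Perm (Fin k), (sg s * ∏ r, M (s r) (t r)) * c t :=
        Finset.sum_comm
    _ = ∑ t : Fin k → Fin k, (M.submatrix id t).det * c t := by
        refine Finset.sum_congr rfl fun t _ => ?_
        rw [← Finset.sum_mul, h1]
    _ = ∑ s : Equiv.Perm (Fin k), (M.submatrix id s).det * c s := by
        refine (Fintype.sum_of_injective (fun s : Equiv.Perm (Fin k) => (s : Fin k → Fin k))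
          DFunLike.coe_injective _ _ (fun t ht => ?_) (fun s => rfl)).symm
        have ht' : ¬ Function.Injective t := fun hi =>
          ht ⟨Equiv.ofBijective t (Finite.injective_iff_bijective.1 hi), rfl⟩
        rw [h2 t ht', zero_mul]
    _ = M.det * ∑ s : Equiv.Perm (Fin k), sg s * c s := by
        rw [Finset.mul_sum]
        refine Finset.sum_congr rfl fun s _ => ?_
        rw [h3]
        ring
-- END frc

-- BEGIN ext
/-- `Equiv.Perm.viaFintypeEmbedding` for the embedding `md` (sign: `Equiv.Perm.viaFintypeEmbedding_sign`; `tl 2`, `tl 3` are not in the range of `md`). -/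
theorem exists_ext {q : ℕ} (t : Equiv.Perm (Fin (q + 3))) :
    ∃ τ : Equiv.Perm (Fin (q + 5)), (∀ r, τ (md r) = md (t r)) ∧ τ (tl 2) = tl 2 ∧
      τ (tl 3) = tl 3 ∧ sg τ = sg t := by
  have hinj : Function.Injective (md : Fin (q + 3) → Fin (q + 5)) := by
    intro a b h
    have h1 : ((md a : Fin (q + 5)) : ℕ) = (md b : Fin (q + 5)) := congrArg Fin.val h
    exact Fin.ext h1
  refine ⟨t.viaFintypeEmbedding ⟨md, hinj⟩, ?_, ?_, ?_, ?_⟩
  · intro r
    exact t.viaFintypeEmbedding_apply_image ⟨md, hinj⟩ r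
  · apply t.viaFintypeEmbedding_apply_notMem_range
    rintro ⟨r, hr⟩
    have h1 : (r : ℕ) = q + 1 + 2 := congrArg Fin.val hr
    have h2 := r.2
    omega
  · apply t.viaFintypeEmbedding_apply_notMem_range
    rintro ⟨r, hr⟩
    have h1 : (r : ℕ) = q + 1 + 3 := congrArg Fin.val hr
    have h2 := r.2
    omega
  · unfold sg
    rw [Equiv.Perm.viaFintypeEmbedding_sign]
-- END ext

-- BEGIN exh
/-- As row ext for the embeddings `hd` of `Fin (q + 1)` into `Fin (q + 5)` and `em` of `Fin (q + 1)` into `Fin (q + 3)`. -/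
theorem exists_ext_head {q : ℕ} (t : Equiv.Perm (Fin (q + 1))) :
    (∃ τ : Equiv.Perm (Fin (q + 5)), (∀ r, τ (hd r) = hd (t r)) ∧ (∀ j, τ (tl j) = tl j) ∧
      sg τ = sg t) ∧
    ∃ τ : Equiv.Perm (Fin (q + 3)), (∀ r, τ (em r) = em (t r)) ∧ (∀ j, τ (en j) = en j) ∧
      sg τ = sg t := by
  have hinj : Function.Injective (hd : Fin (q + 1) → Fin (q + 5)) := by
    intro a b h
    have h1 : ((hd a : Fin (q + 5)) : ℕ) = (hd b : Fin (q + 5)) := congrArg Fin.val h
    exact Fin.ext h1
  have hinj' : Function.Injective (em : Fin (q + 1) → Fin (q + 3)) := by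
    intro a b h
    have h1 : ((em a : Fin (q + 3)) : ℕ) = (em b : Fin (q + 3)) := congrArg Fin.val h
    exact Fin.ext h1
  constructor
  · refine ⟨t.viaFintypeEmbedding ⟨hd, hinj⟩, ?_, ?_, ?_⟩
    · intro r
      exact t.viaFintypeEmbedding_apply_image ⟨hd, hinj⟩ r
    · intro j
      apply t.viaFintypeEmbedding_apply_notMem_range
      rintro ⟨r, hr⟩
      have h1 : (r : ℕ) = q + 1 + j := congrArg Fin.val hr
      have h2 := r.2
      omega
    · unfold sg
      rw [Equiv.Perm.viaFintypeEmbedding_sign]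
  · refine ⟨t.viaFintypeEmbedding ⟨em, hinj'⟩, ?_, ?_, ?_⟩
    · intro r
      exact t.viaFintypeEmbedding_apply_image ⟨em, hinj'⟩ r
    · intro j
      apply t.viaFintypeEmbedding_apply_notMem_range
      rintro ⟨r, hr⟩
      have h1 : (r : ℕ) = q + 1 + j := congrArg Fin.val hr
      have h2 := r.2
      omega
    · unfold sg
      rw [Equiv.Perm.viaFintypeEmbedding_sign]
-- END exh

-- BEGIN cnl
/-- For `a ≠ f` exactly `(q + 3)!` permutations have `s (tl 3) = f`, `s (tl 2) = a` (for example: composing with a permutation one may assume `f = tl 3`, `a = tl 2`, and these permutations are the permutations of the first `q + 3` indices; or count by `Equiv.Perm.decomposeFin` / `Fintype.card_equiv` of the subtype), and none for `a = f`, where `G f = 0`. -/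
theorem count_last {q : ℕ} {V : Type} [AddCommGroup V] [Module ℝ V]
    (G : Fin (q + 5) → V) (f : Fin (q + 5)) (hG : G f = 0) :
    ∑ s : Equiv.Perm (Fin (q + 5)), (if s (tl 3) = f then G (s (tl 2)) else 0) =
      (Nat.factorial (q + 3) : ℝ) • ∑ a, G a := by
  classical
  have hxy : (tl 3 : Fin (q + 5)) ≠ tl 2 := by
    intro h
    have h1 := congrArg Fin.val h
    simp [tl] at h1
  obtain ⟨ρ, h0, h1⟩ : ∃ ρ : Equiv.Perm (Fin (q + 5)), ρ 0 = tl 3 ∧ ρ 1 = tl 2 := by
    refine ⟨Equiv.swap 0 (tl 3) * Equiv.swap 1 (Equiv.swap 0 (tl 3) (tl 2)), ?_, ?_⟩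
    · have hz : Equiv.swap (1 : Fin (q + 5)) (Equiv.swap 0 (tl 3) (tl 2)) 0 = 0 := by
        refine Equiv.swap_apply_of_ne_of_ne ?_ ?_
        · intro h
          have h2 := congrArg Fin.val h
          simp at h2
        · intro h
          have h2 := congrArg (Equiv.swap 0 (tl 3)) h
          rw [Equiv.swap_apply_left, Equiv.swap_apply_self] at h2
          exact hxy h2
      rw [Equiv.Perm.mul_apply, hz, Equiv.swap_apply_left]
    · rw [Equiv.Perm.mul_apply, Equiv.swap_apply_left, Equiv.swap_apply_self]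
  have e1 : ∑ s : Equiv.Perm (Fin (q + 5)), (if s (tl 3) = f then G (s (tl 2)) else 0) =
      ∑ s : Equiv.Perm (Fin (q + 5)), (if s 0 = f then G (s 1) else 0) := by
    rw [← Equiv.sum_comp (Equiv.mulRight ρ)
      (fun s : Equiv.Perm (Fin (q + 5)) => if s 0 = f then G (s 1) else 0)]
    refine Finset.sum_congr rfl fun s _ => ?_
    simp only [Equiv.coe_mulRight, Equiv.Perm.mul_apply, h0, h1]
  have e2 : ∑ s : Equiv.Perm (Fin (q + 5)), (if s 0 = f then G (s 1) else 0) =
      ∑ e : Equiv.Perm (Fin (q + 4)), G (Equiv.swap 0 f (e 0).succ) := by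
    rw [← Equiv.sum_comp (Equiv.Perm.decomposeFin (n := q + 4)).symm
      (fun s : Equiv.Perm (Fin (q + 5)) => if s 0 = f then G (s 1) else 0), Fintype.sum_prod_type]
    simp only [Equiv.Perm.decomposeFin_symm_apply_zero, Equiv.Perm.decomposeFin_symm_apply_one]
    rw [Finset.sum_eq_single f]
    · exact Finset.sum_congr rfl fun e _ => if_pos rfl
    · intro p _ hp
      exact Finset.sum_eq_zero fun e _ => if_neg hp
    · intro h
      exact absurd (Finset.mem_univ f) h
  have e3 : ∑ e : Equiv.Perm (Fin (q + 4)), G (Equiv.swap 0 f (e 0).succ) =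
      Nat.factorial (q + 3) • ∑ p : Fin (q + 4), G (Equiv.swap 0 f p.succ) := by
    rw [← Equiv.sum_comp (Equiv.Perm.decomposeFin (n := q + 3)).symm
      (fun e : Equiv.Perm (Fin (q + 4)) => G (Equiv.swap 0 f (e 0).succ)), Fintype.sum_prod_type,
      Finset.smul_sum]
    refine Finset.sum_congr rfl fun p _ => ?_
    simp only [Equiv.Perm.decomposeFin_symm_apply_zero, Finset.sum_const, Finset.card_univ,
      Fintype.card_perm, Fintype.card_fin]
  have e4 : ∑ a, G a = ∑ p : Fin (q + 4), G (Equiv.swap 0 f p.succ) := by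
    rw [← Equiv.sum_comp (Equiv.swap 0 f) G, Fin.sum_univ_succ, Equiv.swap_apply_left, hG, zero_add]
  rw [e1, e2, e3, e4, Nat.cast_smul_eq_nsmul ℝ]
-- END cnl

-- BEGIN cnf
private theorem cnf_two {q : ℕ} (s s' : Equiv.Perm (Fin (q + 5)))
    (h : ∀ r, s (md r) = s' (md r)) : s' = s ∨ s' = s * Equiv.swap (tl 2) (tl 3) := by
  have hk : ∀ k : Fin (q + 5), k = tl 2 ∨ k = tl 3 ∨ ∃ r : Fin (q + 3), k = md r := by
    intro k
    by_cases h1 : (k : ℕ) < q + 3
    · exact Or.inr (Or.inr ⟨⟨k, h1⟩, Fin.ext rfl⟩)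
    · have h2 := k.isLt
      rcases (by omega : (k : ℕ) = q + 3 ∨ (k : ℕ) = q + 4) with h3 | h3
      · left
        apply Fin.ext
        simp only [tl]
        exact h3
      · right
        left
        apply Fin.ext
        simp only [tl]
        exact h3
  have hm : ∀ r, (s⁻¹ * s') (md r) = md r := by
    intro r
    rw [Equiv.Perm.mul_apply, ← h]
    exact s.symm_apply_apply (md r)
  have hne : ∀ r : Fin (q + 3), (tl 2 : Fin (q + 5)) ≠ md r ∧ (tl 3 : Fin (q + 5)) ≠ md r := by
    intro r
    have hr := r.isLt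
    constructor
    · intro h5
      have := congrArg Fin.val h5
      simp only [tl, md] at this
      have h6 : ((2 : Fin 4) : ℕ) = 2 := rfl
      omega
    · intro h5
      have := congrArg Fin.val h5
      simp only [tl, md] at this
      have h6 : ((3 : Fin 4) : ℕ) = 3 := rfl
      omega
  have ht : (tl 2 : Fin (q + 5)) ≠ tl 3 := by
    intro h5
    have := congrArg Fin.val h5
    simp only [tl] at this
    have h6 : ((3 : Fin 4) : ℕ) = 3 := rfl
    have h7 : ((2 : Fin 4) : ℕ) = 2 := rfl
    omega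
  have himg : ∀ j : Fin (q + 5), (j = tl 2 ∨ j = tl 3) →
      ((s⁻¹ * s') j = tl 2 ∨ (s⁻¹ * s') j = tl 3) := by
    intro j hj
    rcases hk ((s⁻¹ * s') j) with h5 | h5 | ⟨r, h5⟩
    · exact Or.inl h5
    · exact Or.inr h5
    · exfalso
      have h6 : j = md r := (s⁻¹ * s').injective (by rw [h5, hm])
      rcases hj with h7 | h7
      · exact (hne r).1 (h7.symm.trans h6)
      · exact (hne r).2 (h7.symm.trans h6)
  have e1 : ∀ u : Equiv.Perm (Fin (q + 5)), s⁻¹ * s' = u → s' = s * u := by
    intro u hu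
    rw [← hu, mul_inv_cancel_left]
  rcases himg (tl 2) (Or.inl rfl) with h5 | h5
  · left
    have h6 : (s⁻¹ * s') (tl 3) = tl 3 := by
      rcases himg (tl 3) (Or.inr rfl) with h7 | h7
      · exact absurd ((s⁻¹ * s').injective (h7.trans h5.symm)) ht.symm
      · exact h7
    have h8 : s⁻¹ * s' = 1 := by
      ext k
      rcases hk k with h9 | h9 | ⟨r, h9⟩
      · rw [h9, h5]; rfl
      · rw [h9, h6]; rfl
      · rw [h9, hm]; rfl
    rw [e1 1 h8, mul_one]
  · right
    have h6 : (s⁻¹ * s') (tl 3) = tl 2 := by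
      rcases himg (tl 3) (Or.inr rfl) with h7 | h7
      · exact h7
      · exact absurd ((s⁻¹ * s').injective (h7.trans h5.symm)) ht.symm
    apply e1
    ext k
    rcases hk k with h9 | h9 | ⟨r, h9⟩
    · rw [h9, h5, Equiv.swap_apply_left]
    · rw [h9, h6, Equiv.swap_apply_right]
    · rw [h9, hm, Equiv.swap_apply_of_ne_of_ne (hne r).1.symm (hne r).2.symm]

private theorem cnf_ext {q : ℕ} (a : Fin (q + 3) → Fin (q + 5)) (ha : Function.Injective a) :
    ∃ s : Equiv.Perm (Fin (q + 5)), ∀ r, s (md r) = a r := by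
  have hmd : Function.Injective (md : Fin (q + 3) → Fin (q + 5)) := by
    intro r r' h
    have := congrArg Fin.val h
    exact Fin.ext this
  obtain ⟨s, hs⟩ : ∃ s : Equiv.Perm (Fin (q + 5)), ∀ r, s (md r) = a r := by
    let f : Set.range (md : Fin (q + 3) → Fin (q + 5)) ≃ Set.range a :=
      (Equiv.ofInjective _ hmd).symm.trans (Equiv.ofInjective _ ha)
    refine ⟨f.extendSubtype, fun r => ?_⟩
    have h1 := f.extendSubtype_apply_of_mem (md r) ⟨r, rfl⟩
    rw [h1]
    have h2 : (Equiv.ofInjective _ hmd).symm ⟨md r, ⟨r, rfl⟩⟩ = r := by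
      rw [Equiv.symm_apply_eq]
      rfl
    show ((Equiv.ofInjective a ha) ((Equiv.ofInjective _ hmd).symm ⟨md r, ⟨r, rfl⟩⟩) : Fin (q + 5)) = a r
    rw [h2]
    rfl
  exact ⟨s, hs⟩

/-- An injective `a` is `s ∘ md` for exactly two permutations `s` (the two values which `a` does not take, in both orders; `s` and `s * swap (tl 2) (tl 3)`), a non-injective one for none. -/
theorem count_first {q : ℕ} (g : (Fin (q + 3) → Fin (q + 5)) → ℝ)
    (hg : ∀ a, ¬ Function.Injective a → g a = 0) :
    ∑ s : Equiv.Perm (Fin (q + 5)), g (fun r => s (md r)) = 2 * ∑ a, g a := by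
  classical
  have hmd : Function.Injective (md : Fin (q + 3) → Fin (q + 5)) := by
    intro r r' h
    have := congrArg Fin.val h
    exact Fin.ext this
  have ht : (tl 2 : Fin (q + 5)) ≠ tl 3 := by
    intro h5
    have := congrArg Fin.val h5
    simp only [tl] at this
    have h6 : ((3 : Fin 4) : ℕ) = 3 := rfl
    have h7 : ((2 : Fin 4) : ℕ) = 2 := rfl
    omega
  have hne : ∀ r : Fin (q + 3), (tl 2 : Fin (q + 5)) ≠ md r ∧ (tl 3 : Fin (q + 5)) ≠ md r := by
    intro r
    have hr := r.isLt
    constructor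
    · intro h5
      have := congrArg Fin.val h5
      simp only [tl, md] at this
      have h6 : ((2 : Fin 4) : ℕ) = 2 := rfl
      omega
    · intro h5
      have := congrArg Fin.val h5
      simp only [tl, md] at this
      have h6 : ((3 : Fin 4) : ℕ) = 3 := rfl
      omega
  rw [Finset.mul_sum, ← Finset.sum_fiberwise_of_maps_to
    (s := (Finset.univ : Finset (Equiv.Perm (Fin (q + 5)))))
    (t := (Finset.univ : Finset (Fin (q + 3) → Fin (q + 5))))
    (g := fun s => fun r => s (md r)) (fun s _ => Finset.mem_univ _)]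
  refine Finset.sum_congr rfl fun a _ => ?_
  have h1 : ∑ s ∈ Finset.univ.filter (fun s : Equiv.Perm (Fin (q + 5)) => (fun r => s (md r)) = a),
      g (fun r => s (md r)) =
      ((Finset.univ.filter (fun s : Equiv.Perm (Fin (q + 5)) => (fun r => s (md r)) = a)).card : ℝ) * g a := by
    rw [← nsmul_eq_mul]
    refine Finset.sum_eq_card_nsmul fun s hs => ?_
    rw [(Finset.mem_filter.1 hs).2]
  rw [h1]
  by_cases ha : Function.Injective a
  · obtain ⟨s, hs⟩ := cnf_ext a ha
    have h2 : Finset.univ.filter (fun s : Equiv.Perm (Fin (q + 5)) => (fun r => s (md r)) = a) =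
        {s, s * Equiv.swap (tl 2) (tl 3)} := by
      ext s'
      rw [Finset.mem_filter, Finset.mem_insert, Finset.mem_singleton]
      constructor
      · intro h3
        exact cnf_two s s' fun r => by rw [hs r, ← h3.2]
      · rintro (h3 | h3)
        · refine ⟨Finset.mem_univ _, ?_⟩
          rw [h3]
          funext r
          exact hs r
        · refine ⟨Finset.mem_univ _, ?_⟩
          rw [h3]
          funext r
          rw [Equiv.Perm.mul_apply, Equiv.swap_apply_of_ne_of_ne (hne r).1.symm (hne r).2.symm]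
          exact hs r
    have h3 : s ≠ s * Equiv.swap (tl 2) (tl 3) := by
      intro h4
      have h5 : Equiv.swap (tl 2 : Fin (q + 5)) (tl 3) = 1 := by
        have := congrArg (fun u => s⁻¹ * u) h4
        simp only [inv_mul_cancel, inv_mul_cancel_left] at this
        exact this.symm
      exact ht (Equiv.swap_eq_one_iff.1 h5)
    rw [h2, Finset.card_pair h3]
    norm_num
  · rw [hg a ha, mul_zero, mul_zero]
-- END cnf

-- BEGIN ant
/-- `Matrix.det_permute'` (columns), and two equal columns. -/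
theorem comp_alt {q : ℕ} (T : Fin (q + 1) → Fin (q + 5) → ℝ)
    (O : (Fin (q + 1) → Fin (q + 5)) → ℝ)
    (hO : ∀ b, O b = (Matrix.of fun r s => T r (b s)).det)
    (b : Fin (q + 1) → Fin (q + 5)) (σ : Equiv.Perm (Fin (q + 1))) :
    O (fun r => b (σ r)) = sg σ * O b := by
  rw [hO, hO]
  exact Matrix.det_permute' σ (Matrix.of fun r s => T r (b s))
-- END ant

-- BEGIN iop
theorem iop_hd_ne {q : ℕ} (k : Fin (q + 1)) (j : Fin 4) : (hd k : Fin (q + 5)) ≠ tl j := by
  intro h
  have h2 := congrArg Fin.val h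
  have hk := k.isLt
  simp only [hd, tl] at h2
  omega

theorem iop_tl_ne {q : ℕ} (i j : Fin 4) (hij : i ≠ j) : (tl i : Fin (q + 5)) ≠ tl j := by
  intro h
  have h2 := congrArg Fin.val h
  simp only [tl] at h2
  exact hij (Fin.ext (by omega))

theorem iop_hd_inj {q : ℕ} (i j : Fin (q + 1)) (hij : i ≠ j) : (hd i : Fin (q + 5)) ≠ hd j := by
  intro h
  have h2 := congrArg Fin.val h
  simp only [hd] at h2
  exact hij (Fin.ext h2)

theorem iop_sigma {q : ℕ} {V : Type} [AddCommGroup V] [Module ℝ V]
    (X : Fin (q + 5) → Fin (q + 5) → V) (T : Fin (q + 1) → Fin (q + 5) → ℝ)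
    (r : Fin (q + 1)) (f : Fin (q + 5)) (σ : Equiv.Perm (Fin (q + 1))) :
    ∑ s : Equiv.Perm (Fin (q + 5)), sg s • (if s (tl 3) = f then
      (T r (s (tl 2)) * ∏ r', T r' (s (hd (σ r')))) • X (s (tl 0)) (s (tl 1)) else 0) = 0 := by
  classical
  have hinv : ∀ s : Equiv.Perm (Fin (q + 5)),
      (if (s * Equiv.swap (hd (σ r)) (tl 2)) (tl 3) = f then
        (T r ((s * Equiv.swap (hd (σ r)) (tl 2)) (tl 2)) *
          ∏ r', T r' ((s * Equiv.swap (hd (σ r)) (tl 2)) (hd (σ r')))) •
          X ((s * Equiv.swap (hd (σ r)) (tl 2)) (tl 0))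
            ((s * Equiv.swap (hd (σ r)) (tl 2)) (tl 1)) else 0) =
      (if s (tl 3) = f then
        (T r (s (tl 2)) * ∏ r', T r' (s (hd (σ r')))) • X (s (tl 0)) (s (tl 1)) else (0 : V)) := by
    intro s
    have h3 : (s * Equiv.swap (hd (σ r)) (tl 2)) (tl 3) = s (tl 3) := by
      rw [Equiv.Perm.mul_apply, Equiv.swap_apply_of_ne_of_ne (iop_hd_ne _ _).symm
        (iop_tl_ne 3 2 (by decide))]
    have h0 : (s * Equiv.swap (hd (σ r)) (tl 2)) (tl 0) = s (tl 0) := by
      rw [Equiv.Perm.mul_apply, Equiv.swap_apply_of_ne_of_ne (iop_hd_ne _ _).symm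
        (iop_tl_ne 0 2 (by decide))]
    have h1 : (s * Equiv.swap (hd (σ r)) (tl 2)) (tl 1) = s (tl 1) := by
      rw [Equiv.Perm.mul_apply, Equiv.swap_apply_of_ne_of_ne (iop_hd_ne _ _).symm
        (iop_tl_ne 1 2 (by decide))]
    have h2 : (s * Equiv.swap (hd (σ r)) (tl 2)) (tl 2) = s (hd (σ r)) := by
      rw [Equiv.Perm.mul_apply, Equiv.swap_apply_right]
    have hr : (s * Equiv.swap (hd (σ r)) (tl 2)) (hd (σ r)) = s (tl 2) := by
      rw [Equiv.Perm.mul_apply, Equiv.swap_apply_left]
    have hk : ∀ r' ∈ Finset.univ.erase r,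
        T r' ((s * Equiv.swap (hd (σ r)) (tl 2)) (hd (σ r'))) = T r' (s (hd (σ r'))) := by
      intro r' hr'
      have hne : r' ≠ r := Finset.ne_of_mem_erase hr'
      rw [Equiv.Perm.mul_apply, Equiv.swap_apply_of_ne_of_ne
        (iop_hd_inj _ _ (fun h => hne (σ.injective h))) (iop_hd_ne _ _)]
    rw [h3, h0, h1, h2, ← Finset.mul_prod_erase Finset.univ
        (fun r' => T r' ((s * Equiv.swap (hd (σ r)) (tl 2)) (hd (σ r')))) (Finset.mem_univ r),
      ← Finset.mul_prod_erase Finset.univ (fun r' => T r' (s (hd (σ r')))) (Finset.mem_univ r),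
      Finset.prod_congr rfl hk, hr]
    congr 2
    ring
  have hs := sum_perm (fun s : Equiv.Perm (Fin (q + 5)) => if s (tl 3) = f then
      (T r (s (tl 2)) * ∏ r', T r' (s (hd (σ r')))) • X (s (tl 0)) (s (tl 1)) else (0 : V))
      (Equiv.swap (hd (σ r)) (tl 2))
  simp only [hinv] at hs
  have hsg : sg (Equiv.swap (hd (σ r) : Fin (q + 5)) (tl 2)) = -1 := by
    unfold sg
    rw [Equiv.Perm.sign_swap (iop_hd_ne _ _)]
    simp
  rw [hsg, neg_one_smul] at hs
  have h2 := eq_neg_iff_add_eq_zero.mp hs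
  rw [← two_smul ℝ] at h2
  exact (smul_eq_zero.mp h2).resolve_left two_ne_zero

/-- Write `O (s ∘ hd)` with `Matrix.det_apply'` (transpose) as a sum over the permutations `σ` of
`sg σ * ∏ r', T r' (s (hd (σ r')))`. For every `σ` the sum over `s` is `0`: the swap of the
positions `hd (σ r)` and `tl 2` leaves every term unchanged but changes the sign. -/
theorem iota_perm {q : ℕ} {V : Type} [AddCommGroup V] [Module ℝ V]
    (X : Fin (q + 5) → Fin (q + 5) → V) (T : Fin (q + 1) → Fin (q + 5) → ℝ)
    (O : (Fin (q + 1) → Fin (q + 5)) → ℝ)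
    (hO : ∀ b, O b = (Matrix.of fun r s => T r (b s)).det) (r : Fin (q + 1)) (f : Fin (q + 5)) :
    ∑ s : Equiv.Perm (Fin (q + 5)), sg s • (if s (tl 3) = f then
      (T r (s (tl 2)) * O (fun k => s (hd k))) • X (s (tl 0)) (s (tl 1)) else 0) = 0 := by
  classical
  have hexp : ∀ s : Equiv.Perm (Fin (q + 5)), sg s • (if s (tl 3) = f then
      (T r (s (tl 2)) * O (fun k => s (hd k))) • X (s (tl 0)) (s (tl 1)) else (0 : V)) =
      ∑ σ : Equiv.Perm (Fin (q + 1)), sg σ • (sg s • (if s (tl 3) = f then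
      (T r (s (tl 2)) * ∏ r', T r' (s (hd (σ r')))) • X (s (tl 0)) (s (tl 1)) else 0)) := by
    intro s
    have hdet : O (fun k => s (hd k)) =
        ∑ σ : Equiv.Perm (Fin (q + 1)), sg σ * ∏ r', T r' (s (hd (σ r'))) := by
      rw [hO, ← Matrix.det_transpose, Matrix.det_apply']
      rfl
    by_cases hf : s (tl 3) = f
    · simp only [hf, if_true]
      rw [hdet, Finset.mul_sum, Finset.sum_smul, Finset.smul_sum]
      refine Finset.sum_congr rfl fun σ _ => ?_
      rw [smul_smul, smul_smul, smul_smul]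
      congr 1
      ring
    · simp only [hf, if_false, smul_zero, Finset.sum_const_zero]
  rw [Finset.sum_congr rfl fun s _ => hexp s, Finset.sum_comm]
  refine Finset.sum_eq_zero fun σ _ => ?_
  rw [← Finset.smul_sum, iop_sigma X T r f σ, smul_zero]
-- END iop

-- BEGIN iot
/-- By row cnl (`X f f = 0`) `(q + 3)! • ∑ a, T r a • X a f = ∑ s, if s (tl 3) = f then T r (s (tl 2)) • X (s (tl 2)) f`, and `X (s (tl 2)) (s (tl 3)) = -sg s • wd O X (s ∘ md)` by `h`. Expand `wd`; for every `t` the sum over `s` of `sg s • sg t • …` equals the sum for `t = 1` (row per with the extension of `t⁻¹` from row ext; `md (em k) = hd k`, `md (en 0) = tl 0`, `md (en 1) = tl 1`), which is `0` by row iop. -/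
theorem iota_zero {q : ℕ} {V : Type} [AddCommGroup V] [Module ℝ V]
    (X : Fin (q + 5) → Fin (q + 5) → V) (hX : ∀ i j, X j i = -X i j)
    (T : Fin (q + 1) → Fin (q + 5) → ℝ)
    (O : (Fin (q + 1) → Fin (q + 5)) → ℝ)
    (hO : ∀ b, O b = (Matrix.of fun r s => T r (b s)).det)
    (h : ∀ s : Equiv.Perm (Fin (q + 5)), sg s • X (s (tl 2)) (s (tl 3)) +
      wd O X (fun r => s (md r)) = 0)
    (r : Fin (q + 1)) (f : Fin (q + 5)) : ∑ a, T r a • X a f = 0 := by
  have hff : X f f = 0 := by
    have h1 : (2 : ℝ) • X f f = 0 := by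
      rw [two_smul]
      exact add_eq_zero_iff_eq_neg.2 (hX f f)
    exact (smul_eq_zero.1 h1).resolve_left two_ne_zero
  have hsg : ∀ s : Equiv.Perm (Fin (q + 5)), sg s * sg s = 1 := by
    intro s
    unfold sg
    rw [← Int.cast_mul, Int.units_coe_mul_self, Int.cast_one]
  have hhd : ∀ k : Fin (q + 1), (md (em k) : Fin (q + 5)) = hd k := fun k => rfl
  have ht0 : (md (en 0) : Fin (q + 5)) = tl 0 := rfl
  have ht1 : (md (en 1) : Fin (q + 5)) = tl 1 := rfl
  have key : ∀ t : Equiv.Perm (Fin (q + 3)), ∑ s : Equiv.Perm (Fin (q + 5)),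
      sg s • (if s (tl 3) = f then (T r (s (tl 2)) * O (fun k => s (md (t (em k))))) •
        X (s (md (t (en 0)))) (s (md (t (en 1)))) else (0 : V)) = 0 := by
    intro t
    obtain ⟨τ, h1, h2, h3, _⟩ := exists_ext t
    have h4 := sum_perm (fun s : Equiv.Perm (Fin (q + 5)) => if s (tl 3) = f then
      (T r (s (tl 2)) * O (fun k => s (hd k))) • X (s (tl 0)) (s (tl 1)) else (0 : V)) τ
    rw [iota_perm X T O hO r f, smul_zero] at h4
    refine Eq.trans (Finset.sum_congr rfl fun s _ => ?_) h4
    simp only [Equiv.Perm.mul_apply, h2, h3, ← hhd, ← ht0, ← ht1, h1]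
  have h5 := count_last (fun a => T r a • X a f) f (by rw [hff, smul_zero])
  have h7 : ∀ s : Equiv.Perm (Fin (q + 5)),
      (if s (tl 3) = f then T r (s (tl 2)) • X (s (tl 2)) f else 0) =
      ∑ t : Equiv.Perm (Fin (q + 3)), (-(1 / (2 * (Nat.factorial (q + 1) : ℝ))) * sg t) •
        (sg s • (if s (tl 3) = f then (T r (s (tl 2)) * O (fun k => s (md (t (em k))))) •
          X (s (md (t (en 0)))) (s (md (t (en 1)))) else (0 : V))) := by
    intro s
    by_cases hs : s (tl 3) = f
    · have h8 : X (s (tl 2)) f = -(sg s • wd O X (fun r => s (md r))) := by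
        have h9 := congrArg (fun v => sg s • v) (h s)
        simp only [smul_add, smul_smul, hsg, one_smul, smul_zero] at h9
        rw [hs] at h9
        exact eq_neg_of_add_eq_zero_left h9
      simp only [if_pos hs]
      rw [h8]
      unfold wd
      rw [smul_neg, smul_smul, smul_smul, Finset.smul_sum, ← Finset.sum_neg_distrib]
      refine Finset.sum_congr rfl fun t _ => ?_
      rw [smul_smul, smul_smul, smul_smul, ← neg_smul]
      congr 1
      ring
    · simp only [if_neg hs, smul_zero, Finset.sum_const_zero]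
  have h6 : ∑ s : Equiv.Perm (Fin (q + 5)),
      (if s (tl 3) = f then T r (s (tl 2)) • X (s (tl 2)) f else 0) = 0 := by
    rw [Finset.sum_congr rfl fun s _ => h7 s, Finset.sum_comm]
    refine Finset.sum_eq_zero fun t _ => ?_
    rw [← Finset.smul_sum, key t, smul_zero]
  have h10 : (Nat.factorial (q + 3) : ℝ) • ∑ a, T r a • X a f = 0 := by
    rw [← h5]
    exact h6
  refine (smul_eq_zero.1 h10).resolve_left ?_
  exact_mod_cast Nat.factorial_ne_zero (q + 3)
-- END iot

-- BEGIN slo
/-- `O (Function.update b r a)` is the determinant with column `r` replaced by `T · a`: a linear function of this column (`Matrix.cramer`, or `Matrix.det_updateCol_add / smul`, or the expansion `Matrix.det_apply'`), so it is `∑ r', T r' a * m r'` with `m` not depending on `a`. -/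
theorem slot_zero {q : ℕ} {V : Type} [AddCommGroup V] [Module ℝ V]
    (X : Fin (q + 5) → Fin (q + 5) → V) (T : Fin (q + 1) → Fin (q + 5) → ℝ)
    (O : (Fin (q + 1) → Fin (q + 5)) → ℝ)
    (hO : ∀ b, O b = (Matrix.of fun r s => T r (b s)).det)
    (hi : ∀ r f, ∑ a, T r a • X a f = 0)
    (b : Fin (q + 1) → Fin (q + 5)) (r : Fin (q + 1)) (f : Fin (q + 5)) :
    ∑ a, O (Function.update b r a) • X a f = 0 := by
  have key : ∀ a, O (Function.update b r a) =
      ∑ k, (Matrix.of fun r s => T r (b s)).adjugate r k * T k a := by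
    intro a
    have h1 : (Matrix.of fun k s => T k (Function.update b r a s)) =
        (Matrix.of fun k s => T k (b s)).updateCol r (fun k => T k a) := by
      ext i j
      by_cases hj : j = r
      · subst hj; simp
      · simp [Matrix.updateCol_ne hj, Function.update_of_ne hj]
    rw [hO, h1, ← Matrix.cramer_apply, Matrix.cramer_eq_adjugate_mulVec]
    rfl
  have h2 : ∀ a, O (Function.update b r a) • X a f =
      ∑ k, (Matrix.of fun r s => T r (b s)).adjugate r k • (T k a • X a f) := by
    intro a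
    rw [key a, Finset.sum_smul]
    exact Finset.sum_congr rfl fun k _ => mul_smul _ _ _
  rw [Finset.sum_congr rfl fun a _ => h2 a, Finset.sum_comm]
  refine Finset.sum_eq_zero fun k _ => ?_
  rw [← Finset.smul_sum, hi, smul_zero]
-- END slo

-- BEGIN wni
/-- If `a i = a j` with `i ≠ j` then `a ∘ (swap i j * t) = a ∘ t`, so the sum over `t` is its own negative (`Equiv.sum_comp (Equiv.mulLeft (swap i j))`). -/
theorem wd_noninj {q : ℕ} {V : Type} [AddCommGroup V] [Module ℝ V]
    (O : (Fin (q + 1) → Fin (q + 5)) → ℝ) (X : Fin (q + 5) → Fin (q + 5) → V)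
    (a : Fin (q + 3) → Fin (q + 5)) (ha : ¬ Function.Injective a) : wd O X a = 0 := by
  classical
  unfold Function.Injective at ha
  push Not at ha
  obtain ⟨i, j, hij, hne⟩ := ha
  have hsw : ∀ r, a (Equiv.swap i j r) = a r := by
    intro r
    by_cases h1 : r = i
    · rw [h1, Equiv.swap_apply_left]
      exact hij.symm
    · by_cases h2 : r = j
      · rw [h2, Equiv.swap_apply_right]
        exact hij
      · rw [Equiv.swap_apply_of_ne_of_ne h1 h2]
  have hsg : ∀ t : Equiv.Perm (Fin (q + 3)), sg (Equiv.swap i j * t) = - sg t := by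
    intro t
    unfold sg
    rw [Equiv.Perm.sign_mul, Equiv.Perm.sign_swap hne]
    simp
  have hS : (∑ t : Equiv.Perm (Fin (q + 3)),
      (sg t * O (fun r => a (t (em r)))) • X (a (t (en 0))) (a (t (en 1)))) =
      -(∑ t : Equiv.Perm (Fin (q + 3)),
      (sg t * O (fun r => a (t (em r)))) • X (a (t (en 0))) (a (t (en 1)))) := by
    rw [← Finset.sum_neg_distrib]
    rw [← Equiv.sum_comp (Equiv.mulLeft (Equiv.swap i j))]
    refine Finset.sum_congr rfl fun t _ => ?_
    simp only [Equiv.coe_mulLeft, Equiv.Perm.coe_mul, Function.comp_apply, hsw, hsg, neg_mul,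
      neg_smul]
  have h2 : (2 : ℝ) • (∑ t : Equiv.Perm (Fin (q + 3)),
      (sg t * O (fun r => a (t (em r)))) • X (a (t (en 0))) (a (t (en 1)))) = 0 := by
    rw [two_smul]
    nth_rewrite 2 [hS]
    exact add_neg_cancel _
  have h3 : (∑ t : Equiv.Perm (Fin (q + 3)),
      (sg t * O (fun r => a (t (em r)))) • X (a (t (en 0))) (a (t (en 1)))) = 0 := by
    rw [← inv_smul_smul₀ (two_ne_zero (α := ℝ)) (∑ t : Equiv.Perm (Fin (q + 3)),
      (sg t * O (fun r => a (t (em r)))) • X (a (t (en 0))) (a (t (en 1)))), h2, smul_zero]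
  unfold wd
  rw [h3, smul_zero]
-- END wni

-- BEGIN tmz
private theorem tmz_upd {n q : ℕ} (G : (Fin n → Fin (q + 5)) → ℝ) (e : Fin n)
    (h : ∀ a, ∑ v, G (Function.update a e v) = 0) : ∑ a, G a = 0 := by
  let σ : (Fin n → Fin (q + 5)) × Fin (q + 5) → (Fin n → Fin (q + 5)) × Fin (q + 5) :=
    fun p => (Function.update p.1 e p.2, p.1 e)
  have hσ : Function.Involutive σ := by
    intro p
    obtain ⟨a, v⟩ := p
    simp [σ]
  have h1 : ∑ p : (Fin n → Fin (q + 5)) × Fin (q + 5), G (σ p).1 =
      ∑ p : (Fin n → Fin (q + 5)) × Fin (q + 5), G p.1 :=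
    Equiv.sum_comp (Function.Involutive.toPerm σ hσ)
      (fun p : (Fin n → Fin (q + 5)) × Fin (q + 5) => G p.1)
  rw [Fintype.sum_prod_type, Fintype.sum_prod_type] at h1
  have h2 : ∑ a, ∑ v, G (σ (a, v)).1 = 0 := Finset.sum_eq_zero fun a _ => h a
  rw [h2] at h1
  simp only [Finset.sum_const, Finset.card_univ, Fintype.card_fin, nsmul_eq_mul] at h1
  rw [← Finset.mul_sum] at h1
  have h3 : ((q + 5 : ℕ) : ℝ) ≠ 0 := by positivity
  rcases mul_eq_zero.mp h1.symm with h4 | h4
  · exact absurd h4 h3
  · exact h4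

private theorem tmz_em_inj {q : ℕ} {r k : Fin (q + 1)} (h : em k = em r) : k = r := by
  have := congrArg Fin.val h
  exact Fin.ext this

private theorem tmz_em_en {q : ℕ} (k : Fin (q + 1)) (i : Fin 2) : em k ≠ en i := by
  intro h
  have h1 : (k : ℕ) = q + 1 + i := congrArg Fin.val h
  have := k.isLt
  omega

private theorem tmz_en_ne {q : ℕ} : (en 1 : Fin (q + 3)) ≠ en 0 := by
  intro h
  have h1 : q + 1 + ((1 : Fin 2) : ℕ) = q + 1 + ((0 : Fin 2) : ℕ) := congrArg Fin.val h
  simp at h1

/-- Say `t (em r) = en 0` (the other case is the same with `X i j = -X j i`). Sum first over the value `a (en 0)`: it occurs only in slot `r` of `O` and as first index of `X (a (en 0)) (a (en 1))` (`t` is injective, so `t (en 0), t (en 1) ≠ en 0`, and `c` sees only `a ∘ em`), so the inner sum is `B (∑ O (update …) • X · (a (en 1))) Y = 0` by `hs`. To split the sum over `a`: `Fin.insertNthEquiv` / `Function.update`, or the involution-free way: `(q + 5) * ∑ a, G a = ∑ a, ∑ v, G (Function.update a (en 0) v)`. -/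
theorem term_zero {q : ℕ} {V : Type} [AddCommGroup V] [Module ℝ V]
    (X : Fin (q + 5) → Fin (q + 5) → V) (hX : ∀ i j, X j i = -X i j)
    (O : (Fin (q + 1) → Fin (q + 5)) → ℝ)
    (hs : ∀ b r f, ∑ a, O (Function.update b r a) • X a f = 0)
    (B : V →ₗ[ℝ] V →ₗ[ℝ] ℝ) (c : (Fin (q + 1) → Fin (q + 5)) → ℝ)
    (t : Equiv.Perm (Fin (q + 3))) (r : Fin (q + 1)) (ht : t (em r) = en 0 ∨ t (em r) = en 1) :
    ∑ a : Fin (q + 3) → Fin (q + 5), c (fun k => a (em k)) *
      (O (fun k => a (t (em k))) *
        B (X (a (en 0)) (a (en 1))) (X (a (t (en 0))) (a (t (en 1))))) = 0 := by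
  refine tmz_upd _ (t (em r)) ?_
  intro a
  have e1 : ∀ v, (fun k => Function.update a (t (em r)) v (em k)) =
      (fun k => a (em k) : Fin (q + 1) → Fin (q + 5)) := by
    intro v
    funext k
    apply Function.update_of_ne
    rcases ht with h | h <;> rw [h] <;> exact tmz_em_en k _
  have e2 : ∀ v, (fun k => Function.update a (t (em r)) v (t (em k))) =
      Function.update (fun k => a (t (em k))) r v := by
    intro v
    funext k
    by_cases hk : k = r
    · subst hk
      rw [Function.update_self, Function.update_self]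
    · rw [Function.update_of_ne hk, Function.update_of_ne]
      intro h
      exact hk (tmz_em_inj (t.injective h))
  have e3 : ∀ v i, Function.update a (t (em r)) v (t (en i)) = a (t (en i)) := by
    intro v i
    apply Function.update_of_ne
    intro h
    exact tmz_em_en r i (t.injective h).symm
  have key : ∀ f : Fin (q + 5), ∀ Y : V,
      ∑ v, O (Function.update (fun k => a (t (em k))) r v) * B (X v f) Y = 0 := by
    intro f Y
    have h1 := congrArg (fun z => B z Y) (hs (fun k => a (t (em k))) r f)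
    simpa [map_sum, LinearMap.sum_apply] using h1
  rcases ht with h | h
  · have e4 : ∀ v, Function.update a (t (em r)) v (en 0) = v := by
      intro v
      rw [h, Function.update_self]
    have e5 : ∀ v, Function.update a (t (em r)) v (en 1) = a (en 1) := by
      intro v
      rw [h]
      exact Function.update_of_ne tmz_en_ne _ _
    simp only [e1, e2, e3, e4, e5]
    rw [← Finset.mul_sum, key, mul_zero]
  · have e4 : ∀ v, Function.update a (t (em r)) v (en 1) = v := by
      intro v
      rw [h, Function.update_self]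
    have e5 : ∀ v, Function.update a (t (em r)) v (en 0) = a (en 0) := by
      intro v
      rw [h]
      exact Function.update_of_ne tmz_en_ne.symm _ _
    simp only [e1, e2, e3, e4, e5]
    have e6 : ∀ v, O (Function.update (fun k => a (t (em k))) r v) *
        B (X (a (en 0)) v) (X (a (t (en 0))) (a (t (en 1)))) =
        -(O (Function.update (fun k => a (t (em k))) r v) *
          B (X v (a (en 0))) (X (a (t (en 0))) (a (t (en 1))))) := by
      intro v
      rw [hX v (a (en 0)), map_neg, LinearMap.neg_apply, mul_neg]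
    simp only [e6]
    rw [← Finset.mul_sum, Finset.sum_neg_distrib, key, neg_zero, mul_zero]
-- END tmz

-- BEGIN tms
/-- `t` maps the range of `em` to itself, so `t` is the extension (row exh) of a permutation `σ` of `Fin (q + 1)`, or this extension times `swap (en 0) (en 1)`; use `hA` and the antisymmetry of `X`. -/
theorem term_same {q : ℕ} {V : Type} [AddCommGroup V] [Module ℝ V]
    (X : Fin (q + 5) → Fin (q + 5) → V) (hX : ∀ i j, X j i = -X i j)
    (O : (Fin (q + 1) → Fin (q + 5)) → ℝ)
    (hA : ∀ (b : Fin (q + 1) → Fin (q + 5)) (σ : Equiv.Perm (Fin (q + 1))),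
      O (fun r => b (σ r)) = sg σ * O b)
    (t : Equiv.Perm (Fin (q + 3))) (ht : ∀ r, t (em r) ≠ en 0 ∧ t (em r) ≠ en 1)
    (a : Fin (q + 3) → Fin (q + 5)) :
    (sg t * O (fun r => a (t (em r)))) • X (a (t (en 0))) (a (t (en 1))) =
      O (fun r => a (em r)) • X (a (en 0)) (a (en 1)) := by
  have hsq : ∀ {k : ℕ} (s : Equiv.Perm (Fin k)), sg s * sg s = 1 := by
    intro k s
    unfold sg
    rcases Int.units_eq_one_or (Equiv.Perm.sign s) with h | h <;> rw [h] <;> norm_num
  -- the values of `t` on the range of `em`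
  have hlt : ∀ r : Fin (q + 1), ((t (em r) : Fin (q + 3)) : ℕ) < q + 1 := by
    intro r
    have h0 : ((t (em r) : Fin (q + 3)) : ℕ) ≠ q + 1 := fun h =>
      (ht r).1 (Fin.ext (by rw [h]; rfl))
    have h1 : ((t (em r) : Fin (q + 3)) : ℕ) ≠ q + 2 := fun h =>
      (ht r).2 (Fin.ext (by rw [h]; rfl))
    have h2 := (t (em r)).isLt
    omega
  have hem : Function.Injective (em : Fin (q + 1) → Fin (q + 3)) := by
    intro i j hij
    have h : ((em i : Fin (q + 3)) : ℕ) = (em j : Fin (q + 3)) := congrArg Fin.val hij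
    exact Fin.ext h
  have hinj : Function.Injective (fun r : Fin (q + 1) => (⟨t (em r), hlt r⟩ : Fin (q + 1))) := by
    intro i j hij
    have h1 : ((t (em i) : Fin (q + 3)) : ℕ) = t (em j) := Fin.mk.inj hij
    exact hem (t.injective (Fin.ext h1))
  have hbij := Finite.injective_iff_bijective.1 hinj
  obtain ⟨σ, hσ⟩ : ∃ σ : Equiv.Perm (Fin (q + 1)), ∀ r, t (em r) = em (σ r) :=
    ⟨Equiv.ofBijective _ hbij, fun r => Fin.ext rfl⟩
  obtain ⟨-, τ, hτ1, hτ2, hτ3⟩ := exists_ext_head σ
  -- the values on the last two indices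
  have hlast : ∀ j : Fin 2, t (en j) = en 0 ∨ t (en j) = en 1 := by
    intro j
    by_contra hcon
    rw [not_or] at hcon
    have h0 : ((t (en j) : Fin (q + 3)) : ℕ) ≠ q + 1 := fun h =>
      hcon.1 (Fin.ext (by rw [h]; rfl))
    have h1 : ((t (en j) : Fin (q + 3)) : ℕ) ≠ q + 2 := fun h =>
      hcon.2 (Fin.ext (by rw [h]; rfl))
    have h2 := (t (en j)).isLt
    have h3 : ((t (en j) : Fin (q + 3)) : ℕ) < q + 1 := by omega
    obtain ⟨r, hr⟩ := σ.surjective ⟨t (en j), h3⟩
    have h4 : t (em r) = t (en j) := by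
      rw [hσ r, hr]
      exact Fin.ext rfl
    have h5 := congrArg Fin.val (t.injective h4)
    have h6 : (r : ℕ) = q + 1 + j := h5
    have h7 := r.isLt
    omega
  have hne : (en 0 : Fin (q + 3)) ≠ en 1 := by
    intro h
    have h1 : q + 1 + 0 = q + 1 + 1 := congrArg Fin.val h
    omega
  have hcases : ∀ i : Fin (q + 3), (∃ r, i = em r) ∨ i = en 0 ∨ i = en 1 := by
    intro i
    by_cases h1 : (i : ℕ) < q + 1
    · exact Or.inl ⟨⟨i, h1⟩, Fin.ext rfl⟩
    · have h2 := i.isLt
      rcases (by omega : (i : ℕ) = q + 1 ∨ (i : ℕ) = q + 2) with h3 | h3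
      · exact Or.inr (Or.inl (Fin.ext h3))
      · exact Or.inr (Or.inr (Fin.ext h3))
  have hO : O (fun r => a (t (em r))) = sg σ * O (fun r => a (em r)) := by
    rw [← hA (fun r => a (em r)) σ]
    congr 1
    funext r
    rw [hσ r]
  rcases hlast 0 with h0 | h0
  · have h1 : t (en 1) = en 1 := by
      rcases hlast 1 with h | h
      · exact absurd (t.injective (h0.trans h.symm)) hne
      · exact h
    have htau : t = τ := by
      ext i
      rcases hcases i with ⟨r, rfl⟩ | rfl | rfl
      · rw [hσ r, hτ1 r]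
      · rw [h0, hτ2 0]
      · rw [h1, hτ2 1]
    have hsg : sg t = sg σ := by rw [htau, hτ3]
    rw [hO, h0, h1, hsg, ← mul_assoc, hsq, one_mul]
  · have h1 : t (en 1) = en 0 := by
      rcases hlast 1 with h | h
      · exact h
      · exact absurd (t.injective (h0.trans h.symm)) hne
    have htau : t = Equiv.swap (en 0) (en 1) * τ := by
      ext i
      rw [Equiv.Perm.mul_apply]
      rcases hcases i with ⟨r, rfl⟩ | rfl | rfl
      · rw [hτ1 r, hσ r, Equiv.swap_apply_of_ne_of_ne]
        · rw [← hσ r]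
          exact (ht r).1
        · rw [← hσ r]
          exact (ht r).2
      · rw [hτ2 0, Equiv.swap_apply_left, h0]
      · rw [hτ2 1, Equiv.swap_apply_right, h1]
    have hsg : sg t = -sg σ := by
      rw [htau, ← hτ3]
      unfold sg
      rw [Equiv.Perm.sign_mul, Equiv.Perm.sign_swap hne]
      push_cast
      ring
    rw [hO, h0, h1, hsg, hX (a (en 0)) (a (en 1)), smul_neg, neg_mul, neg_smul, neg_neg,
      ← mul_assoc, hsq, one_mul]
-- END tms

-- BEGIN cpr
private theorem cpr_iff {q : ℕ} (t : Equiv.Perm (Fin (q + 3))) :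
    (∀ r : Fin (q + 1), t (em r) ≠ en 0 ∧ t (em r) ≠ en 1) ↔
      (fun x : Fin (q + 3) => decide (x.val < q + 1)) ∘ t =
        fun x : Fin (q + 3) => decide (x.val < q + 1) := by
  have hem : ∀ x : Fin (q + 3), (x ≠ en 0 ∧ x ≠ en 1) ↔ x.val < q + 1 := by
    intro x
    have h0 : (en (q := q) 0).val = q + 1 := by simp [en]
    have h1 : (en (q := q) 1).val = q + 2 := by simp [en]
    constructor
    · rintro ⟨h2, h3⟩
      have h4 : x.val ≠ q + 1 := fun h => h2 (Fin.ext (by omega))
      have h5 : x.val ≠ q + 2 := fun h => h3 (Fin.ext (by omega))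
      have := x.isLt
      omega
    · intro h
      exact ⟨fun h2 => by rw [h2, h0] at h; omega, fun h2 => by rw [h2, h1] at h; omega⟩
  constructor
  · intro h
    let S : Finset (Fin (q + 3)) := Finset.univ.filter (fun x => x.val < q + 1)
    have hS : S.map t.toEmbedding ⊆ S := by
      intro y hy
      rw [Finset.mem_map] at hy
      obtain ⟨x, hx, rfl⟩ := hy
      have hx' : x.val < q + 1 := by simpa [S] using hx
      have := (hem _).1 (h ⟨x.val, hx'⟩)
      have he : em (q := q) ⟨x.val, hx'⟩ = x := by simp [em]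
      rw [he] at this
      simpa [S] using this
    have hSe : S.map t.toEmbedding = S :=
      Finset.eq_of_subset_of_card_le hS (by rw [Finset.card_map])
    funext x
    have h1 : (t x).val < q + 1 ↔ x.val < q + 1 := by
      constructor
      · intro hx
        have : t x ∈ S.map t.toEmbedding := by rw [hSe]; simpa [S] using hx
        rw [Finset.mem_map] at this
        obtain ⟨y, hy, hy2⟩ := this
        have : y = x := t.injective hy2
        subst this
        simpa [S] using hy
      · intro hx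
        have : t x ∈ S := by
          rw [← hSe, Finset.mem_map]
          exact ⟨x, by simpa [S] using hx, rfl⟩
        simpa [S] using this
    simp only [Function.comp]
    exact decide_eq_decide.2 h1
  · intro h r
    have h1 := congrFun h (em r)
    simp only [Function.comp] at h1
    have h2 := decide_eq_decide.1 h1
    exact (hem _).2 (h2.2 r.isLt)

/-- These are the permutations of `Fin (q + 3)` which preserve the range of `em` (equivalently the set of the last two indices): `2 * (q + 1)!` of them. -/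
theorem card_pres {q : ℕ} :
    (Finset.univ.filter (fun t : Equiv.Perm (Fin (q + 3)) =>
      ∀ r : Fin (q + 1), t (em r) ≠ en 0 ∧ t (em r) ≠ en 1)).card =
        2 * Nat.factorial (q + 1) := by
  have h1 := DomMulAct.stabilizer_card (fun x : Fin (q + 3) => decide (x.val < q + 1))
  rw [Fintype.card_subtype] at h1
  have h2 : (Finset.univ.filter (fun t : Equiv.Perm (Fin (q + 3)) =>
      ∀ r : Fin (q + 1), t (em r) ≠ en 0 ∧ t (em r) ≠ en 1)) =
      Finset.univ.filter (fun t : Equiv.Perm (Fin (q + 3)) =>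
        (fun x : Fin (q + 3) => decide (x.val < q + 1)) ∘ t =
          fun x : Fin (q + 3) => decide (x.val < q + 1)) := by
    ext t
    simp only [Finset.mem_filter, Finset.mem_univ, true_and]
    exact cpr_iff t
  rw [h2, h1, Fintype.prod_bool]
  have h3 : Fintype.card {a : Fin (q + 3) // decide (a.val < q + 1) = true} = q + 1 := by
    rw [Fintype.card_subtype]
    simp only [decide_eq_true_eq]
    have : (Finset.univ.filter (fun x : Fin (q + 3) => x.val < q + 1)) =
        Finset.univ.map (⟨em (q := q), fun a b h => by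
          simpa [em, Fin.ext_iff] using h⟩ : Fin (q + 1) ↪ Fin (q + 3)) := by
      ext x
      simp only [Finset.mem_filter, Finset.mem_univ, true_and, Finset.mem_map,
        Function.Embedding.coeFn_mk]
      constructor
      · intro h
        exact ⟨⟨x.val, h⟩, by simp [em]⟩
      · rintro ⟨r, rfl⟩
        exact r.isLt
    rw [this, Finset.card_map, Finset.card_univ, Fintype.card_fin]
  have h4 : Fintype.card {a : Fin (q + 3) // decide (a.val < q + 1) = false} = 2 := by
    have h5 := Fintype.card_subtype_compl (fun a : Fin (q + 3) => decide (a.val < q + 1) = true)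
    rw [h3, Fintype.card_fin] at h5
    have h6 : Fintype.card {a : Fin (q + 3) // decide (a.val < q + 1) = false} =
        Fintype.card {a : Fin (q + 3) // ¬ decide (a.val < q + 1) = true} :=
      Fintype.card_congr (Equiv.subtypeEquivRight (fun a => by simp))
    rw [h6, h5]
    omega
  rw [h3, h4]
  simp [Nat.factorial, mul_comm]
-- END cpr

-- BEGIN alg
private theorem alg_split {q : ℕ} (f : (Fin (q + 1) → Fin (q + 5)) → ℝ)
    (h : Fin (q + 5) → Fin (q + 5) → ℝ) :
    ∑ a : Fin (q + 3) → Fin (q + 5), f (fun k => a (em k)) * h (a (en 0)) (a (en 1)) =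
      (∑ i, ∑ j, h i j) * ∑ b, f b := by
  have e1 : ∑ a : Fin (q + 3) → Fin (q + 5), f (fun k => a (em k)) * h (a (en 0)) (a (en 1)) =
      ∑ p : (Fin (q + 1) → Fin (q + 5)) × (Fin 2 → Fin (q + 5)), f p.1 * h (p.2 0) (p.2 1) := by
    refine Fintype.sum_equiv
      ⟨fun a => (fun k => a (em k), fun k => a (en k)),
        fun p (i : Fin (q + 3)) => if hi : (i : ℕ) < q + 1 then p.1 ⟨i, hi⟩ else
          p.2 ⟨i - (q + 1), by have := i.isLt; omega⟩, ?_, ?_⟩ _ _ ?_
    · intro a
      funext i
      by_cases hi : (i : ℕ) < q + 1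
      · simp only [dif_pos hi]
        exact congrArg a (Fin.ext rfl)
      · simp only [dif_neg hi]
        refine congrArg a (Fin.ext ?_)
        show q + 1 + ((i : ℕ) - (q + 1)) = i
        omega
    · rintro ⟨p1, p2⟩
      refine Prod.ext ?_ ?_
      · funext k
        have hk : ((em k : Fin (q + 3)) : ℕ) < q + 1 := k.isLt
        simp only [dif_pos hk]
        exact congrArg p1 (Fin.ext rfl)
      · funext k
        have hk : ¬ ((en k : Fin (q + 3)) : ℕ) < q + 1 := by
          show ¬ q + 1 + (k : ℕ) < q + 1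
          omega
        simp only [dif_neg hk]
        refine congrArg p2 (Fin.ext ?_)
        show q + 1 + (k : ℕ) - (q + 1) = k
        omega
    · intro a
      rfl
  have e2 : ∑ y : Fin 2 → Fin (q + 5), h (y 0) (y 1) = ∑ i, ∑ j, h i j := by
    rw [← Fintype.sum_prod_type' h]
    exact Fintype.sum_equiv (finTwoArrowEquiv (Fin (q + 5))) _ _ fun y => rfl
  rw [e1, Fintype.sum_prod_type, ← e2, Finset.sum_mul_sum, Finset.sum_comm]
  refine Finset.sum_congr rfl fun y _ => Finset.sum_congr rfl fun b _ => ?_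
  exact mul_comm _ _

/-- By `h` (with `sg s * sg s = 1`) the sum is `-∑ s, g (s ∘ md)` with `g a = c (a ∘ em) * B (X (a (en 0)) (a (en 1))) (wd O X a)`, which is `-2 * ∑ a, g a` by rows cnf, wni. Expand `wd`: the terms `t` with `t (em r) ∈ {en 0, en 1}` for some `r` contribute `0` (row tmz with rows slo, iot), each of the other `2 (q + 1)!` terms (row cpr) contributes `∑ a, c (a ∘ em) * O (a ∘ em) * B (X (a (en 0)) (a (en 1))) (X …)` (row tms with row ant), and this is `(∑ b, c b * O b) * ∑ b, ∑ c, B (X b c) (X b c)` (split `a` into its first `q + 1` and its last two values). -/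
theorem alg_main {q : ℕ} {V : Type} [AddCommGroup V] [Module ℝ V] (B : V →ₗ[ℝ] V →ₗ[ℝ] ℝ)
    (X : Fin (q + 5) → Fin (q + 5) → V) (hX : ∀ i j, X j i = -X i j)
    (T : Fin (q + 1) → Fin (q + 5) → ℝ) (O : (Fin (q + 1) → Fin (q + 5)) → ℝ)
    (hO : ∀ b, O b = (Matrix.of fun r s => T r (b s)).det)
    (h : ∀ s : Equiv.Perm (Fin (q + 5)), sg s • X (s (tl 2)) (s (tl 3)) +
      wd O X (fun r => s (md r)) = 0)
    (c : (Fin (q + 1) → Fin (q + 5)) → ℝ) :
    ∑ s : Equiv.Perm (Fin (q + 5)), sg s * (c (fun r => s (hd r)) *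
      B (X (s (tl 0)) (s (tl 1))) (X (s (tl 2)) (s (tl 3)))) =
      -2 * (∑ i, ∑ j, B (X i j) (X i j)) * ∑ b, c b * O b := by
  have hsq : ∀ {k : ℕ} (s : Equiv.Perm (Fin k)), sg s * sg s = 1 := by
    intro k s
    unfold sg
    rcases Int.units_eq_one_or (Equiv.Perm.sign s) with h | h <;> rw [h] <;> norm_num
  have hi : ∀ r f, ∑ a, T r a • X a f = 0 := iota_zero X hX T O hO h
  have hs : ∀ b r f, ∑ a, O (Function.update b r a) • X a f = 0 := slot_zero X T O hO hi
  have hA := comp_alt T O hO
  set g : (Fin (q + 3) → Fin (q + 5)) → ℝ := fun a =>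
    c (fun k => a (em k)) * B (X (a (en 0)) (a (en 1))) (wd O X a) with hg
  -- step 1
  have h1 : ∀ s : Equiv.Perm (Fin (q + 5)), sg s * (c (fun r => s (hd r)) *
      B (X (s (tl 0)) (s (tl 1))) (X (s (tl 2)) (s (tl 3)))) = -g (fun r => s (md r)) := by
    intro s
    have h2 : sg s • X (s (tl 2)) (s (tl 3)) = -wd O X (fun r => s (md r)) :=
      eq_neg_of_add_eq_zero_left (h s)
    have h3 : sg s * B (X (s (tl 0)) (s (tl 1))) (X (s (tl 2)) (s (tl 3))) =
        -B (X (s (tl 0)) (s (tl 1))) (wd O X (fun r => s (md r))) := by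
      rw [← smul_eq_mul, ← map_smul, h2, map_neg]
    have h4 : g (fun r => s (md r)) = c (fun r => s (hd r)) *
        B (X (s (tl 0)) (s (tl 1))) (wd O X (fun r => s (md r))) := rfl
    rw [h4, mul_left_comm, h3, mul_neg]
  have h2 : ∑ s : Equiv.Perm (Fin (q + 5)), g (fun r => s (md r)) = 2 * ∑ a, g a := by
    refine count_first g fun a ha => ?_
    show c (fun k => a (em k)) * B (X (a (en 0)) (a (en 1))) (wd O X a) = 0
    rw [wd_noninj O X a ha, map_zero, mul_zero]
  -- step 2: expand `wd`
  set u : Equiv.Perm (Fin (q + 3)) → (Fin (q + 3) → Fin (q + 5)) → ℝ := fun t a =>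
    c (fun k => a (em k)) * (O (fun k => a (t (em k))) *
      B (X (a (en 0)) (a (en 1))) (X (a (t (en 0))) (a (t (en 1))))) with hu
  have h3 : ∀ a, g a = (1 / (2 * (Nat.factorial (q + 1) : ℝ))) * ∑ t, sg t * u t a := by
    intro a
    show c (fun k => a (em k)) * B (X (a (en 0)) (a (en 1))) (wd O X a) = _
    unfold wd
    rw [map_smul, map_sum, smul_eq_mul, mul_left_comm, Finset.mul_sum]
    congr 1
    refine Finset.sum_congr rfl fun t _ => ?_
    rw [map_smul, smul_eq_mul]
    show _ = sg t * (c (fun k => a (em k)) * (O (fun k => a (t (em k))) *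
      B (X (a (en 0)) (a (en 1))) (X (a (t (en 0))) (a (t (en 1))))))
    ring
  have h4 : ∑ a, g a = (1 / (2 * (Nat.factorial (q + 1) : ℝ))) * ∑ t, sg t * ∑ a, u t a := by
    rw [Finset.sum_congr rfl fun a _ => h3 a, ← Finset.mul_sum, Finset.sum_comm]
    congr 1
    exact Finset.sum_congr rfl fun t _ => (Finset.mul_sum _ _ _).symm
  -- step 3: the value for every `t`
  have h5 : ∀ t : Equiv.Perm (Fin (q + 3)), sg t * ∑ a, u t a =
      if (∀ r : Fin (q + 1), t (em r) ≠ en 0 ∧ t (em r) ≠ en 1) then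
        (∑ i, ∑ j, B (X i j) (X i j)) * ∑ b, c b * O b else 0 := by
    intro t
    split_ifs with ht
    · rw [← alg_split (fun b => c b * O b) (fun i j => B (X i j) (X i j)), Finset.mul_sum]
      refine Finset.sum_congr rfl fun a _ => ?_
      have h6 := congrArg (B (X (a (en 0)) (a (en 1)))) (term_same X hX O hA t ht a)
      rw [map_smul, map_smul, smul_eq_mul, smul_eq_mul] at h6
      show sg t * (c (fun k => a (em k)) * (O (fun k => a (t (em k))) *
        B (X (a (en 0)) (a (en 1))) (X (a (t (en 0))) (a (t (en 1)))))) =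
        c (fun k => a (em k)) * O (fun k => a (em k)) *
          B (X (a (en 0)) (a (en 1))) (X (a (en 0)) (a (en 1)))
      rw [mul_assoc (c fun k => a (em k)), ← h6]
      ring
    · rw [not_forall] at ht
      obtain ⟨r, hr⟩ := ht
      have hr' : t (em r) = en 0 ∨ t (em r) = en 1 := by
        by_contra hcon
        rw [not_or] at hcon
        exact hr hcon
      have h7 : ∑ a, u t a = 0 := term_zero X hX O hs B c t r hr'
      rw [h7, mul_zero]
  rw [Finset.sum_congr rfl fun s _ => h1 s, Finset.sum_neg_distrib, h2, h4,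
    Finset.sum_congr rfl fun t _ => h5 t, ← Finset.sum_filter, Finset.sum_const, card_pres,
    nsmul_eq_mul]
  have hf : (Nat.factorial (q + 1) : ℝ) ≠ 0 := Nat.cast_ne_zero.2 (Nat.factorial_ne_zero _)
  push_cast
  field_simp
-- END alg

end Pool.Agent.Oad
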