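import Pool.Agent.Oad.Defs

/-!
Cut-off functions near a compact set of zero `ℋ⁴` measure, removable singularities of the equation
`div (Q V) = 0`
-/

set_option autoImplicit false

namespace Pool.Agent.Oad

open MeasureTheory Set Matrix Filter Topology
open scoped ContDiff

/-- smooth functions with compact support in `U` -/
def IsTestF {q : ℕ} (U : Set (E q)) (f : E q → ℝ) : Prop :=
  ContDiff ℝ ∞ f ∧ HasCompactSupport f ∧ tsupport f ⊆ U

-- BEGIN vl0
/-- `μH[q + 5]` is a Haar measure, so `volume` is a multiple of it, and `μH[q + 5] ≤ μH[q + 4]`. -/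
theorem vol_zero {q : ℕ} (K : Set (E q)) (h0 : μH[(q : ℝ) + 4] K = 0) : volume K = 0 := by
  have hfin : (Module.finrank ℝ (E q) : ℝ) = (q : ℝ) + 5 := by
    rw [finrank_euclideanSpace_fin]
    push_cast
    ring
  have h5 : μH[(q : ℝ) + 5] K = 0 := by
    have hle := Measure.hausdorffMeasure_mono (X := E q)
      (show (q : ℝ) + 4 ≤ (q : ℝ) + 5 by linarith) K
    exact nonpos_iff_eq_zero.mp (hle.trans h0.le)
  have hI : (μH[(Module.finrank ℝ (E q) : ℝ)] : Measure (E q)).IsAddHaarMeasure := inferInstance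
  have hv := Measure.isAddLeftInvariant_eq_smul (volume : Measure (E q))
    (μH[(Module.finrank ℝ (E q) : ℝ)] : Measure (E q))
  rw [← hfin] at h5
  rw [hv, Measure.smul_apply, h5, smul_zero]
-- END vl0

-- BEGIN msr
/-- `K` is null, so `volume.restrict U = volume.restrict (U \ K)` (`Measure.restrict_congr_set`); `ContinuousOn.aestronglyMeasurable` on the open set `U \ K`. -/
theorem meas_of_cont {q : ℕ} (U K : Set (E q)) (hK : IsOpen (U \ K)) (hv : volume K = 0)
    (u : (E q) → ℝ) (hu : ContinuousOn u (U \ K)) :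
    AEStronglyMeasurable u (volume.restrict U) := by
  have h1 : (U \ K : Set (E q)) =ᵐ[volume] U := sdiff_null_ae_eq_self hv
  rw [← Measure.restrict_congr_set h1]
  exact hu.aestronglyMeasurable hK.measurableSet
-- END msr

-- BEGIN itg
/-- On the compact set `S` the function `f` is integrable (`LocallyIntegrableOn.integrableOn_compact_subset`) and `g` is bounded and continuous (`IntegrableOn.mul_continuousOn`); outside `S` the product is `0` (`integrableOn_iff_integrable_of_support_subset`). -/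
theorem integrable_test {q : ℕ} (U : Set (E q)) (f : (E q) → ℝ) (hf : LocallyIntegrableOn f U)
    (g : (E q) → ℝ) (hg : ContinuousOn g U) (S : Set (E q)) (hS : IsCompact S) (hSU : S ⊆ U)
    (hgS : ∀ x, x ∉ S → g x = 0) : Integrable (fun x => f x * g x) := by
  have h1 : IntegrableOn f S := hf.integrableOn_compact_subset hSU hS
  have h2 : IntegrableOn (fun x => f x * g x) S := h1.mul_continuousOn (hg.mono hSU) hS
  refine (integrableOn_iff_integrable_of_support_subset ?_).1 h2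
  intro x hx
  by_contra hxS
  exact hx (by simp [hgS x hxS])
-- END itg

-- BEGIN dv0
/-- `integral_mul_fderiv_eq_neg_fderiv_mul_of_integrable` (or a neighbour in `Mathlib/Analysis/Calculus/LineDeriv/IntegrationByParts.lean`) with one factor `1`; the derivative is continuous with compact support, so integrable. -/
theorem int_pd_zero {q : ℕ} (i : Fin (q + 5)) (g : (E q) → ℝ) (hg : ContDiff ℝ 1 g) (hc : HasCompactSupport g) :
    Integrable (fun x => pd i g x) ∧ ∫ x, pd i g x = 0 := by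
  have hcont : Continuous (fun x => pd i g x) :=
    (hg.continuous_fderiv one_ne_zero).clm_apply continuous_const
  have hcs : HasCompactSupport (fun x => pd i g x) := hc.fderiv_apply (𝕜 := ℝ) (bv i)
  have hint : Integrable (fun x => pd i g x) := hcont.integrable_of_hasCompactSupport hcs
  have hgi : Integrable g := hg.continuous.integrable_of_hasCompactSupport hc
  refine ⟨hint, ?_⟩
  have h := integral_mul_fderiv_eq_neg_fderiv_mul_of_integrable (μ := (volume : Measure (E q)))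
    (f := fun _ : (E q) => (1 : ℝ)) (g := g) (v := bv i) (by simp) (by simpa [pd] using hint)
    (by simpa using hgi) (fun x _ => differentiableAt_const _)
    (fun x _ => (hg.differentiable one_ne_zero) x)
  simpa [pd] using h
-- END dv0

-- BEGIN cvr
private theorem cvr_pow (q : ℕ) (x y : ℝ) (hx : 0 ≤ x) (hy : 0 ≤ y) :
    (x + y) ^ (q + 4) ≤ 2 ^ (q + 3) * x ^ (q + 4) + 2 ^ (q + 3) * y ^ (q + 4) := by
  have h := add_pow_le hx hy (q + 4)
  have e : q + 4 - 1 = q + 3 := by omega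
  rw [e, mul_add] at h
  exact h

/-- `hausdorffMeasure_apply` with size bound `1/4` gives sets `t n` covering `S` with `diam ≤ 1/4` and `∑' diam (t n) ^ (q + 4) < δ`, `δ = ε / 100`; take a point `c n` of `t n` (if non-empty) and the radius `r n = diam (t n) + η n` with `η n > 0` so small that `∑ η n ^ (q + 4) ≤ δ`, `η n ≤ 1/4` (for example `η n = η * 2 ^ (-n)`); `(x + y) ^ (q + 4) ≤ 8 x ^ (q + 4) + 8 y ^ (q + 4)`; `S` is compact: finitely many balls cover it (`IsCompact.elim_finite_subcover`). -/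
theorem exists_cover {q : ℕ} (S : Set (E q)) (hS : IsCompact S) (h0 : μH[(q : ℝ) + 4] S = 0) (ε : ℝ) (hε : 0 < ε) :
    ∃ (m : ℕ) (c : Fin m → (E q)) (r : Fin m → ℝ), (∀ i, 0 < r i ∧ r i ≤ 1) ∧
      S ⊆ (⋃ i, Metric.ball (c i) (r i)) ∧ ∑ i, r i ^ (q + 4) ≤ ε := by
  classical
  obtain ⟨δ, hδ0, hδ⟩ : ∃ δ : ℝ, 0 < δ ∧ 2 ^ (q + 3) * (2 * δ) ≤ ε :=
    ⟨ε / (2 ^ (q + 3) * 2), by positivity, by field_simp; exact le_refl _⟩
  rw [MeasureTheory.Measure.hausdorffMeasure_apply] at h0
  have h1 : (⨅ (t : ℕ → Set (E q)) (_ : S ⊆ ⋃ n, t n)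
      (_ : ∀ n, Metric.ediam (t n) ≤ ENNReal.ofReal (1 / 4)),
      ∑' n, ⨆ _ : (t n).Nonempty, Metric.ediam (t n) ^ ((q : ℝ) + 4)) < ENNReal.ofReal δ := by
    refine lt_of_le_of_lt ?_ (ENNReal.ofReal_pos.2 hδ0)
    rw [← h0]
    exact le_iSup₂ (f := fun (r : ENNReal) (_ : 0 < r) =>
      ⨅ (t : ℕ → Set (E q)) (_ : S ⊆ ⋃ n, t n) (_ : ∀ n, Metric.ediam (t n) ≤ r),
        ∑' n, ⨆ _ : (t n).Nonempty, Metric.ediam (t n) ^ ((q : ℝ) + 4)) (ENNReal.ofReal (1 / 4))
      (ENNReal.ofReal_pos.2 (by norm_num))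
  simp only [iInf_lt_iff] at h1
  obtain ⟨t, ht, hd, hsum⟩ := h1
  have hfin : ∀ n, Metric.ediam (t n) ≠ ⊤ := fun n => ne_top_of_le_ne_top ENNReal.ofReal_ne_top (hd n)
  obtain ⟨d, hdd⟩ : ∃ d : ℕ → ℝ, ∀ n, d n = (Metric.ediam (t n)).toReal := ⟨_, fun n => rfl⟩
  have hd0 : ∀ n, 0 ≤ d n := fun n => by
    rw [hdd]
    exact ENNReal.toReal_nonneg
  have hd1 : ∀ n, d n ≤ 1 / 4 := fun n => by
    rw [hdd]
    exact ENNReal.toReal_le_of_le_ofReal (by norm_num) (hd n)
  obtain ⟨η, hη0, cc, hηc, hcc⟩ :=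
    posSumOfEncodable (ε := min (1 / 4) δ) (lt_min (by norm_num) hδ0) ℕ
  have hc : ∀ n, ∃ c : (E q), ∀ x ∈ t n, dist x c ≤ d n := by
    intro n
    by_cases hne : (t n).Nonempty
    · obtain ⟨c, hc⟩ := hne
      refine ⟨c, fun x hx => ?_⟩
      rw [dist_edist, hdd]
      exact ENNReal.toReal_mono (hfin n) (Metric.edist_le_ediam_of_mem hx hc)
    · exact ⟨0, fun x hx => absurd ⟨x, hx⟩ hne⟩
  choose c hc using hc
  obtain ⟨F, hF⟩ := hS.elim_finite_subcover (fun n => Metric.ball (c n) (d n + η n))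
    (fun n => Metric.isOpen_ball) (by
      intro x hx
      obtain ⟨n, hn⟩ := Set.mem_iUnion.1 (ht hx)
      refine Set.mem_iUnion.2 ⟨n, ?_⟩
      rw [Metric.mem_ball]
      linarith [hc n x hn, hη0 n])
  have hsumd : ∑ n ∈ F, d n ^ (q + 4) ≤ δ := by
    have h2 : ENNReal.ofReal (∑ n ∈ F, d n ^ (q + 4)) ≤ ENNReal.ofReal δ := by
      rw [ENNReal.ofReal_sum_of_nonneg (fun n _ => pow_nonneg (hd0 n) (q + 4))]
      refine le_trans (Finset.sum_le_sum
        (g := fun n => ⨆ _ : (t n).Nonempty, Metric.ediam (t n) ^ ((q : ℝ) + 4)) ?_)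
        ((ENNReal.sum_le_tsum F).trans hsum.le)
      intro n _
      by_cases hne : (t n).Nonempty
      · rw [iSup_pos hne, ENNReal.ofReal_pow (hd0 n), hdd, ENNReal.ofReal_toReal (hfin n),
          ← ENNReal.rpow_natCast]
        exact le_of_eq (by push_cast; rfl)
      · have h3 : t n = ∅ := Set.not_nonempty_iff_eq_empty.1 hne
        have h4 : d n = 0 := by
          rw [hdd, h3, Metric.ediam_empty]
          rfl
        rw [h4, zero_pow (by omega), ENNReal.ofReal_zero]
        exact zero_le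
    exact (ENNReal.ofReal_le_ofReal_iff hδ0.le).1 h2
  have hηle : ∀ n, η n ≤ min (1 / 4) δ :=
    fun n => (le_hasSum hηc n (fun j _ => (hη0 j).le)).trans hcc
  have hsumη : ∑ n ∈ F, η n ≤ min (1 / 4) δ :=
    (sum_le_hasSum F (fun n _ => (hη0 n).le) hηc).trans hcc
  have hsumη4 : ∑ n ∈ F, η n ^ (q + 4) ≤ δ := by
    refine (Finset.sum_le_sum fun n _ => ?_).trans (hsumη.trans (min_le_right _ _))
    have h3 : η n ≤ 1 / 4 := (hηle n).trans (min_le_left _ _)
    have h4 := hη0 n
    calc η n ^ (q + 4) = η n * η n ^ (q + 3) := by ring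
      _ ≤ η n * 1 := mul_le_mul_of_nonneg_left (pow_le_one₀ h4.le (by linarith)) h4.le
      _ = η n := mul_one _
  let e := F.equivFin
  refine ⟨F.card, fun i => c (e.symm i), fun i => d (e.symm i) + η (e.symm i),
    fun i => ⟨add_pos_of_nonneg_of_pos (hd0 _) (hη0 _), ?_⟩, ?_, ?_⟩
  · have h3 := hd1 (e.symm i)
    have h4 := (hηle (e.symm i)).trans (min_le_left _ _)
    linarith
  · intro x hx
    obtain ⟨n, hn, hxn⟩ := Set.mem_iUnion₂.1 (hF hx)
    refine Set.mem_iUnion.2 ⟨e ⟨n, hn⟩, ?_⟩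
    show x ∈ Metric.ball (c (e.symm (e ⟨n, hn⟩))) (d (e.symm (e ⟨n, hn⟩)) + η (e.symm (e ⟨n, hn⟩)))
    rw [Equiv.symm_apply_apply]
    exact hxn
  · have h5 : ∑ i : Fin F.card, (d (e.symm i) + η (e.symm i)) ^ (q + 4) = ∑ n ∈ F, (d n + η n) ^ (q + 4) := by
      rw [← Finset.sum_coe_sort F (fun n => (d n + η n) ^ (q + 4))]
      exact Equiv.sum_comp e.symm (fun n : F => (d n + η n) ^ (q + 4))
    show ∑ i : Fin F.card, (d (e.symm i) + η (e.symm i)) ^ (q + 4) ≤ ε
    rw [h5]
    have h6 : ∑ n ∈ F, (d n + η n) ^ (q + 4) ≤ ∑ n ∈ F, (2 ^ (q + 3) * d n ^ (q + 4) + 2 ^ (q + 3) * η n ^ (q + 4)) :=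
      Finset.sum_le_sum fun n _ => cvr_pow q _ _ (hd0 n) (hη0 n).le
    rw [Finset.sum_add_distrib, ← Finset.mul_sum, ← Finset.mul_sum] at h6
    have h7 : (2 : ℝ) ^ (q + 3) * ∑ n ∈ F, d n ^ (q + 4) ≤ 2 ^ (q + 3) * δ :=
      mul_le_mul_of_nonneg_left hsumd (by positivity)
    have h8 : (2 : ℝ) ^ (q + 3) * ∑ n ∈ F, η n ^ (q + 4) ≤ 2 ^ (q + 3) * δ :=
      mul_le_mul_of_nonneg_left hsumη4 (by positivity)
    linarith
-- END cvr

-- BEGIN bmp
/-- Take one `ContDiffBump` `b` at `0` with radii `1 < 2`; its derivative is continuous with compact support, so bounded by some `C > 0`; `β x = b (r⁻¹ • (x - c))`. -/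
theorem exists_bump {q : ℕ} : ∃ C : ℝ, 0 < C ∧ ∀ (c : (E q)) (r : ℝ), 0 < r → ∃ β : (E q) → ℝ,
    ContDiff ℝ ∞ β ∧ (∀ x, 0 ≤ β x ∧ β x ≤ 1) ∧ (∀ x ∈ Metric.ball c r, β x = 1) ∧
    (∀ x, x ∉ Metric.ball c (2 * r) → β x = 0) ∧ ∀ x, ‖fderiv ℝ β x‖ ≤ C / r := by
  let b : ContDiffBump (0 : (E q)) := ⟨1, 2, one_pos, one_lt_two⟩
  have hb : ContDiff ℝ ∞ (b : (E q) → ℝ) := b.contDiff
  have hd : Continuous (fderiv ℝ (b : (E q) → ℝ)) := hb.continuous_fderiv (by simp)
  obtain ⟨C, hC⟩ := hd.bounded_above_of_compact_support (b.hasCompactSupport.fderiv (𝕜 := ℝ))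
  refine ⟨max C 1, by positivity, ?_⟩
  intro c r hr
  have hin : ∀ x : (E q), HasFDerivAt (fun y : (E q) => r⁻¹ • (y - c)) (r⁻¹ • ContinuousLinearMap.id ℝ (E q)) x := by
    intro x
    exact ((hasFDerivAt_id x).sub_const c).const_smul r⁻¹
  have hn : ∀ x : (E q), ‖r⁻¹ • (x - c)‖ = dist x c / r := by
    intro x
    rw [norm_smul, norm_inv, Real.norm_eq_abs, abs_of_pos hr, dist_eq_norm]
    field_simp
  refine ⟨fun x => b (r⁻¹ • (x - c)), ?_, ?_, ?_, ?_, ?_⟩
  · exact hb.comp ((contDiff_id.sub contDiff_const).const_smul r⁻¹)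
  · intro x
    exact ⟨b.nonneg, b.le_one⟩
  · intro x hx
    apply b.one_of_mem_closedBall
    rw [Metric.mem_closedBall, dist_zero_right, hn]
    have h1 : dist x c < r := Metric.mem_ball.mp hx
    have h2 : dist x c / r ≤ 1 := by
      rw [div_le_one hr]
      exact h1.le
    exact h2
  · intro x hx
    apply b.zero_of_le_dist
    rw [dist_zero_right, hn]
    have h1 : 2 * r ≤ dist x c := by
      rw [Metric.mem_ball, not_lt] at hx
      exact hx
    have h2 : 2 ≤ dist x c / r := by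
      rw [le_div_iff₀ hr]
      exact h1
    exact h2
  · intro x
    have h1 : HasFDerivAt (fun x => b (r⁻¹ • (x - c)))
        ((fderiv ℝ (b : (E q) → ℝ) (r⁻¹ • (x - c))).comp (r⁻¹ • ContinuousLinearMap.id ℝ (E q))) x :=
      ((hb.differentiable (by simp)) _).hasFDerivAt.comp x (hin x)
    rw [h1.fderiv, ContinuousLinearMap.comp_smul, ContinuousLinearMap.comp_id, norm_smul, norm_inv,
      Real.norm_eq_abs, abs_of_pos hr, div_eq_inv_mul]
    exact mul_le_mul_of_nonneg_left ((hC _).trans (le_max_left _ _)) (by positivity)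
-- END bmp

-- BEGIN prd
/-- Product rule (`fderiv_finset_prod` or induction on `m`), each factor `1 - β i` has absolute value at most `1`. -/
theorem fderiv_prod_le {q : ℕ} (m : ℕ) (β : Fin m → (E q) → ℝ) (hβ : ∀ i, ContDiff ℝ ∞ (β i))
    (h : ∀ i x, 0 ≤ β i x ∧ β i x ≤ 1) (x : (E q)) :
    ‖fderiv ℝ (fun y => ∏ i, (1 - β i y)) x‖ ≤ ∑ i, ‖fderiv ℝ (β i) x‖ := by
  induction m with
  | zero =>
    have e : (fun y : (E q) => ∏ i : Fin 0, (1 - β i y)) = fun _ => (1 : ℝ) := by
      funext y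
      exact Fin.prod_univ_zero _
    have h0 : fderiv ℝ (fun _ : (E q) => (1 : ℝ)) x = 0 := (hasFDerivAt_const (1 : ℝ) x).fderiv
    rw [e, h0, norm_zero]
    exact Finset.sum_nonneg fun i _ => norm_nonneg _
  | succ m ih =>
    have hd : Differentiable ℝ (β 0) := (hβ 0).differentiable (by simp)
    have hg : Differentiable ℝ (fun y => ∏ i : Fin m, (1 - β i.succ y)) :=
      (contDiff_prod fun i _ => contDiff_const.sub (hβ i.succ)).differentiable (n := ∞) (by simp)
    have e : (fun y => ∏ i : Fin (m + 1), (1 - β i y)) =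
        fun y => (1 - β 0 y) * ∏ i : Fin m, (1 - β i.succ y) := by
      funext y
      exact Fin.prod_univ_succ _
    have H1 : HasFDerivAt (fun y => 1 - β 0 y) (-fderiv ℝ (β 0) x) x := (hd x).hasFDerivAt.const_sub 1
    have H3 : HasFDerivAt (fun y => (1 - β 0 y) * ∏ i : Fin m, (1 - β i.succ y))
        ((1 - β 0 x) • fderiv ℝ (fun y => ∏ i : Fin m, (1 - β i.succ y)) x +
          (∏ i : Fin m, (1 - β i.succ x)) • (-fderiv ℝ (β 0) x)) x := H1.mul (hg x).hasFDerivAt
    rw [e, H3.fderiv, Fin.sum_univ_succ]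
    refine (norm_add_le _ _).trans ?_
    rw [norm_smul, norm_smul, norm_neg, add_comm]
    have h1 : ‖(1 - β 0 x : ℝ)‖ ≤ 1 := by
      rw [Real.norm_eq_abs, abs_le]
      constructor <;> linarith [(h 0 x).1, (h 0 x).2]
    have h2 : ‖(∏ i : Fin m, (1 - β i.succ x) : ℝ)‖ ≤ 1 := by
      rw [Real.norm_eq_abs, Finset.abs_prod]
      refine Finset.prod_le_one (fun i _ => abs_nonneg _) fun i _ => ?_
      rw [abs_le]
      constructor <;> linarith [(h i.succ x).1, (h i.succ x).2]
    have h3 := ih (fun i => β i.succ) (fun i => hβ i.succ) (fun i => h i.succ)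
    refine add_le_add ?_ ?_
    · exact (mul_le_mul_of_nonneg_right h2 (norm_nonneg _)).trans (le_of_eq (one_mul _))
    · exact ((mul_le_mul_of_nonneg_right h1 (norm_nonneg _)).trans (le_of_eq (one_mul _))).trans h3
-- END prd

-- BEGIN cut
/-- Let `C` be the constant of row bmp, `w` the volume of the unit ball (as a real), cover `S` by row cvr with `ε' = ε / (32 (C + 1) (w + 1))`, `χ = ∏ i, (1 - β i)`. `O = ⋃ balls`. `‖fderiv χ‖ ≤ ∑ ‖fderiv (β i)‖ ≤ ∑ indicator (ball (c i) (2 r i)) (C / r i)` (row prd; outside the closed ball the derivative is `0`; use `closedBall` or note that the derivative of a function with values in `[0, 1]` vanishes where it is `0`: `IsLocalMin.fderiv_eq_zero`), the integral is at most `∑ C / r i * 32 r i ^ 5 w ≤ ε`; `{χ ≠ 1} ⊆ ⋃ ball (c i) (2 r i)` has volume at most `∑ 32 r i ^ 5 w ≤ ε` (`r i ≤ 1`). `Measure.addHaar_ball`. -/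
theorem exists_cutoff {q : ℕ} (S : Set (E q)) (hS : IsCompact S) (h0 : μH[(q : ℝ) + 4] S = 0) (ε : ℝ) (hε : 0 < ε) :
    ∃ χ : (E q) → ℝ, ContDiff ℝ ∞ χ ∧ (∀ x, 0 ≤ χ x ∧ χ x ≤ 1) ∧
      (∃ O : Set (E q), IsOpen O ∧ S ⊆ O ∧ ∀ x ∈ O, χ x = 0) ∧
      Integrable (fun x => ‖fderiv ℝ χ x‖) ∧ ∫ x, ‖fderiv ℝ χ x‖ ≤ ε ∧
      volume {x | χ x ≠ 1} ≤ ENNReal.ofReal ε := by
  obtain ⟨C, hC, hb⟩ := exists_bump
  obtain ⟨w, hw⟩ : ∃ w : ℝ, w = (volume (Metric.ball (0 : (E q)) 1)).toReal := ⟨_, rfl⟩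
  have hw0 : 0 ≤ w := by rw [hw]; exact ENNReal.toReal_nonneg
  have hwE : volume (Metric.ball (0 : (E q)) 1) = ENNReal.ofReal w := by
    rw [hw, ENNReal.ofReal_toReal (measure_ball_lt_top).ne]
  have hD : (0 : ℝ) < 2 ^ (q + 5) * (C + 1) * (w + 1) := by positivity
  have hε' : 0 < ε / (2 ^ (q + 5) * (C + 1) * (w + 1)) := div_pos hε hD
  obtain ⟨m, c, r, hr, hSc, hsum⟩ := exists_cover S hS h0 _ hε'
  choose β hβ1 hβ2 hβ3 hβ4 hβ5 using fun i => hb (c i) (r i) (hr i).1
  have hball : ∀ i, volume (Metric.ball (c i) (2 * r i)) =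
      ENNReal.ofReal (2 ^ (q + 5) * w * r i ^ (q + 5)) := by
    intro i
    have h2 : (0 : ℝ) ≤ 2 * r i := by linarith [(hr i).1]
    rw [Measure.addHaar_ball volume (c i) h2, hwE, finrank_euclideanSpace, Fintype.card_fin,
      ← ENNReal.ofReal_mul (by positivity)]
    congr 1
    rw [mul_pow]
    ring
  have hS1 : (∑ i, r i ^ (q + 4)) * (2 ^ (q + 5) * (C + 1) * (w + 1)) ≤ ε := by
    rwa [le_div_iff₀ hD] at hsum
  have hs0 : 0 ≤ ∑ i, r i ^ (q + 4) := Finset.sum_nonneg fun i _ => pow_nonneg (hr i).1.le _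
  have hder : ∀ x, ‖fderiv ℝ (fun y => ∏ i, (1 - β i y)) x‖ ≤
      ∑ i, (Metric.ball (c i) (2 * r i)).indicator (fun _ => C / r i) x := by
    intro x
    refine (fderiv_prod_le m β hβ1 hβ2 x).trans (Finset.sum_le_sum fun i _ => ?_)
    by_cases hx : x ∈ Metric.ball (c i) (2 * r i)
    · rw [Set.indicator_of_mem hx]
      exact hβ5 i x
    · rw [Set.indicator_of_notMem hx]
      have hmin : IsLocalMin (β i) x := by
        refine Filter.Eventually.of_forall fun y => ?_
        simp only [hβ4 i x hx]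
        exact (hβ2 i y).1
      rw [hmin.fderiv_eq_zero, norm_zero]
  have hgi : ∀ i, Integrable (fun x : (E q) =>
      (Metric.ball (c i) (2 * r i)).indicator (fun _ => C / r i) x) := by
    intro i
    rw [integrable_indicator_iff measurableSet_ball]
    exact integrableOn_const (measure_ball_lt_top).ne
  have hcd : ContDiff ℝ ∞ (fun y => ∏ i, (1 - β i y)) :=
    contDiff_prod fun i _ => contDiff_const.sub (hβ1 i)
  have hint : Integrable (fun x => ‖fderiv ℝ (fun y => ∏ i, (1 - β i y)) x‖) := by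
    refine (integrable_finset_sum Finset.univ fun i _ => hgi i).mono' ?_ ?_
    · exact ((hcd.continuous_fderiv (by simp)).norm).aestronglyMeasurable
    · refine Filter.Eventually.of_forall fun x => ?_
      rw [norm_norm]
      exact hder x
  refine ⟨fun y => ∏ i, (1 - β i y), hcd, ?_, ⟨⋃ i, Metric.ball (c i) (r i),
    isOpen_iUnion fun i => Metric.isOpen_ball, hSc, ?_⟩, hint, ?_, ?_⟩
  · intro x
    exact ⟨Finset.prod_nonneg fun i _ => by linarith [(hβ2 i x).2],
      Finset.prod_le_one (fun i _ => by linarith [(hβ2 i x).2])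
        fun i _ => by linarith [(hβ2 i x).1]⟩
  · intro x hx
    obtain ⟨i, hi⟩ := Set.mem_iUnion.1 hx
    exact Finset.prod_eq_zero (Finset.mem_univ i) (by rw [hβ3 i x hi, sub_self])
  · refine (integral_mono hint (integrable_finset_sum Finset.univ fun i _ => hgi i)
      hder).trans ?_
    rw [integral_finset_sum _ fun i _ => hgi i]
    have h1 : ∀ i, ∫ x, (Metric.ball (c i) (2 * r i)).indicator (fun _ => C / r i) x =
        2 ^ (q + 5) * C * w * r i ^ (q + 4) := by
      intro i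
      have hri : r i ≠ 0 := (hr i).1.ne'
      rw [integral_indicator_const _ measurableSet_ball, measureReal_def, hball i,
        ENNReal.toReal_ofReal (by have := (hr i).1; positivity), smul_eq_mul]
      rw [pow_succ (r i) (q + 4)]
      field_simp
    rw [Finset.sum_congr rfl fun i _ => h1 i, ← Finset.mul_sum]
    have h2 : 2 ^ (q + 5) * C * w ≤ 2 ^ (q + 5) * (C + 1) * (w + 1) := by
      have h9 : (0 : ℝ) < 2 ^ (q + 5) := by positivity
      nlinarith [mul_nonneg h9.le (mul_nonneg hC.le hw0), mul_nonneg h9.le hw0, mul_nonneg h9.le hC.le]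
    calc 2 ^ (q + 5) * C * w * ∑ i, r i ^ (q + 4) ≤ 2 ^ (q + 5) * (C + 1) * (w + 1) * ∑ i, r i ^ (q + 4) :=
          mul_le_mul_of_nonneg_right h2 hs0
      _ ≤ ε := by linarith [hS1, mul_comm (∑ i, r i ^ (q + 4)) (2 ^ (q + 5) * (C + 1) * (w + 1))]
  · have hsub : {x | (fun y => ∏ i, (1 - β i y)) x ≠ 1} ⊆
        ⋃ i, Metric.ball (c i) (2 * r i) := by
      intro x hx
      by_contra hcon
      apply hx
      refine Finset.prod_eq_one fun i _ => ?_
      rw [hβ4 i x fun h => hcon (Set.mem_iUnion.2 ⟨i, h⟩), sub_zero]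
    refine (measure_mono hsub).trans ((measure_iUnion_fintype_le _ _).trans ?_)
    rw [Finset.sum_congr rfl fun i _ => hball i,
      ← ENNReal.ofReal_sum_of_nonneg fun i _ => by have := (hr i).1; positivity]
    refine ENNReal.ofReal_le_ofReal ?_
    rw [← Finset.mul_sum]
    have h3 : ∑ i, r i ^ (q + 5) ≤ ∑ i, r i ^ (q + 4) :=
      Finset.sum_le_sum fun i _ => pow_le_pow_of_le_one (hr i).1.le (hr i).2 (by omega)
    have h2 : 2 ^ (q + 5) * w ≤ 2 ^ (q + 5) * (C + 1) * (w + 1) := by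
      have h9 : (0 : ℝ) < 2 ^ (q + 5) := by positivity
      nlinarith [mul_nonneg h9.le (mul_nonneg hC.le hw0), mul_nonneg h9.le hw0, mul_nonneg h9.le hC.le]
    calc 2 ^ (q + 5) * w * ∑ i, r i ^ (q + 5) ≤ 2 ^ (q + 5) * w * ∑ i, r i ^ (q + 4) :=
          mul_le_mul_of_nonneg_left h3 (by positivity)
      _ ≤ 2 ^ (q + 5) * (C + 1) * (w + 1) * ∑ i, r i ^ (q + 4) := mul_le_mul_of_nonneg_right h2 hs0
      _ ≤ ε := by linarith [hS1, mul_comm (∑ i, r i ^ (q + 4)) (2 ^ (q + 5) * (C + 1) * (w + 1))]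
-- END cut

-- BEGIN gcd
/-- The three open sets `U \ K`, `(tsupport ψ)ᶜ`, `O` cover `E`; on each of them the product is `C^1` (on the last two it is `0`). -/
theorem prod_contDiff {q : ℕ} (U K O : Set (E q)) (hK : IsOpen (U \ K)) (hO : IsOpen O)
    (f ψ χ : (E q) → ℝ) (hf : ContDiffOn ℝ 1 f (U \ K)) (hψ : IsTestF U ψ) (hχ : ContDiff ℝ ∞ χ)
    (hKO : K ∩ tsupport ψ ⊆ O) (hχO : ∀ x ∈ O, χ x = 0) :
    ContDiff ℝ 1 (fun x => ψ x * χ x * f x) ∧
      HasCompactSupport (fun x => ψ x * χ x * f x) := by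
  obtain ⟨h1, h2, h3⟩ := hψ
  have h1' : ContDiff ℝ 1 ψ := h1.of_le (by exact_mod_cast le_top)
  have hχ' : ContDiff ℝ 1 χ := hχ.of_le (by exact_mod_cast le_top)
  constructor
  · rw [contDiff_iff_contDiffAt]
    intro x
    by_cases hxO : x ∈ O
    · have h4 : (fun y => ψ y * χ y * f y) =ᶠ[𝓝 x] fun _ => 0 := by
        filter_upwards [hO.mem_nhds hxO] with y hy
        rw [hχO y hy]
        ring
      exact contDiffAt_const.congr_of_eventuallyEq h4
    · by_cases hxt : x ∈ tsupport ψ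
      · have hxU : x ∈ U \ K := ⟨h3 hxt, fun hk => hxO (hKO ⟨hk, hxt⟩)⟩
        exact (h1'.contDiffAt.mul hχ'.contDiffAt).mul (hf.contDiffAt (hK.mem_nhds hxU))
      · have h4 : (fun y => ψ y * χ y * f y) =ᶠ[𝓝 x] fun _ => 0 := by
          filter_upwards [(isClosed_tsupport ψ).isOpen_compl.mem_nhds hxt] with y hy
          rw [image_eq_zero_of_notMem_tsupport hy]
          ring
        exact contDiffAt_const.congr_of_eventuallyEq h4
  · have h5 : (fun x => ψ x * χ x * f x) = fun x => ψ x * (χ x * f x) := by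
      funext x
      ring
    rw [h5]
    exact HasCompactSupport.mul_right h2
-- END gcd

-- BEGIN dvb
private theorem dvb_zero {q : ℕ} (i : Fin (q + 5)) (f : (E q) → ℝ) (x : (E q)) (h : f =ᶠ[𝓝 x] fun _ => (0 : ℝ)) :
    pd i f x = 0 := by
  unfold pd
  rw [h.fderiv_eq]
  simp

/-- Row gcd for `f = u * V i`, row dv0 for `ψ χ u V i`, sum over `i`. The integrand is `∑ i, pd i (ψ χ u V i)` at every point: product rule on `U \ K`; outside `tsupport ψ` both sides are `0`, on `O` both sides are `0` (`χ` and its derivative vanish on the open set `O`). -/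
theorem ibp_cut {q : ℕ} (U K O : Set (E q)) (hU : IsOpen U) (hK : IsOpen (U \ K)) (hO : IsOpen O)
    (u ψ χ w : (E q) → ℝ) (hu : ContDiffOn ℝ 1 u (U \ K))
    (V : Fin (q + 5) → (E q) → ℝ) (hV : ∀ i, ContDiffOn ℝ 1 (V i) U)
    (hψ : IsTestF U ψ) (hχ : ContDiff ℝ ∞ χ)
    (hKO : K ∩ tsupport ψ ⊆ O) (hχO : ∀ x ∈ O, χ x = 0)
    (hw : ∀ x ∈ U \ K, ∑ i, pd i (fun y => u y * V i y) x = w x) :
    ∫ x, (u x * χ x * (∑ i, V i x * pd i ψ x) + u x * ψ x * (∑ i, V i x * pd i χ x) +
      ψ x * χ x * w x) = 0 := by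
  have hg : ∀ i, ContDiff ℝ 1 (fun y => ψ y * χ y * (u y * V i y)) ∧
      HasCompactSupport (fun y => ψ y * χ y * (u y * V i y)) := fun i =>
    prod_contDiff U K O hK hO (fun y => u y * V i y) ψ χ (hu.mul ((hV i).mono sdiff_subset))
      hψ hχ hKO hχO
  have hI := fun i => int_pd_zero i _ (hg i).1 (hg i).2
  have key : ∀ x, u x * χ x * (∑ i, V i x * pd i ψ x) + u x * ψ x * (∑ i, V i x * pd i χ x) +
      ψ x * χ x * w x = ∑ i, pd i (fun y => ψ y * χ y * (u y * V i y)) x := by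
    intro x
    by_cases hxO : x ∈ O
    · have e1 : χ x = 0 := hχO x hxO
      have hev : χ =ᶠ[𝓝 x] fun _ => (0 : ℝ) := Filter.eventually_of_mem (hO.mem_nhds hxO) hχO
      have e2 : ∀ i, pd i χ x = 0 := fun i => dvb_zero i χ x hev
      have e3 : ∀ i, pd i (fun y => ψ y * χ y * (u y * V i y)) x = 0 := fun i =>
        dvb_zero i _ x (hev.mono fun y hy => by
          show ψ y * χ y * (u y * V i y) = 0
          rw [hy, mul_zero, zero_mul])
      simp only [e1, e2, e3]
      simp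
    by_cases hxS : x ∈ tsupport ψ
    · have hx : x ∈ U \ K := ⟨hψ.2.2 hxS, fun h => hxO (hKO ⟨h, hxS⟩)⟩
      have hn : U \ K ∈ 𝓝 x := hK.mem_nhds hx
      have dψ : DifferentiableAt ℝ ψ x := (hψ.1.differentiable (by simp)) x
      have dχ : DifferentiableAt ℝ χ x := (hχ.differentiable (by simp)) x
      have df : ∀ i, DifferentiableAt ℝ (fun y => u y * V i y) x := fun i =>
        ((hu.mul ((hV i).mono sdiff_subset)).contDiffAt hn).differentiableAt (by simp)
      have e : ∀ i, pd i (fun y => ψ y * χ y * (u y * V i y)) x =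
          u x * χ x * (V i x * pd i ψ x) + u x * ψ x * (V i x * pd i χ x) +
            ψ x * χ x * pd i (fun y => u y * V i y) x := by
        intro i
        unfold pd
        rw [fderiv_fun_mul (dψ.fun_mul dχ) (df i), fderiv_fun_mul dψ dχ]
        simp only [_root_.add_apply, _root_.smul_apply, smul_eq_mul,
          smul_add]
        ring
      simp only [e, Finset.sum_add_distrib, ← Finset.mul_sum]
      rw [hw x hx]
    · have hev : ψ =ᶠ[𝓝 x] fun _ => (0 : ℝ) := notMem_tsupport_iff_eventuallyEq.1 hxS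
      have e1 : ψ x = 0 := hev.self_of_nhds
      have e2 : ∀ i, pd i ψ x = 0 := fun i => dvb_zero i ψ x hev
      have e3 : ∀ i, pd i (fun y => ψ y * χ y * (u y * V i y)) x = 0 := fun i =>
        dvb_zero i _ x (hev.mono fun y hy => by
          show ψ y * χ y * (u y * V i y) = 0
          rw [hy, zero_mul, zero_mul])
      simp only [e1, e2, e3]
      simp
  simp only [key]
  rw [integral_finsetSum _ fun i _ => (hI i).1]
  exact Finset.sum_eq_zero fun i _ => (hI i).2
-- END dvb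

-- BEGIN lim
private theorem lim_pd_zero {q : ℕ} (i : Fin (q + 5)) (ψ : (E q) → ℝ) (x : (E q)) (hx : x ∉ tsupport ψ) :
    pd i ψ x = 0 := by
  have h1 : fderiv ℝ ψ x = 0 := by
    by_contra h
    exact hx (support_fderiv_subset ℝ (Function.mem_support.mpr h))
  unfold pd
  rw [h1]
  rfl

private theorem lim_pd_cont {q : ℕ} (i : Fin (q + 5)) (ψ : (E q) → ℝ) (hψ : ContDiff ℝ ∞ ψ) :
    Continuous (fun x => pd i ψ x) := by
  have h1 : Continuous (fderiv ℝ ψ) := hψ.continuous_fderiv (by simp)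
  exact h1.clm_apply continuous_const

private theorem lim_bv {q : ℕ} (i : Fin (q + 5)) : ‖bv i‖ = 1 := by
  unfold bv
  simp

private theorem lim_pd_le {q : ℕ} (i : Fin (q + 5)) (χ : (E q) → ℝ) (x : (E q)) :
    |pd i χ x| ≤ ‖fderiv ℝ χ x‖ := by
  have h1 := (fderiv ℝ χ x).le_opNorm (bv i)
  rw [lim_bv, mul_one] at h1
  exact h1

private theorem lim_loc {q : ℕ} (U : Set (E q)) (u : (E q) → ℝ)
    (hu : AEStronglyMeasurable u (volume.restrict U)) (M : ℝ) (hM : ∀ x, |u x| ≤ M) :
    LocallyIntegrableOn u U := by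
  intro x hx
  refine ⟨U ∩ Metric.ball x 1, inter_mem_nhdsWithin U (Metric.ball_mem_nhds x one_pos), ?_⟩
  refine IntegrableOn.of_bound ?_ ?_ M ?_
  · exact lt_of_le_of_lt (measure_mono inter_subset_right) measure_ball_lt_top
  · exact hu.mono_measure (Measure.restrict_mono inter_subset_left le_rfl)
  · exact Eventually.of_forall hM

/-- `S = K ∩ tsupport ψ = tsupport ψ \ (U \ K)` is compact and `μH[4] S = 0`. The function `h = u * (∑ V i * pd i ψ) + ψ * w` is integrable (rows vl0, msr, itg; `u` bounded). For `ε > 0` take `χ` from row cut with a small `δ` in place of `ε`; by row dvb `∫ h = ∫ h (1 - χ) - ∫ u ψ (∑ V i * pd i χ)`. The first integral is at most the integral of `|h|` over `{χ ≠ 1}`, small for small `δ` by absolute continuity (`exists_pos_setLIntegral_lt_of_measure_lt`), the second at most `M * sup |ψ| * ∑ sup |V i| * δ` with suprema over `tsupport ψ` (`|pd i χ x| ≤ ‖fderiv ℝ χ x‖`). -/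
theorem weak_bounded {q : ℕ} (U K : Set (E q)) (hU : IsOpen U) (hK : IsOpen (U \ K)) (h0 : μH[(q : ℝ) + 4] K = 0)
    (u w : (E q) → ℝ) (hu : ContDiffOn ℝ 1 u (U \ K)) (M : ℝ) (hM : ∀ x, |u x| ≤ M)
    (V : Fin (q + 5) → (E q) → ℝ) (hV : ∀ i, ContDiffOn ℝ 1 (V i) U)
    (hw : ∀ x ∈ U \ K, ∑ i, pd i (fun y => u y * V i y) x = w x)
    (hwi : LocallyIntegrableOn w U) (ψ : (E q) → ℝ) (hψ : IsTestF U ψ) :
    ∫ x, (u x * (∑ i, V i x * pd i ψ x) + ψ x * w x) = 0 := by
  obtain ⟨hψ1, hψ2, hψ3⟩ := hψ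
  have hM0 : 0 ≤ M := le_trans (abs_nonneg _) (hM 0)
  have hT : IsCompact (tsupport ψ) := hψ2
  have hS : IsCompact (K ∩ tsupport ψ) := by
    have e1 : K ∩ tsupport ψ = tsupport ψ \ (U \ K) := by
      ext x
      constructor
      · rintro ⟨h1, h2⟩
        exact ⟨h2, fun h3 => h3.2 h1⟩
      · rintro ⟨h1, h2⟩
        refine ⟨?_, h1⟩
        by_contra h3
        exact h2 ⟨hψ3 h1, h3⟩
    rw [e1]
    exact hT.diff hK
  have hS0 : μH[(q : ℝ) + 4] (K ∩ tsupport ψ) = 0 := measure_mono_null inter_subset_left h0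
  have hum : AEStronglyMeasurable u (volume.restrict U) :=
    meas_of_cont U K hK (vol_zero K h0) u hu.continuousOn
  have hul : LocallyIntegrableOn u U := lim_loc U u hum M hM
  have hVc : ∀ i, ContinuousOn (V i) U := fun i => (hV i).continuousOn
  have hψc : Continuous ψ := hψ1.continuous
  have hi1 : Integrable (fun x => u x * (∑ i, V i x * pd i ψ x)) := by
    refine integrable_test U u hul _ ?_ (tsupport ψ) hT hψ3 ?_
    · refine continuousOn_finsetSum _ fun i _ => ?_
      exact (hVc i).mul (lim_pd_cont i ψ hψ1).continuousOn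
    · intro x hx
      refine Finset.sum_eq_zero fun i _ => ?_
      rw [lim_pd_zero i ψ x hx, mul_zero]
  have hi2 : Integrable (fun x => ψ x * w x) := by
    have h1 := integrable_test U w hwi ψ hψc.continuousOn (tsupport ψ) hT hψ3
      (fun x hx => image_eq_zero_of_notMem_tsupport hx)
    refine h1.congr (Eventually.of_forall fun x => ?_)
    exact mul_comm _ _
  have hih : Integrable (fun x => u x * (∑ i, V i x * pd i ψ x) + ψ x * w x) := hi1.add hi2
  obtain ⟨B, hB⟩ := hT.exists_bound_of_continuousOn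
    (f := fun x => ψ x * ∑ i, |V i x|)
    (hψc.continuousOn.mul (continuousOn_finsetSum _ fun i _ =>
      ((hVc i).mono hψ3).abs))
  have hB' : ∀ x ∈ tsupport ψ, |ψ x| * ∑ i, |V i x| ≤ |B| := by
    intro x hx
    have h1 := hB x hx
    rw [Real.norm_eq_abs, abs_mul, abs_of_nonneg (a := ∑ i, |V i x|)
      (Finset.sum_nonneg fun i _ => abs_nonneg _)] at h1
    exact le_trans h1 (le_abs_self _)
  set h : (E q) → ℝ := fun x => u x * (∑ i, V i x * pd i ψ x) + ψ x * w x with hh
  change ∫ x, h x = 0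
  have key : ∀ ε : ℝ, 0 < ε → |∫ x, h x| ≤ ε := by
    intro ε hε
    have hfin : ∫⁻ x, ‖h x‖ₑ ≠ ⊤ := hih.2.ne
    obtain ⟨δ, hδ, hδ2⟩ := exists_pos_setLIntegral_lt_of_measure_lt hfin
      (ε := ENNReal.ofReal (ε / 2)) (by
        have : 0 < ENNReal.ofReal (ε / 2) := ENNReal.ofReal_pos.mpr (by linarith)
        exact this.ne')
    obtain ⟨δ', hδ'0, hδ'⟩ : ∃ δ' : ℝ, 0 < δ' ∧ ENNReal.ofReal δ' < δ := by
      by_cases hd : δ = ⊤
      · refine ⟨1, one_pos, ?_⟩
        rw [hd]
        exact ENNReal.ofReal_lt_top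
      · have hdr : 0 < δ.toReal := ENNReal.toReal_pos hδ.ne' hd
        refine ⟨δ.toReal / 2, by linarith, ?_⟩
        rw [ENNReal.ofReal_lt_iff_lt_toReal (by linarith) hd]
        linarith
    have hD : 0 < ε / (2 * (M * |B| + 1)) := by
      have : 0 < M * |B| + 1 := by positivity
      positivity
    obtain ⟨χ, hχ1, hχ2, ⟨O, hO1, hO2, hO3⟩, hχ4, hχ5, hχ6⟩ :=
      exists_cutoff (K ∩ tsupport ψ) hS hS0 (min δ' (ε / (2 * (M * |B| + 1))))
        (lt_min hδ'0 hD)
    have hib := ibp_cut U K O hU hK hO1 u ψ χ w hu V hV ⟨hψ1, hψ2, hψ3⟩ hχ1 hO2 hO3 hw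
    have hχc : Continuous χ := hχ1.continuous
    have hi3 : Integrable (fun x => h x * χ x) := by
      refine hih.mul_bdd (c := 1) hχc.aestronglyMeasurable (Eventually.of_forall fun x => ?_)
      rw [Real.norm_eq_abs, abs_of_nonneg (hχ2 x).1]
      exact (hχ2 x).2
    have hi4 : Integrable (fun x => u x * (ψ x * (∑ i, V i x * pd i χ x))) := by
      refine integrable_test U u hul _ ?_ (tsupport ψ) hT hψ3 ?_
      · refine hψc.continuousOn.mul (continuousOn_finsetSum _ fun i _ => ?_)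
        exact (hVc i).mul (lim_pd_cont i χ hχ1).continuousOn
      · intro x hx
        rw [image_eq_zero_of_notMem_tsupport hx, zero_mul]
    have hi5 : Integrable (fun x => h x * (1 - χ x)) := by
      have h1 := hih.sub hi3
      refine h1.congr (Eventually.of_forall fun x => ?_)
      simp only [Pi.sub_apply]
      ring
    have e1 : ∫ x, h x = (∫ x, h x * (1 - χ x)) - ∫ x, u x * (ψ x * (∑ i, V i x * pd i χ x)) := by
      have e2 : (∫ x, h x * χ x) + ∫ x, u x * (ψ x * (∑ i, V i x * pd i χ x)) = 0 := by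
        rw [← integral_add hi3 hi4, ← hib]
        refine integral_congr_ae (Eventually.of_forall fun x => ?_)
        simp only [hh]
        ring
      have e3 : (∫ x, h x * (1 - χ x)) + (∫ x, h x * χ x) = ∫ x, h x := by
        rw [← integral_add hi5 hi3]
        refine integral_congr_ae (Eventually.of_forall fun x => ?_)
        simp only
        ring
      linarith
    have b1 : |∫ x, h x * (1 - χ x)| ≤ ε / 2 := by
      have hms : MeasurableSet {x | χ x ≠ 1} :=
        (isOpen_ne_fun hχc continuous_const).measurableSet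
      have c1 : ‖∫ x, h x * (1 - χ x)‖ₑ ≤ ∫⁻ x, ‖h x * (1 - χ x)‖ₑ :=
        enorm_integral_le_lintegral_enorm _
      have c2 : ∫⁻ x, ‖h x * (1 - χ x)‖ₑ ≤ ∫⁻ x in {x | χ x ≠ 1}, ‖h x‖ₑ := by
        rw [← lintegral_indicator hms]
        refine lintegral_mono fun x => ?_
        by_cases hx : χ x = 1
        · simp [hx]
        · rw [indicator_of_mem (show x ∈ {x | χ x ≠ 1} from hx)]
          rw [enorm_mul]
          refine mul_le_of_le_one_right' ?_
          rw [Real.enorm_eq_ofReal_abs, abs_of_nonneg (by linarith [(hχ2 x).2])]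
          refine le_trans (ENNReal.ofReal_le_ofReal (show 1 - χ x ≤ 1 by linarith [(hχ2 x).1])) ?_
          simp
      have c3 : volume {x | χ x ≠ 1} < δ := by
        refine lt_of_le_of_lt hχ6 (lt_of_le_of_lt ?_ hδ')
        exact ENNReal.ofReal_le_ofReal (min_le_left _ _)
      have c4 := lt_of_le_of_lt (le_trans c1 c2) (hδ2 _ c3)
      rw [Real.enorm_eq_ofReal_abs] at c4
      exact (ENNReal.ofReal_lt_ofReal_iff (by linarith)).mp c4 |>.le
    have b2 : |∫ x, u x * (ψ x * (∑ i, V i x * pd i χ x))| ≤ ε / 2 := by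
      have c1 : |∫ x, u x * (ψ x * (∑ i, V i x * pd i χ x))| ≤
          ∫ x, (M * |B|) * ‖fderiv ℝ χ x‖ := by
        rw [← Real.norm_eq_abs]
        refine norm_integral_le_of_norm_le (hχ4.const_mul _) (Eventually.of_forall fun x => ?_)
        by_cases hx : x ∈ tsupport ψ
        · rw [Real.norm_eq_abs, abs_mul, abs_mul]
          have d1 : |∑ i, V i x * pd i χ x| ≤ (∑ i, |V i x|) * ‖fderiv ℝ χ x‖ := by
            refine le_trans (Finset.abs_sum_le_sum_abs _ _) ?_
            rw [Finset.sum_mul]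
            refine Finset.sum_le_sum fun i _ => ?_
            rw [abs_mul]
            exact mul_le_mul_of_nonneg_left (lim_pd_le i χ x) (abs_nonneg _)
          calc |u x| * (|ψ x| * |∑ i, V i x * pd i χ x|)
              ≤ M * (|ψ x| * ((∑ i, |V i x|) * ‖fderiv ℝ χ x‖)) :=
                mul_le_mul (hM x) (mul_le_mul_of_nonneg_left d1 (abs_nonneg _))
                  (by positivity) hM0
            _ = M * ((|ψ x| * ∑ i, |V i x|) * ‖fderiv ℝ χ x‖) := by ring
            _ ≤ M * (|B| * ‖fderiv ℝ χ x‖) :=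
                mul_le_mul_of_nonneg_left
                  (mul_le_mul_of_nonneg_right (hB' x hx) (norm_nonneg _)) hM0
            _ = (M * |B|) * ‖fderiv ℝ χ x‖ := by ring
        · rw [image_eq_zero_of_notMem_tsupport hx, zero_mul, mul_zero, norm_zero]
          positivity
      rw [integral_const_mul] at c1
      refine le_trans c1 ?_
      have d2 : ∫ x, ‖fderiv ℝ χ x‖ ≤ ε / (2 * (M * |B| + 1)) := le_trans hχ5 (min_le_right _ _)
      have d3 : 0 ≤ M * |B| := by positivity
      calc (M * |B|) * ∫ x, ‖fderiv ℝ χ x‖ ≤ (M * |B|) * (ε / (2 * (M * |B| + 1))) :=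
            mul_le_mul_of_nonneg_left d2 d3
        _ ≤ (M * |B| + 1) * (ε / (2 * (M * |B| + 1))) :=
            mul_le_mul_of_nonneg_right (by linarith) hD.le
        _ = ε / 2 := by
            field_simp
    rw [e1]
    have t1 := abs_sub (∫ x, h x * (1 - χ x)) (∫ x, u x * (ψ x * (∑ i, V i x * pd i χ x)))
    linarith
  have h5 : |∫ x, h x| ≤ 0 := le_of_forall_pos_le_add fun ε hε => by
    have := key ε hε
    linarith
  exact abs_eq_zero.mp (le_antisymm h5 (abs_nonneg _))
-- END lim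

-- BEGIN arl
private theorem arl_abs (t : ℝ) : |Real.arctan t| ≤ |t| := by
  have key : ∀ s : ℝ, 0 ≤ s → Real.arctan s ≤ s := by
    intro s hs
    have h0 : 0 ≤ Real.arctan s := by
      rw [← Real.arctan_zero]
      exact Real.arctan_strictMono.monotone hs
    have h1 := Real.le_tan h0 (Real.arctan_lt_pi_div_two s)
    rwa [Real.tan_arctan] at h1
  rcases le_total 0 t with h | h
  · have h0 : 0 ≤ Real.arctan t := by
      rw [← Real.arctan_zero]
      exact Real.arctan_strictMono.monotone h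
    rw [abs_of_nonneg h0, abs_of_nonneg h]
    exact key t h
  · have h0 : 0 ≤ Real.arctan (-t) := by
      rw [← Real.arctan_zero]
      exact Real.arctan_strictMono.monotone (by linarith)
    have h1 := key (-t) (by linarith)
    rw [← abs_neg t, ← abs_neg (Real.arctan t), ← Real.arctan_neg, abs_of_nonneg h0,
      abs_of_nonneg (by linarith : 0 ≤ -t)]
    exact h1

/-- Elementary: `|arctan t| ≤ |t|`, `|N arctan (q / N)| ≤ 2 N`, and `N arctan (q / N) → q`, `q / (1 + (q / N) ^ 2) → q` as `N → ∞` (derivative of `arctan` at `0` is `1`). -/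
theorem arctan_facts (q : ℝ) :
    (∀ N : ℝ, 0 < N → |N * Real.arctan (q / N)| ≤ |q| ∧ |N * Real.arctan (q / N)| ≤ 2 * N ∧
      |q / (1 + (q / N) ^ 2)| ≤ |q|) ∧
    Tendsto (fun k : ℕ => ((k : ℝ) + 1) * Real.arctan (q / ((k : ℝ) + 1))) atTop (𝓝 q) ∧
    Tendsto (fun k : ℕ => q / (1 + (q / ((k : ℝ) + 1)) ^ 2)) atTop (𝓝 q) := by
  have hinv : Tendsto (fun k : ℕ => ((k : ℝ) + 1)⁻¹) atTop (𝓝 0) := by
    have h := tendsto_one_div_add_atTop_nhds_zero_nat (𝕜 := ℝ)
    simpa only [one_div] using h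
  refine ⟨?_, ?_, ?_⟩
  · intro N hN
    refine ⟨?_, ?_, ?_⟩
    · rw [abs_mul, abs_of_pos hN]
      calc N * |Real.arctan (q / N)| ≤ N * |q / N| := mul_le_mul_of_nonneg_left (arl_abs _) hN.le
        _ = |q| := by
          rw [abs_div, abs_of_pos hN]
          field_simp
    · rw [abs_mul, abs_of_pos hN, mul_comm]
      apply mul_le_mul_of_nonneg_right _ hN.le
      rw [abs_le]
      have h1 := Real.arctan_lt_pi_div_two (q / N)
      have h2 := Real.neg_pi_div_two_lt_arctan (q / N)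
      have h3 := Real.pi_lt_four
      constructor <;> linarith
    · rw [abs_div]
      have h1 : (1 : ℝ) ≤ |1 + (q / N) ^ 2| := by
        rw [abs_of_pos (by positivity)]
        have := sq_nonneg (q / N)
        linarith
      exact div_le_self (abs_nonneg _) h1
  · have hd : HasDerivAt (fun x : ℝ => Real.arctan (q * x)) q 0 := by
      have h1 : HasDerivAt (fun x : ℝ => q * x) q 0 := by
        simpa using (hasDerivAt_id (0 : ℝ)).const_mul q
      have h2 := h1.arctan
      simpa using h2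
    have h3 := hd.tendsto_slope_zero
    have h4 : Tendsto (fun k : ℕ => ((k : ℝ) + 1)⁻¹) atTop (𝓝[≠] 0) := by
      refine tendsto_nhdsWithin_iff.2 ⟨hinv, Filter.Eventually.of_forall fun k => ?_⟩
      have : (0 : ℝ) < (k : ℝ) + 1 := by positivity
      exact (inv_pos.2 this).ne'
    have h5 := h3.comp h4
    refine h5.congr fun k => ?_
    simp [div_eq_mul_inv]
  · have h1 : Tendsto (fun k : ℕ => q / ((k : ℝ) + 1)) atTop (𝓝 0) := by
      have := hinv.const_mul q
      simpa only [mul_zero, div_eq_mul_inv] using this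
    have h2 : Tendsto (fun k : ℕ => 1 + (q / ((k : ℝ) + 1)) ^ 2) atTop (𝓝 1) := by
      have := (h1.pow 2).const_add 1
      simpa using this
    have h3 := (tendsto_const_nhds (x := q)).div h2 one_ne_zero
    rw [div_one] at h3
    exact h3
-- END arl

-- BEGIN arw
/-- Product rule and chain rule (`HasDerivAt.arctan`): `pd i u = pd i Q / (1 + (Q / N) ^ 2)` for `u = N arctan (Q / N)`, so `∑ pd i (u V i) = (1 + (Q/N)^2)⁻¹ ∑ pd i Q * V i + u ∑ pd i (V i)`, and `∑ pd i Q * V i = -Q ∑ pd i (V i)` by the hypothesis. -/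
theorem arctan_div {q : ℕ} (Q : (E q) → ℝ) (V : Fin (q + 5) → (E q) → ℝ) (x : (E q)) (hQ : DifferentiableAt ℝ Q x)
    (hV : ∀ i, DifferentiableAt ℝ (V i) x) (N : ℝ) (hN : 0 < N)
    (hdiv : ∑ i, pd i (fun y => Q y * V i y) x = 0) :
    ∑ i, pd i (fun y => (N * Real.arctan (Q y / N)) * V i y) x =
      (N * Real.arctan (Q x / N) - Q x / (1 + (Q x / N) ^ 2)) * ∑ i, pd i (V i) x := by
  have hN0 : N ≠ 0 := hN.ne'
  have hpos : (1 + (Q x / N) ^ 2) ≠ 0 := by positivity
  have h1 : ∀ i, pd i (fun y => Q y * V i y) x = Q x * pd i (V i) x + V i x * pd i Q x := by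
    intro i
    have h := (hQ.hasFDerivAt.mul (hV i).hasFDerivAt).fderiv
    have h' : fderiv ℝ (fun y => Q y * V i y) x
        = Q x • fderiv ℝ (V i) x + V i x • fderiv ℝ Q x := h
    unfold pd
    rw [h']
    simp [smul_eq_mul]
  have ha : HasFDerivAt (fun y => N * Real.arctan (Q y / N))
      ((1 / (1 + (Q x / N) ^ 2)) • fderiv ℝ Q x) x := by
    have h2 : HasDerivAt (fun t : ℝ => N * Real.arctan (t / N)) (1 / (1 + (Q x / N) ^ 2)) (Q x) := by
      have h3 := (((hasDerivAt_id (Q x)).div_const N).arctan).const_mul N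
      refine h3.congr_deriv ?_
      simp only [id_eq]
      field_simp
    exact h2.comp_hasFDerivAt x hQ.hasFDerivAt
  have h2 : ∀ i, pd i (fun y => (N * Real.arctan (Q y / N)) * V i y) x =
      (N * Real.arctan (Q x / N)) * pd i (V i) x +
        V i x * ((1 / (1 + (Q x / N) ^ 2)) * pd i Q x) := by
    intro i
    have h := (ha.mul (hV i).hasFDerivAt).fderiv
    have h' : fderiv ℝ (fun y => (N * Real.arctan (Q y / N)) * V i y) x
        = (N * Real.arctan (Q x / N)) • fderiv ℝ (V i) x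
          + V i x • ((1 / (1 + (Q x / N) ^ 2)) • fderiv ℝ Q x) := h
    unfold pd
    rw [h']
    simp [smul_eq_mul]
  have h3 : ∑ i, V i x * pd i Q x = -(Q x * ∑ i, pd i (V i) x) := by
    have h4 : ∑ i, (Q x * pd i (V i) x + V i x * pd i Q x) = 0 := by
      rw [← hdiv]
      exact Finset.sum_congr rfl fun i _ => (h1 i).symm
    rw [Finset.sum_add_distrib, ← Finset.mul_sum] at h4
    linarith
  have h5 : ∑ i, V i x * ((1 / (1 + (Q x / N) ^ 2)) * pd i Q x)
      = (1 / (1 + (Q x / N) ^ 2)) * ∑ i, V i x * pd i Q x := by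
    rw [Finset.mul_sum]
    exact Finset.sum_congr rfl fun i _ => by ring
  rw [Finset.sum_congr rfl fun i _ => h2 i, Finset.sum_add_distrib, ← Finset.mul_sum, h5, h3]
  ring
-- END arw

-- BEGIN arc
private theorem arc_li {q : ℕ} (U K : Set (E q)) (hK : IsOpen (U \ K)) (hv : volume K = 0)
    (f u : (E q) → ℝ) (hf : LocallyIntegrableOn f U) (hu : ContinuousOn u (U \ K))
    (h : ∀ x, |u x| ≤ |f x|) : LocallyIntegrableOn u U := by
  intro x hx
  obtain ⟨t, ht, hft⟩ := hf x hx
  refine ⟨t ∩ U, inter_mem ht self_mem_nhdsWithin, ?_⟩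
  have hft' : IntegrableOn f (t ∩ U) := hft.mono_set inter_subset_left
  have hm : AEStronglyMeasurable u (volume.restrict (t ∩ U)) :=
    (meas_of_cont U K hK hv u hu).mono_measure (Measure.restrict_mono_set _ inter_subset_right)
  exact Integrable.mono hft' hm (Eventually.of_forall fun y => h y)

private theorem arc_pd {q : ℕ} (i : Fin (q + 5)) (ψ : (E q) → ℝ) (hψ : ContDiff ℝ ∞ ψ) : Continuous (pd i ψ) := by
  have h := hψ.continuous_fderiv (by simp)
  exact h.clm_apply continuous_const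

private theorem arc_pdU {q : ℕ} (U : Set (E q)) (hU : IsOpen U) (i : Fin (q + 5)) (f : (E q) → ℝ)
    (hf : ContDiffOn ℝ 1 f U) : ContinuousOn (pd i f) U := by
  have h := hf.continuousOn_fderiv_of_isOpen hU le_rfl
  exact h.clm_apply continuousOn_const

/-- Row lim for `u = N arctan (Q / N)`, `M = 2 N`, `w = (u - Q / (1 + (Q / N) ^ 2)) * ∑ pd i (V i)` (rows arl, arw; `w` is locally integrable on `U`: measurable by rows vl0, msr and bounded by `2 |Q| |∑ pd i (V i)|`, a locally integrable function times a continuous one), `N = k + 1`, and `k → ∞` by dominated convergence with the bound `|Q| |∑ V i * pd i ψ| + 2 |Q| |ψ| |∑ pd i (V i)|` (integrable by row itg, `S = tsupport ψ`). The limit of the integrands is `Q * ∑ V i * pd i ψ`. -/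
theorem removable {q : ℕ} (U K : Set (E q)) (hU : IsOpen U) (hK : IsOpen (U \ K)) (h0 : μH[(q : ℝ) + 4] K = 0)
    (Q : (E q) → ℝ) (hQ : ContDiffOn ℝ 1 Q (U \ K)) (hQi : LocallyIntegrableOn Q U)
    (V : Fin (q + 5) → (E q) → ℝ) (hV : ∀ i, ContDiffOn ℝ 1 (V i) U)
    (hdiv : ∀ x ∈ U \ K, ∑ i, pd i (fun y => Q y * V i y) x = 0)
    (ψ : (E q) → ℝ) (hψ : IsTestF U ψ) :
    ∫ x, Q x * (∑ i, V i x * pd i ψ x) = 0 := by
  have hv := vol_zero K h0
  have hQc : ContinuousOn Q (U \ K) := hQ.continuousOn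
  have hDc : ContinuousOn (fun x => ∑ i, pd i (V i) x) U :=
    continuousOn_finsetSum _ fun i _ => arc_pdU U hU i (V i) (hV i)
  have hAc : ContinuousOn (fun x => ∑ i, V i x * pd i ψ x) U :=
    continuousOn_finsetSum _ fun i _ => (hV i).continuousOn.mul (arc_pd i ψ hψ.1).continuousOn
  have hA0 : ∀ x, x ∉ tsupport ψ → ∑ i, V i x * pd i ψ x = 0 := by
    intro x hx
    refine Finset.sum_eq_zero fun i _ => ?_
    have : pd i ψ x = 0 := by
      show fderiv ℝ ψ x (bv i) = 0
      rw [fderiv_of_notMem_tsupport (𝕜 := ℝ) hx]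
      rfl
    rw [this, mul_zero]
  have hψ0 : ∀ x, x ∉ tsupport ψ → ψ x = 0 := fun x hx => image_eq_zero_of_notMem_tsupport hx
  have hS : IsCompact (tsupport ψ) := hψ.2.1
  set D : (E q) → ℝ := fun x => ∑ i, pd i (V i) x with hD
  set A : (E q) → ℝ := fun x => ∑ i, V i x * pd i ψ x with hA
  let u : ℝ → (E q) → ℝ := fun N x => N * Real.arctan (Q x / N)
  let v : ℝ → (E q) → ℝ := fun N x => Q x / (1 + (Q x / N) ^ 2)
  let w : ℝ → (E q) → ℝ := fun N x => (u N x - v N x) * D x
  have hu1 : ∀ N, ContDiffOn ℝ 1 (u N) (U \ K) := fun N =>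
    contDiffOn_const.mul (Real.contDiff_arctan.comp_contDiffOn (hQ.div_const N))
  have hvc : ∀ N, ContinuousOn (v N) (U \ K) := fun N =>
    hQc.div (continuousOn_const.add ((hQc.div_const N).pow 2)) fun x _ => by positivity
  have hub : ∀ N : ℝ, 0 < N → ∀ x, |u N x| ≤ |Q x| := fun N hN x => ((arctan_facts (Q x)).1 N hN).1
  have hvb : ∀ N : ℝ, 0 < N → ∀ x, |v N x| ≤ |Q x| := fun N hN x => ((arctan_facts (Q x)).1 N hN).2.2
  have huM : ∀ N : ℝ, 0 < N → ∀ x, |u N x| ≤ 2 * N := fun N hN x => ((arctan_facts (Q x)).1 N hN).2.1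
  have huv : ∀ N : ℝ, 0 < N → ∀ x, |u N x - v N x| ≤ 2 * |Q x| := by
    intro N hN x
    calc |u N x - v N x| ≤ |u N x| + |v N x| := abs_sub _ _
      _ ≤ 2 * |Q x| := by linarith [hub N hN x, hvb N hN x]
  have hwb : ∀ N : ℝ, 0 < N → ∀ x, |w N x| ≤ |2 * (Q x * D x)| := by
    intro N hN x
    show |(u N x - v N x) * D x| ≤ _
    rw [abs_mul, abs_mul, abs_mul, abs_two, ← mul_assoc]
    exact mul_le_mul_of_nonneg_right (huv N hN x) (abs_nonneg _)
  have hwc : ∀ N, ContinuousOn (w N) (U \ K) := fun N =>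
    ((hu1 N).continuousOn.sub (hvc N)).mul (hDc.mono sdiff_subset)
  have hQD : LocallyIntegrableOn (fun x => 2 * (Q x * D x)) U := by
    have h1 := hQi.mul_continuousOn hDc hU.isLocallyClosed
    exact h1.continuousOn_mul continuousOn_const hU.isLocallyClosed
  have hwi : ∀ N : ℝ, 0 < N → LocallyIntegrableOn (w N) U := fun N hN =>
    arc_li U K hK hv _ _ hQD (hwc N) (hwb N hN)
  have hui : ∀ N : ℝ, 0 < N → LocallyIntegrableOn (u N) U := fun N hN =>
    arc_li U K hK hv _ _ hQi (hu1 N).continuousOn (hub N hN)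
  have hzero : ∀ N : ℝ, 0 < N → ∫ x, (u N x * A x + ψ x * w N x) = 0 := by
    intro N hN
    refine weak_bounded U K hU hK h0 (u N) (w N) (hu1 N) (2 * N) (huM N hN) V hV ?_ (hwi N hN) ψ hψ
    intro x hx
    refine arctan_div Q V x ?_ ?_ N hN (hdiv x hx)
    · exact (hQ.contDiffAt (hK.mem_nhds hx)).differentiableAt one_ne_zero
    · intro i
      exact ((hV i).contDiffAt (hU.mem_nhds hx.1)).differentiableAt one_ne_zero
  have hNk : ∀ k : ℕ, (0 : ℝ) < (k : ℝ) + 1 := fun k => by positivity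
  have hQA : Integrable (fun x => Q x * A x) :=
    integrable_test U Q hQi A hAc (tsupport ψ) hS hψ.2.2 hA0
  have hQψD : Integrable (fun x => Q x * (ψ x * D x)) :=
    integrable_test U Q hQi (fun x => ψ x * D x) (hψ.1.continuous.continuousOn.mul hDc) (tsupport ψ)
      hS hψ.2.2 fun x hx => by
        show ψ x * D x = 0
        rw [hψ0 x hx, zero_mul]
  have hF : ∀ k : ℕ, Integrable (fun x => u ((k : ℝ) + 1) x * A x + ψ x * w ((k : ℝ) + 1) x) := by
    intro k
    have h1 := integrable_test U _ (hui _ (hNk k)) A hAc (tsupport ψ) hS hψ.2.2 hA0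
    have h2 := integrable_test U _ (hwi _ (hNk k)) ψ hψ.1.continuous.continuousOn (tsupport ψ) hS
      hψ.2.2 hψ0
    refine h1.add ?_
    refine h2.congr (Eventually.of_forall fun x => ?_)
    show w _ x * ψ x = ψ x * w _ x
    ring
  have hlim : Tendsto (fun k : ℕ => ∫ x, (u ((k : ℝ) + 1) x * A x + ψ x * w ((k : ℝ) + 1) x)) atTop
      (𝓝 (∫ x, Q x * A x)) := by
    refine tendsto_integral_of_dominated_convergence
      (fun x => |Q x * A x| + 2 * |Q x * (ψ x * D x)|) (fun k => (hF k).aestronglyMeasurable)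
      (hQA.abs.add (hQψD.abs.const_mul 2)) ?_ ?_
    · intro k
      refine Eventually.of_forall fun x => ?_
      rw [Real.norm_eq_abs]
      calc |u ((k : ℝ) + 1) x * A x + ψ x * w ((k : ℝ) + 1) x|
          ≤ |u ((k : ℝ) + 1) x * A x| + |ψ x * w ((k : ℝ) + 1) x| := abs_add_le _ _
        _ ≤ |Q x * A x| + 2 * |Q x * (ψ x * D x)| := by
          refine add_le_add ?_ ?_
          · calc |u ((k : ℝ) + 1) x * A x| = |u ((k : ℝ) + 1) x| * |A x| := abs_mul _ _
              _ ≤ |Q x| * |A x| := mul_le_mul_of_nonneg_right (hub _ (hNk k) x) (abs_nonneg _)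
              _ = |Q x * A x| := (abs_mul _ _).symm
          · calc |ψ x * w ((k : ℝ) + 1) x| = |ψ x| * |w ((k : ℝ) + 1) x| := abs_mul _ _
              _ ≤ |ψ x| * |2 * (Q x * D x)| :=
                mul_le_mul_of_nonneg_left (hwb _ (hNk k) x) (abs_nonneg _)
              _ = 2 * |Q x * (ψ x * D x)| := by
                rw [abs_mul, abs_mul, abs_mul, abs_mul, abs_two]
                ring
    · refine Eventually.of_forall fun x => ?_
      have h1 := (arctan_facts (Q x)).2.1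
      have h2 := (arctan_facts (Q x)).2.2
      have h3 : Tendsto (fun k : ℕ => u ((k : ℝ) + 1) x * A x + ψ x * w ((k : ℝ) + 1) x) atTop
          (𝓝 (Q x * A x + ψ x * ((Q x - Q x) * D x))) :=
        (h1.mul_const (A x)).add (((h1.sub h2).mul_const (D x)).const_mul (ψ x))
      rwa [sub_self, zero_mul, mul_zero, add_zero] at h3
  have hconst : Tendsto (fun k : ℕ => ∫ x, (u ((k : ℝ) + 1) x * A x + ψ x * w ((k : ℝ) + 1) x)) atTop
      (𝓝 0) := by
    refine tendsto_const_nhds.congr fun k => ?_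
    exact (hzero _ (hNk k)).symm
  exact tendsto_nhds_unique hlim hconst
-- END arc

end Pool.Agent.Oad
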