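import Pool.Agent.Oad.Defs

set_option autoImplicit false

namespace Pool.Agent.Oad

open MeasureTheory Set Matrix
open scoped ContDiff

/-- every 1-form is decomposable -/
theorem decomposable_of_zero {q : ℕ} (h : q = 0) (U : Set (E q)) (Ω : E q → Form q (q + 1)) :
    IsDecomposable U Ω := by
  subst h
  intro x _
  let L : Form 0 1 := Ω x
  refine ⟨fun _ => (ContinuousAlternatingMap.ofSubsingleton ℝ (E 0) ℝ (0 : Fin 1)).symm L,
    fun v => ?_⟩
  have h1 : (ContinuousAlternatingMap.ofSubsingleton ℝ (E 0) ℝ (0 : Fin 1))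
      ((ContinuousAlternatingMap.ofSubsingleton ℝ (E 0) ℝ (0 : Fin 1)).symm L) = L :=
    Equiv.apply_symm_apply _ _
  have h2 : (Matrix.of fun (_ : Fin 1) (s : Fin 1) =>
      ((ContinuousAlternatingMap.ofSubsingleton ℝ (E 0) ℝ (0 : Fin 1)).symm L) (v s)).det =
      ((ContinuousAlternatingMap.ofSubsingleton ℝ (E 0) ℝ (0 : Fin 1)).symm L) (v 0) :=
    Matrix.det_unique _
  have h3 : L v = ((ContinuousAlternatingMap.ofSubsingleton ℝ (E 0) ℝ (0 : Fin 1)).symm L) (v 0) := by
    conv_lhs => rw [← h1]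
    rfl
  exact h3.trans h2.symm

end Pool.Agent.Oad
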