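import Pool.Agent.Oad.Fin
import Pool.Agent.Oad.Dec

/-!
The boundary of the bubbling current of `Ω`-anti-self-dual `SU(n)`-connections is zero in dimension
`5` for every 1-form `Ω`, and in every dimension `m = q + 5` if the `(m - 4)`-form `Ω` is
decomposable at every point. Since `∂C = 0` is a local statement, it is enough to work on a
coordinate patch `U ⊆ ℝ^m` of the manifold; the metric is given by a smooth oriented orthonormal
frame `e`.
-/

set_option autoImplicit false

namespace Pool.Agent.Oad.Decomposable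

open MeasureTheory Set Matrix Filter Topology Pool.Agent.Oad
open scoped ContDiff

theorem decomposable_case {n q : ℕ} (U K : Set (E q)) (hU : IsOpen U) (hK : IsOpen (U \ K))
    (h0 : μH[(q : ℝ) + 4] K = 0) (e : Fin (q + 5) → E q → E q) (he : IsFrame U e)
    (Ω : E q → Form q (q + 1)) (hΩ : ContDiffOn ℝ ∞ Ω U) (hD : q = 0 ∨ IsDecomposable U Ω)
    (F : ℕ → E q → Fin (q + 5) → Fin (q + 5) → Mat n) (hF : ∀ k, IsCurvature U (F k))
    (hFe : ∀ k, ∀ x ∈ U, IsASD e Ω (F k) x)
    (G : E q → Fin (q + 5) → Fin (q + 5) → Mat n) (hG : IsCurvature (U \ K) G)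
    (hGe : ∀ x ∈ U \ K, IsASD e Ω G x) (hGi : LocallyIntegrableOn (nsq G) U)
    (C : (E q → Form q (q + 1)) → ℝ)
    (hC : ∀ φ : E q → Form q (q + 1), IsTest U φ →
      Tendsto (fun k => ∫ x, cw (F k) φ x) atTop
        (𝓝 ((∫ x, cw G φ x) + 8 * Real.pi ^ 2 * C φ)))
    (ψ : E q → Form q q) (hψ : IsTest U ψ) :
    C (extDeriv ψ) = 0 ∧ ∫ x, cw G (extDeriv ψ) x = 0 :=
  main_thm U K hU hK h0 e he Ω hΩ (hD.elim (fun h => decomposable_of_zero h U Ω) id)
    F hF hFe G hG hGe hGi C hC ψ hψ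

end Pool.Agent.Oad.Decomposable
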