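import Mathlib

/-!
Omega-anti-self-dual `SU(n)`-connections over open subsets of `ℝ^m`, `m = q + 5` (definitions)
-/

set_option autoImplicit false

namespace Pool.Agent.Oad

open MeasureTheory Set Matrix
open scoped ContDiff

/-- `ℝ^m`, `m = q + 5` -/
abbrev E (q : ℕ) : Type := EuclideanSpace ℝ (Fin (q + 5))

/-- alternating `k`-forms on `ℝ^m` -/
abbrev Form (q k : ℕ) : Type := E q [⋀^Fin k]→L[ℝ] ℝ

/-- complex `n × n` matrices -/
abbrev Mat (n : ℕ) : Type := Matrix (Fin n) (Fin n) ℂ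

/-- the basis vector `∂_i` -/
noncomputable def bv {q : ℕ} (i : Fin (q + 5)) : E q := EuclideanSpace.single i 1

/-- the partial derivative `∂_i f` of a real function -/
noncomputable def pd {q : ℕ} (i : Fin (q + 5)) (f : E q → ℝ) (x : E q) : ℝ :=
  fderiv ℝ f x (bv i)

/-- the partial derivative `∂_i B` of a matrix valued function, entry by entry -/
noncomputable def pdm {n q : ℕ} (i : Fin (q + 5)) (B : E q → Mat n) (x : E q) : Mat n :=
  Matrix.of fun a b => fderiv ℝ (fun y => B y a b) x (bv i)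

/-- the curvature `F_ij = ∂_i A_j - ∂_j A_i + [A_i, A_j]` of the connection form `∑ A_i dx^i` -/
noncomputable def curv {n q : ℕ} (A : Fin (q + 5) → E q → Mat n) (x : E q)
    (i j : Fin (q + 5)) : Mat n :=
  pdm i (A j) x - pdm j (A i) x + (A i x * A j x - A j x * A i x)

/-- `F` is the curvature of a smooth `SU(n)`-connection over the open set `W`: `F x i j` is the
value `F(∂_i, ∂_j)` at `x`, written in some unitary frame of the fibre at `x` (chosen separately at
each point), and near every point of `W` the connection is given in a smooth unitary gauge by a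
connection form `A` with values in `su(n)`. The bundle need not be trivial over `W`. -/
def IsCurvature {n q : ℕ} (W : Set (E q)) (F : E q → Fin (q + 5) → Fin (q + 5) → Mat n) : Prop :=
  ∀ x ∈ W, ∃ (N : Set (E q)) (A : Fin (q + 5) → E q → Mat n), IsOpen N ∧ x ∈ N ∧ N ⊆ W ∧
    (∀ i a b, ContDiffOn ℝ ∞ (fun y => A i y a b) N) ∧
    (∀ i, ∀ y ∈ N, (A i y)ᴴ = -A i y ∧ (A i y).trace = 0) ∧
    ∀ y ∈ N, ∃ g : Mat n, gᴴ * g = 1 ∧ ∀ i j, F y i j = gᴴ * curv A y i j * g

/-- `e 0, …, e (m - 1)` is a smooth positively oriented frame of vector fields on `U`. It stands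
for the Riemannian metric on `U` for which it is orthonormal. -/
def IsFrame {q : ℕ} (U : Set (E q)) (e : Fin (q + 5) → E q → E q) : Prop :=
  (∀ a, ContDiffOn ℝ ∞ (e a) U) ∧ ∀ x ∈ U, 0 < (Matrix.of fun a i => e a x i).det

/-- the value `F(e_a, e_b)` -/
noncomputable def frF {n q : ℕ} (e : Fin (q + 5) → E q → E q)
    (F : E q → Fin (q + 5) → Fin (q + 5) → Mat n) (x : E q) (a b : Fin (q + 5)) : Mat n :=
  ∑ i, ∑ j, (e a x i * e b x j) • F x i j

/-- the sign of a permutation as a real number -/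
noncomputable def sg {k : ℕ} (s : Equiv.Perm (Fin k)) : ℝ := ((Equiv.Perm.sign s : ℤ) : ℝ)

/-- the index `r < q + 1` as one of the `q + 5` indices -/
def hd {q : ℕ} (r : Fin (q + 1)) : Fin (q + 5) := ⟨r, by omega⟩

/-- the index `r < q + 3` as one of the `q + 5` indices -/
def md {q : ℕ} (r : Fin (q + 3)) : Fin (q + 5) := ⟨r, by omega⟩

/-- the last four of the `q + 5` indices -/
def tl {q : ℕ} (r : Fin 4) : Fin (q + 5) := ⟨q + 1 + r, by omega⟩

/-- the index `r < q + 1` as one of the `q + 3` indices -/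
def em {q : ℕ} (r : Fin (q + 1)) : Fin (q + 3) := ⟨r, by omega⟩

/-- the last two of the `q + 3` indices -/
def en {q : ℕ} (r : Fin 2) : Fin (q + 3) := ⟨q + 1 + r, by omega⟩

/-- The components of the wedge product of a `(q + 1)`-form with components `O` and a 2-form with
components `X` (with values in a vector space):
`(O ∧ X)_a = 1 / ((q + 1)! 2!) ∑ t, sign t · O_(a(t 0), …, a(t q)) X_(a(t (q + 1)), a(t (q + 2)))`,
sum over the permutations `t` of the `q + 3` indices. -/
noncomputable def wd {q : ℕ} {V : Type} [AddCommGroup V] [Module ℝ V]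
    (O : (Fin (q + 1) → Fin (q + 5)) → ℝ) (X : Fin (q + 5) → Fin (q + 5) → V)
    (a : Fin (q + 3) → Fin (q + 5)) : V :=
  (1 / (2 * (Nat.factorial (q + 1) : ℝ))) • ∑ t : Equiv.Perm (Fin (q + 3)),
    (sg t * O (fun r => a (t (em r)))) • X (a (t (en 0))) (a (t (en 1)))

/-- The equation `⋆F + Ω ∧ F = 0` at `x`, evaluated on `e_(s 0), …, e_(s (m - 3))` for all
permutations `s`: `(⋆F)(e_(s 0), …, e_(s (m - 3))) = sign s · F(e_(s (m - 2)), e_(s (m - 1)))`. -/
def IsASD {n q : ℕ} (e : Fin (q + 5) → E q → E q) (Ω : E q → Form q (q + 1))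
    (F : E q → Fin (q + 5) → Fin (q + 5) → Mat n) (x : E q) : Prop :=
  ∀ s : Equiv.Perm (Fin (q + 5)), sg s • frF e F x (s (tl 2)) (s (tl 3)) +
    wd (fun b => Ω x (fun r => e (b r) x)) (frF e F x) (fun r => s (md r)) = 0

/-- `Ω` is decomposable at every point of `U`: `Ω_x = θ_0 ∧ … ∧ θ_q` for some covectors `θ_r`
(which may depend on `x` in any way). -/
def IsDecomposable {q : ℕ} (U : Set (E q)) (Ω : E q → Form q (q + 1)) : Prop :=
  ∀ x ∈ U, ∃ θ : Fin (q + 1) → (E q →L[ℝ] ℝ), ∀ v : Fin (q + 1) → E q,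
    Ω x v = (Matrix.of fun r s => θ r (v s)).det

/-- the real number `tr (X Y)` for `X, Y ∈ su(n)` -/
noncomputable def tr2 {n : ℕ} (X Y : Mat n) : ℝ := (X * Y).trace.re

/-- the coefficient of `dx^0 ∧ … ∧ dx^(m - 1)` in the `m`-form `φ ∧ tr(F ∧ F)` for a
`(q + 1)`-form `φ` -/
noncomputable def cw {n q : ℕ} (F : E q → Fin (q + 5) → Fin (q + 5) → Mat n)
    (φ : E q → Form q (q + 1)) (x : E q) : ℝ :=
  (1 / (4 * (Nat.factorial (q + 1) : ℝ))) * ∑ s : Equiv.Perm (Fin (q + 5)),
    sg s * (φ x (fun r => bv (s (hd r))) *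
      tr2 (F x (s (tl 0)) (s (tl 1))) (F x (s (tl 2)) (s (tl 3))))

/-- the square of the norm of `F x` (in coordinates) -/
noncomputable def nsq {n q : ℕ} (F : E q → Fin (q + 5) → Fin (q + 5) → Mat n) (x : E q) : ℝ :=
  ∑ i, ∑ j, (F x i j * (F x i j)ᴴ).trace.re

/-- smooth forms with compact support in `U` -/
def IsTest {q k : ℕ} (U : Set (E q)) (φ : E q → Form q k) : Prop :=
  ContDiff ℝ ∞ φ ∧ HasCompactSupport φ ∧ tsupport φ ⊆ U

end Pool.Agent.Oad
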