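import Pool.Agent.Oad.Defs

/-!
The Bianchi identity and `d tr (F ∧ F) = 0` for a connection form; gauge invariance
-/

set_option autoImplicit false

namespace Pool.Agent.Oad

open MeasureTheory Set Matrix Filter Topology
open scoped ContDiff

/-- the component in direction `k` of `dx^k ∧ dx^J` (as a tensor): the coefficient of
`∂_k ψ_J` in `(dψ)_a` -/
def dJ {q : ℕ} (J : Fin q → Fin (q + 5)) (k : Fin (q + 5)) (a : Fin (q + 1) → Fin (q + 5)) : ℝ :=
  ∑ i : Fin (q + 1), (-1) ^ (i : ℕ) * (if a i = k ∧ i.removeNth a = J then 1 else 0)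

/-- `cw` for a constant tensor `c` in place of the components of `φ` -/
noncomputable def cwt {n q : ℕ} (F : E q → Fin (q + 5) → Fin (q + 5) → Mat n)
    (c : (Fin (q + 1) → Fin (q + 5)) → ℝ) (x : E q) : ℝ :=
  (1 / (4 * (Nat.factorial (q + 1) : ℝ))) * ∑ s : Equiv.Perm (Fin (q + 5)),
    sg s * (c (fun r => s (hd r)) *
      tr2 (F x (s (tl 0)) (s (tl 1))) (F x (s (tl 2)) (s (tl 3))))

/-- minus half the sum of `tr (F_bc F_bc)` over an orthonormal frame -/
noncomputable def qh {n q : ℕ} (e : Fin (q + 5) → E q → E q)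
    (F : E q → Fin (q + 5) → Fin (q + 5) → Mat n) (x : E q) : ℝ :=
  -(1 / 2) * ∑ b, ∑ c, tr2 (frF e F x b c) (frF e F x b c)

/-- the determinant of the frame -/
noncomputable def dt {q : ℕ} (e : Fin (q + 5) → E q → E q) (x : E q) : ℝ :=
  (Matrix.of fun a i => e a x i).det

/-- the density `Q` -/
noncomputable def Qf {n q : ℕ} (e : Fin (q + 5) → E q → E q)
    (F : E q → Fin (q + 5) → Fin (q + 5) → Mat n) (x : E q) : ℝ :=
  qh e F x / dt e x

/-- the components of the multivector dual to `Ω` -/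
noncomputable def Od {q : ℕ} (e : Fin (q + 5) → E q → E q) (Ω : E q → Form q (q + 1))
    (a : Fin (q + 1) → Fin (q + 5)) (x : E q) : ℝ :=
  (1 / (Nat.factorial (q + 1) : ℝ)) * ∑ b : Fin (q + 1) → Fin (q + 5),
    (∏ r, e (b r) x (a r)) * Ω x (fun r => e (b r) x)

/-- the vector field `W_J` with `φ ∧ tr (F ∧ F) = Q W_J^k` for `φ = dx^k ∧ dx^J` -/
noncomputable def Wf {q : ℕ} (e : Fin (q + 5) → E q → E q) (Ω : E q → Form q (q + 1))
    (J : Fin q → Fin (q + 5)) (k : Fin (q + 5)) (x : E q) : ℝ :=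
  ∑ a : Fin (q + 1) → Fin (q + 5), dJ J k a * Od e Ω a x

/-- the entries of `B` are smooth on `N` -/
def Sm {n q : ℕ} (N : Set (E q)) (B : E q → Mat n) : Prop :=
  ∀ a b, ContDiffOn ℝ ∞ (fun y => B y a b) N

-- BEGIN pml
/-- Product rule, entry by entry (`Matrix.mul_apply`, `fderiv_fun_sum`, `fderiv_mul`). -/
theorem pdm_mul {n q : ℕ} (i : Fin (q + 5)) (B D : (E q) → Mat n) (x : (E q))
    (hB : ∀ p q, DifferentiableAt ℝ (fun y => B y p q) x)
    (hD : ∀ p q, DifferentiableAt ℝ (fun y => D y p q) x) :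
    pdm i (fun y => B y * D y) x = pdm i B x * D x + B x * pdm i D x := by
  ext p q
  have h0 : pdm i (fun y => B y * D y) x p q =
      fderiv ℝ (fun y => (B y * D y) p q) x (bv i) := rfl
  have h1 : (fun y => (B y * D y) p q) = fun y => ∑ r, B y p r * D y r q := by
    funext y
    exact Matrix.mul_apply
  rw [h0, h1, Matrix.add_apply, Matrix.mul_apply, Matrix.mul_apply, ← Finset.sum_add_distrib]
  have h2 : HasFDerivAt (fun y => ∑ r, B y p r * D y r q)
      (∑ r, (B x p r • fderiv ℝ (fun y => D y r q) x + D x r q • fderiv ℝ (fun y => B y p r) x)) x :=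
    HasFDerivAt.fun_sum fun r _ => (hB p r).hasFDerivAt.mul (hD r q).hasFDerivAt
  rw [h2.fderiv, ContinuousLinearMap.sum_apply]
  refine Finset.sum_congr rfl fun r _ => ?_
  have h3 : pdm i B x p r = fderiv ℝ (fun y => B y p r) x (bv i) := rfl
  have h4 : pdm i D x r q = fderiv ℝ (fun y => D y r q) x (bv i) := rfl
  rw [h3, h4]
  simp only [ContinuousLinearMap.add_apply, ContinuousLinearMap.smul_apply, smul_eq_mul]
  ring
-- END pml

-- BEGIN pad
/-- `fderiv_add`, `fderiv_sub`, entry by entry. -/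
theorem pdm_add_sub {n q : ℕ} (i : Fin (q + 5)) (B D : (E q) → Mat n) (x : (E q))
    (hB : ∀ p q, DifferentiableAt ℝ (fun y => B y p q) x)
    (hD : ∀ p q, DifferentiableAt ℝ (fun y => D y p q) x) :
    pdm i (fun y => B y + D y) x = pdm i B x + pdm i D x ∧
      pdm i (fun y => B y - D y) x = pdm i B x - pdm i D x := by
  constructor
  · ext p q
    simp only [pdm, Matrix.of_apply, Matrix.add_apply]
    rw [fderiv_fun_add (hB p q) (hD p q)]
    rfl
  · ext p q
    simp only [pdm, Matrix.of_apply, Matrix.sub_apply]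
    rw [fderiv_fun_sub (hB p q) (hD p q)]
    rfl
-- END pad

-- BEGIN psm
/-- The derivative of a smooth function on an open set is smooth (`ContDiffOn.fderiv_of_isOpen`), applied to the fixed vector `bv i`. -/
theorem pdm_smooth {n q : ℕ} (i : Fin (q + 5)) (B : (E q) → Mat n) (N : Set (E q)) (hN : IsOpen N)
    (hB : Sm N B) : Sm N (pdm i B) := by
  intro p q
  have h1 : ContDiffOn ℝ ∞ (fderiv ℝ (fun y => B y p q)) N :=
    (hB p q).fderiv_of_isOpen hN (by simp)
  have h2 : ContDiffOn ℝ ∞ (fun y => fderiv ℝ (fun z => B z p q) y (bv i)) N :=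
    h1.clm_apply contDiffOn_const
  simpa [pdm] using h2
-- END psm

-- BEGIN pcm
/-- Symmetry of the second derivative (`ContDiffAt.isSymmSndFDerivAt`), entry by entry; `fderiv` of `y ↦ fderiv f y v` is `fderiv (fderiv f) x · v` (`fderiv_clm_apply`). -/
theorem pdm_comm {n q : ℕ} (i j : Fin (q + 5)) (B : (E q) → Mat n) (N : Set (E q)) (hN : IsOpen N)
    (hB : Sm N B) (x : (E q)) (hx : x ∈ N) : pdm i (pdm j B) x = pdm j (pdm i B) x := by
  ext a b
  have hc : ContDiffAt ℝ ∞ (fun y => B y a b) x := (hB a b).contDiffAt (hN.mem_nhds hx)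
  have hd : DifferentiableAt ℝ (fderiv ℝ (fun y => B y a b)) x :=
    (hc.fderiv_right (m := 1) (by norm_cast)).differentiableAt (by norm_num)
  have key : ∀ v w : (E q), fderiv ℝ (fun y => fderiv ℝ (fun z => B z a b) y v) x w =
      fderiv ℝ (fderiv ℝ (fun y => B y a b)) x w v := by
    intro v w
    have h := fderiv_clm_apply hd (differentiableAt_const (c := v) (x := x) (𝕜 := ℝ))
    rw [h]
    simp
  have hs : IsSymmSndFDerivAt ℝ (fun y => B y a b) x :=
    hc.isSymmSndFDerivAt (by simp only [minSmoothness_of_isRCLikeNormedField]; exact WithTop.coe_le_coe.mpr le_top)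
  have e1 : pdm i (pdm j B) x a b = fderiv ℝ (fun y => fderiv ℝ (fun z => B z a b) y (bv j)) x (bv i) := by
    simp [pdm]
  have e2 : pdm j (pdm i B) x a b = fderiv ℝ (fun y => fderiv ℝ (fun z => B z a b) y (bv i)) x (bv j) := by
    simp [pdm]
  rw [e1, e2, key, key]
  exact hs.eq _ _
-- END pcm

-- BEGIN csm
/-- Row psm and products and sums of smooth entries. -/
theorem curv_smooth {n q : ℕ} (A : Fin (q + 5) → (E q) → Mat n) (N : Set (E q)) (hN : IsOpen N)
    (hA : ∀ i, Sm N (A i)) (i j : Fin (q + 5)) : Sm N (fun y => curv A y i j) := by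
  intro p q
  have h1 := pdm_smooth i (A j) N hN (hA j) p q
  have h2 := pdm_smooth j (A i) N hN (hA i) p q
  have h3 : ContDiffOn ℝ ∞ (fun y => ∑ r, A i y p r * A j y r q) N :=
    ContDiffOn.sum (fun r _ => (hA i p r).mul (hA j r q))
  have h4 : ContDiffOn ℝ ∞ (fun y => ∑ r, A j y p r * A i y r q) N :=
    ContDiffOn.sum (fun r _ => (hA j p r).mul (hA i r q))
  refine ((h1.sub h2).add (h3.sub h4)).congr (fun y _ => ?_)
  simp [curv, Matrix.mul_apply]
-- END csm

-- BEGIN bia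
theorem bia_diff {n q : ℕ} (B : (E q) → Mat n) (N : Set (E q)) (hN : IsOpen N) (hB : Sm N B) (x : (E q)) (hx : x ∈ N)
    (p q : Fin n) : DifferentiableAt ℝ (fun y => B y p q) x :=
  ((hB p q).contDiffAt (hN.mem_nhds hx)).differentiableAt (by simp)

theorem bia_mul {n q : ℕ} (B D : (E q) → Mat n) (x : (E q)) (hB : ∀ p q, DifferentiableAt ℝ (fun y => B y p q) x)
    (hD : ∀ p q, DifferentiableAt ℝ (fun y => D y p q) x) (p q : Fin n) :
    DifferentiableAt ℝ (fun y => (B y * D y) p q) x := by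
  simp only [Matrix.mul_apply]
  exact DifferentiableAt.fun_sum fun r _ => (hB p r).mul (hD r q)

theorem bia_curv {n q : ℕ} (A : Fin (q + 5) → (E q) → Mat n) (N : Set (E q)) (hN : IsOpen N)
    (hA : ∀ i, Sm N (A i)) (x : (E q)) (hx : x ∈ N) (i j k : Fin (q + 5)) :
    pdm i (fun y => curv A y j k) x = pdm i (pdm j (A k)) x - pdm i (pdm k (A j)) x +
      ((pdm i (A j) x * A k x + A j x * pdm i (A k) x) - (pdm i (A k) x * A j x + A k x * pdm i (A j) x)) := by
  have hd : ∀ i p q, DifferentiableAt ℝ (fun y => A i y p q) x := fun i => bia_diff (A i) N hN (hA i) x hx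
  have hd2 : ∀ i j p q, DifferentiableAt ℝ (fun y => pdm i (A j) y p q) x := fun i j =>
    bia_diff (pdm i (A j)) N hN (pdm_smooth i (A j) N hN (hA j)) x hx
  have h1 := (pdm_add_sub i (fun y => pdm j (A k) y - pdm k (A j) y) (fun y => A j y * A k y - A k y * A j y) x
    (fun p q => (hd2 j k p q).sub (hd2 k j p q))
    (fun p q => (bia_mul (A j) (A k) x (hd j) (hd k) p q).sub (bia_mul (A k) (A j) x (hd k) (hd j) p q))).1
  have h2 := (pdm_add_sub i (pdm j (A k)) (pdm k (A j)) x (hd2 j k) (hd2 k j)).2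
  have h3 := (pdm_add_sub i (fun y => A j y * A k y) (fun y => A k y * A j y) x
    (bia_mul (A j) (A k) x (hd j) (hd k)) (bia_mul (A k) (A j) x (hd k) (hd j))).2
  have h4 := pdm_mul i (A j) (A k) x (hd j) (hd k)
  have h5 := pdm_mul i (A k) (A j) x (hd k) (hd j)
  rw [h2, h3, h4, h5] at h1
  exact h1

/-- The Bianchi identity. Rows pad, pml, psm give `∂_i F_jk = ∂_i ∂_j A_k - ∂_i ∂_k A_j + [∂_i A_j, A_k] + [A_j, ∂_i A_k]`, second derivatives cancel by row pcm, the rest is `noncomm_ring` (generalize the matrices `A_i`, `∂_i A_j` first). -/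
theorem bianchi {n q : ℕ} (A : Fin (q + 5) → (E q) → Mat n) (N : Set (E q)) (hN : IsOpen N)
    (hA : ∀ i, Sm N (A i)) (x : (E q)) (hx : x ∈ N) (i j k : Fin (q + 5)) :
    pdm i (fun y => curv A y j k) x + pdm j (fun y => curv A y k i) x +
      pdm k (fun y => curv A y i j) x +
      ((A i x * curv A x j k - curv A x j k * A i x) +
        (A j x * curv A x k i - curv A x k i * A j x) +
        (A k x * curv A x i j - curv A x i j * A k x)) = 0 := by
  rw [bia_curv A N hN hA x hx i j k, bia_curv A N hN hA x hx j k i, bia_curv A N hN hA x hx k i j,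
    pdm_comm j k (A i) N hN (hA i) x hx, pdm_comm k i (A j) N hN (hA j) x hx, pdm_comm j i (A k) N hN (hA k) x hx]
  unfold curv
  generalize pdm i (pdm j (A k)) x = d1
  generalize pdm i (pdm k (A j)) x = d2
  generalize pdm k (pdm j (A i)) x = d3
  generalize pdm i (A j) x = a1
  generalize pdm j (A i) x = a2
  generalize pdm i (A k) x = a3
  generalize pdm k (A i) x = a4
  generalize pdm j (A k) x = a5
  generalize pdm k (A j) x = a6
  generalize A i x = u
  generalize A j x = v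
  generalize A k x = w
  noncomm_ring
-- END bia

-- BEGIN ptr
/-- `tr2 X Y` is the real part of `∑ p, ∑ q, X p q * Y q p`: product rule. -/
theorem pd_tr2 {n q : ℕ} (i : Fin (q + 5)) (X Y : (E q) → Mat n) (x : (E q))
    (hX : ∀ p q, DifferentiableAt ℝ (fun y => X y p q) x)
    (hY : ∀ p q, DifferentiableAt ℝ (fun y => Y y p q) x) :
    DifferentiableAt ℝ (fun y => tr2 (X y) (Y y)) x ∧
      pd i (fun y => tr2 (X y) (Y y)) x = tr2 (pdm i X x) (Y x) + tr2 (X x) (pdm i Y x) := by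
  have hp : ∀ p q, HasFDerivAt (fun y => X y p q * Y y q p)
      (X x p q • fderiv ℝ (fun y => Y y q p) x + Y x q p • fderiv ℝ (fun y => X y p q) x) x :=
    fun p q => ((hX p q).hasFDerivAt).mul ((hY q p).hasFDerivAt)
  have hs : HasFDerivAt (fun y => ∑ p, ∑ q, X y p q * Y y q p)
      (∑ p, ∑ q, (X x p q • fderiv ℝ (fun y => Y y q p) x +
        Y x q p • fderiv ℝ (fun y => X y p q) x)) x := by
    refine HasFDerivAt.fun_sum fun p _ => ?_
    exact HasFDerivAt.fun_sum fun q _ => hp p q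
  have hr : HasFDerivAt (fun y => (∑ p, ∑ q, X y p q * Y y q p).re)
      (Complex.reCLM.comp (∑ p, ∑ q, (X x p q • fderiv ℝ (fun y => Y y q p) x +
        Y x q p • fderiv ℝ (fun y => X y p q) x))) x :=
    (Complex.reCLM.hasFDerivAt).comp x hs
  have hf : (fun y => tr2 (X y) (Y y)) = fun y => (∑ p, ∑ q, X y p q * Y y q p).re := by
    funext y
    simp [tr2, Matrix.trace, Matrix.mul_apply, Matrix.diag]
  rw [hf]
  refine ⟨hr.differentiableAt, ?_⟩
  unfold pd
  rw [hr.fderiv]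
  simp only [tr2, Matrix.trace, Matrix.mul_apply, Matrix.diag, pdm, Matrix.of_apply]
  simp only [ContinuousLinearMap.comp_apply, _root_.sum_apply,
    _root_.add_apply, _root_.smul_apply, smul_eq_mul,
    Complex.reCLM_apply]
  rw [← Complex.add_re]
  congr 1
  rw [← Finset.sum_add_distrib]
  refine Finset.sum_congr rfl fun p _ => ?_
  rw [← Finset.sum_add_distrib]
  refine Finset.sum_congr rfl fun q _ => ?_
  ring
-- END ptr

-- BEGIN cls
private theorem cls_pd {n q : ℕ} (A : Fin (q + 5) → E q → Mat n) (x : E q)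
    (hdd : ∀ i j a b, DifferentiableAt ℝ (fun y => curv A y i j a b) x) (k : Fin (q + 5))
    (c : (Fin (q + 1) → Fin (q + 5)) → ℝ) :
    pd k (cwt (curv A) c) x = (1 / (4 * (Nat.factorial (q + 1) : ℝ))) *
      ∑ s : Equiv.Perm (Fin (q + 5)), sg s * (c (fun r => s (hd r)) *
      (tr2 (pdm k (fun y => curv A y (s (tl 0)) (s (tl 1))) x)
          (curv A x (s (tl 2)) (s (tl 3))) +
        tr2 (curv A x (s (tl 0)) (s (tl 1)))
          (pdm k (fun y => curv A y (s (tl 2)) (s (tl 3))) x))) := by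
  have h1 : ∀ s : Equiv.Perm (Fin (q + 5)),
      DifferentiableAt ℝ (fun y => tr2 (curv A y (s (tl 0)) (s (tl 1)))
        (curv A y (s (tl 2)) (s (tl 3)))) x ∧
      pd k (fun y => tr2 (curv A y (s (tl 0)) (s (tl 1)))
        (curv A y (s (tl 2)) (s (tl 3)))) x =
      tr2 (pdm k (fun y => curv A y (s (tl 0)) (s (tl 1))) x)
          (curv A x (s (tl 2)) (s (tl 3))) +
        tr2 (curv A x (s (tl 0)) (s (tl 1)))
          (pdm k (fun y => curv A y (s (tl 2)) (s (tl 3))) x) := fun s =>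
    pd_tr2 k (fun y => curv A y (s (tl 0)) (s (tl 1))) (fun y => curv A y (s (tl 2)) (s (tl 3))) x
      (fun a b => hdd _ _ a b) (fun a b => hdd _ _ a b)
  have h2 := (HasFDerivAt.fun_sum (u := (Finset.univ : Finset (Equiv.Perm (Fin (q + 5)))))
    (fun s _ => (((h1 s).1.hasFDerivAt.const_mul (c (fun r => s (hd r)))).const_mul
      (sg s)))).const_mul (1 / (4 * (Nat.factorial (q + 1) : ℝ)))
  have h3 : (cwt (curv A) c) = fun y => (1 / (4 * (Nat.factorial (q + 1) : ℝ))) *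
      ∑ s : Equiv.Perm (Fin (q + 5)), sg s * (c (fun r => s (hd r)) *
      tr2 (curv A y (s (tl 0)) (s (tl 1))) (curv A y (s (tl 2)) (s (tl 3)))) := by
    funext y
    rfl
  unfold pd
  rw [h3, h2.fderiv]
  simp only [ContinuousLinearMap.smul_apply, ContinuousLinearMap.sum_apply, smul_eq_mul]
  congr 1
  refine Finset.sum_congr rfl fun s _ => ?_
  have h4 := (h1 s).2
  unfold pd at h4
  rw [h4]

private theorem cls_dj {q : ℕ} (J : Fin q → Fin (q + 5)) (a : Fin (q + 1) → Fin (q + 5)) (g : ℝ)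
    (T : Fin (q + 5) → ℝ) : ∑ k, g * (dJ J k a * T k) =
      ∑ i : Fin (q + 1), (-1) ^ (i : ℕ) *
        (g * ((if i.removeNth a = J then 1 else 0) * T (a i))) := by
  unfold dJ
  simp only [Finset.sum_mul, Finset.mul_sum]
  rw [Finset.sum_comm]
  refine Finset.sum_congr rfl fun i _ => ?_
  rw [Finset.sum_eq_single (a i)]
  · by_cases h : i.removeNth a = J
    · rw [if_pos ⟨rfl, h⟩, if_pos h]
      ring
    · rw [if_neg (fun h' => h h'.2), if_neg h]
      ring
  · intro k _ hk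
    rw [if_neg (fun h' => hk h'.1.symm)]
    ring
  · intro h
    exact absurd (Finset.mem_univ _) h

/-- Differentiate the finite sum (row ptr, row csm); `dJ J k (s ∘ hd)` is `∑ i, (-1)^i` times the indicator of `s (hd i) = k` and `i.removeNth (s ∘ hd) = J`; exchange the sums over `k` and `s`, `i`. -/
theorem sum_pd_cw {n q : ℕ} (A : Fin (q + 5) → E q → Mat n) (N : Set (E q)) (hN : IsOpen N)
    (hA : ∀ i, Sm N (A i)) (x : E q) (hx : x ∈ N) (J : Fin q → Fin (q + 5)) :
    ∑ k, pd k (cwt (curv A) (dJ J k)) x = (1 / (4 * (Nat.factorial (q + 1) : ℝ))) *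
      ∑ i : Fin (q + 1), (-1) ^ (i : ℕ) * ∑ s : Equiv.Perm (Fin (q + 5)), sg s *
      ((if i.removeNth (fun r => s (hd r)) = J then 1 else 0) *
      (tr2 (pdm (s (hd i)) (fun y => curv A y (s (tl 0)) (s (tl 1))) x)
          (curv A x (s (tl 2)) (s (tl 3))) +
        tr2 (curv A x (s (tl 0)) (s (tl 1)))
          (pdm (s (hd i)) (fun y => curv A y (s (tl 2)) (s (tl 3))) x))) := by
  have hdd : ∀ i j a b, DifferentiableAt ℝ (fun y => curv A y i j a b) x := by
    intro i j a b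
    exact ((curv_smooth A N hN hA i j a b).contDiffAt (hN.mem_nhds hx)).differentiableAt (by simp)
  rw [Finset.sum_congr rfl fun k _ => cls_pd A x hdd k (dJ J k), ← Finset.mul_sum]
  congr 1
  rw [Finset.sum_comm]
  simp only [Finset.mul_sum]
  rw [Finset.sum_comm (s := (Finset.univ : Finset (Fin (q + 1))))]
  refine Finset.sum_congr rfl fun s _ => ?_
  exact cls_dj J (fun r => s (hd r)) (sg s) fun k =>
    tr2 (pdm k (fun y => curv A y (s (tl 0)) (s (tl 1))) x) (curv A x (s (tl 2)) (s (tl 3))) +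
      tr2 (curv A x (s (tl 0)) (s (tl 1))) (pdm k (fun y => curv A y (s (tl 2)) (s (tl 3))) x)
-- END cls

-- BEGIN bal
private theorem bal_perm {q : ℕ} (G : Equiv.Perm (Fin (q + 5)) → ℝ) (τ : Equiv.Perm (Fin (q + 5)))
    (hτ : Equiv.Perm.sign τ = 1) :
    ∑ s : Equiv.Perm (Fin (q + 5)), sg s * G (s * τ) =
      ∑ s : Equiv.Perm (Fin (q + 5)), sg s * G s := by
  have h := Equiv.sum_comp (Equiv.mulRight τ) (fun s : Equiv.Perm (Fin (q + 5)) => sg s * G s)
  rw [← h]
  refine Finset.sum_congr rfl fun s _ => ?_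
  have : sg (s * τ) = sg s := by
    unfold sg
    rw [Equiv.Perm.sign_mul, hτ, mul_one]
  simp only [Equiv.coe_mulRight]
  rw [this]

private theorem bal_comm {n : ℕ} (X Y : Mat n) : tr2 X Y = tr2 Y X := by
  unfold tr2
  rw [Matrix.trace_mul_comm]

private theorem bal_add {n : ℕ} (X Y Z : Mat n) : tr2 (X + Y) Z = tr2 X Z + tr2 Y Z := by
  unfold tr2
  rw [add_mul, Matrix.trace_add, Complex.add_re]

private theorem bal_cyc {n : ℕ} (A X Y : Mat n) :
    tr2 (A * X - X * A) Y + tr2 (A * Y - Y * A) X = 0 := by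
  have h1 : (A * X * Y).trace = (Y * A * X).trace := by
    rw [Matrix.trace_mul_comm, ← Matrix.mul_assoc]
  have h2 : (X * A * Y).trace = (A * Y * X).trace := by
    rw [Matrix.mul_assoc, Matrix.trace_mul_comm]
  unfold tr2
  rw [sub_mul, sub_mul, Matrix.trace_sub, Matrix.trace_sub, h1, h2, Complex.sub_re, Complex.sub_re]
  ring

private theorem bal_ht {q : ℕ} (k : Fin (q + 1)) (r : Fin 4) : (hd k : Fin (q + 5)) ≠ tl r := by
  intro h
  have h1 : (k : ℕ) = q + 1 + (r : ℕ) := congrArg Fin.val h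
  have h2 := k.2
  omega

private theorem bal_tt {q : ℕ} {r r' : Fin 4} (hr : r ≠ r') : (tl r : Fin (q + 5)) ≠ tl r' := by
  intro h
  have h1 : q + 1 + (r : ℕ) = q + 1 + (r' : ℕ) := congrArg Fin.val h
  exact hr (Fin.ext (by omega))

private theorem bal_hh {q : ℕ} {k k' : Fin (q + 1)} (hk : k ≠ k') :
    (hd k : Fin (q + 5)) ≠ hd k' := by
  intro h
  have h1 : (hd k : Fin (q + 5)).val = (hd k' : Fin (q + 5)).val := congrArg Fin.val h
  exact hk (Fin.ext h1)

/-- Pure algebra, as row bal of mods_oas with the five positions `hd i, tl 0, tl 1, tl 2, tl 3` in place of `0, 1, 2, 3, 4` (the permutations used fix all other positions, so `c` does not change). Write `S(G) = ∑ s, sg s * (c s * G s)`; `S(G ∘ (· * τ)) = sign τ * S(G)`. With `τ = (tl0 tl2)(tl1 tl3)` (even) and `tr2 X Y = tr2 Y X` both halves are equal. With the two even 3-cycles of `hd i, tl 0, tl 1`: `3 S(tr2 (P_012) C_34) = S(tr2 (P_012 + P_120 + P_201) C_34) = -3 S(tr2 [A_0, C_12] C_34)`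 by `h`. With `τ` again `2 S(tr2 [A_0, C_12] C_34) = S(tr2 [A_0, C_12] C_34 + tr2 C_12 [A_0, C_34]) = 0`, since `tr ([A, X] Y + X [A, Y]) = tr [A, X Y] = 0`. -/
theorem bianchi_alg {n q : ℕ} (P : Fin (q + 5) → Fin (q + 5) → Fin (q + 5) → Mat n)
    (C : Fin (q + 5) → Fin (q + 5) → Mat n) (A : Fin (q + 5) → Mat n)
    (h : ∀ i j k, P i j k + P j k i + P k i j + ((A i * C j k - C j k * A i) +
      (A j * C k i - C k i * A j) + (A k * C i j - C i j * A k)) = 0)
    (i : Fin (q + 1)) (c : Equiv.Perm (Fin (q + 5)) → ℝ)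
    (hc : ∀ s τ : Equiv.Perm (Fin (q + 5)), (∀ k : Fin (q + 1), k ≠ i → τ (hd k) = hd k) →
      c (s * τ) = c s) :
    ∑ s : Equiv.Perm (Fin (q + 5)), sg s * (c s *
      (tr2 (P (s (hd i)) (s (tl 0)) (s (tl 1))) (C (s (tl 2)) (s (tl 3))) +
        tr2 (C (s (tl 0)) (s (tl 1))) (P (s (hd i)) (s (tl 2)) (s (tl 3))))) = 0 := by
  have n01 : (tl 0 : Fin (q + 5)) ≠ tl 1 := bal_tt (by decide)
  have n02 : (tl 0 : Fin (q + 5)) ≠ tl 2 := bal_tt (by decide)
  have n03 : (tl 0 : Fin (q + 5)) ≠ tl 3 := bal_tt (by decide)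
  have n12 : (tl 1 : Fin (q + 5)) ≠ tl 2 := bal_tt (by decide)
  have n13 : (tl 1 : Fin (q + 5)) ≠ tl 3 := bal_tt (by decide)
  have n23 : (tl 2 : Fin (q + 5)) ≠ tl 3 := bal_tt (by decide)
  have nh : ∀ (k : Fin (q + 1)) (r : Fin 4), (hd k : Fin (q + 5)) ≠ tl r := bal_ht
  obtain ⟨τ, hτ, t, t0, t1, t2, t3⟩ : ∃ τ : Equiv.Perm (Fin (q + 5)), Equiv.Perm.sign τ = 1 ∧
      (∀ k : Fin (q + 1), τ (hd k) = hd k) ∧ τ (tl 0) = tl 2 ∧ τ (tl 1) = tl 3 ∧
        τ (tl 2) = tl 0 ∧ τ (tl 3) = tl 1 := by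
    refine ⟨Equiv.swap (tl 0) (tl 2) * Equiv.swap (tl 1) (tl 3), ?_, fun k => ?_, ?_, ?_, ?_, ?_⟩
    · rw [Equiv.Perm.sign_mul, Equiv.Perm.sign_swap n02, Equiv.Perm.sign_swap n13]
      rfl
    · rw [Equiv.Perm.mul_apply, Equiv.swap_apply_of_ne_of_ne (nh k 1) (nh k 3),
        Equiv.swap_apply_of_ne_of_ne (nh k 0) (nh k 2)]
    · rw [Equiv.Perm.mul_apply, Equiv.swap_apply_of_ne_of_ne n01 n03, Equiv.swap_apply_left]
    · rw [Equiv.Perm.mul_apply, Equiv.swap_apply_left,
        Equiv.swap_apply_of_ne_of_ne n03.symm n23.symm]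
    · rw [Equiv.Perm.mul_apply, Equiv.swap_apply_of_ne_of_ne n12.symm n23,
        Equiv.swap_apply_right]
    · rw [Equiv.Perm.mul_apply, Equiv.swap_apply_right,
        Equiv.swap_apply_of_ne_of_ne n01.symm n12]
  obtain ⟨σ, hσ, sh, si, s0, s1, s2, s3⟩ : ∃ σ : Equiv.Perm (Fin (q + 5)),
      Equiv.Perm.sign σ = 1 ∧ (∀ k : Fin (q + 1), k ≠ i → σ (hd k) = hd k) ∧ σ (hd i) = tl 0 ∧
        σ (tl 0) = tl 1 ∧ σ (tl 1) = hd i ∧ σ (tl 2) = tl 2 ∧ σ (tl 3) = tl 3 := by
    refine ⟨Equiv.swap (hd i) (tl 0) * Equiv.swap (tl 0) (tl 1), ?_, fun k hk => ?_,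
      ?_, ?_, ?_, ?_, ?_⟩
    · rw [Equiv.Perm.sign_mul, Equiv.Perm.sign_swap (nh i 0), Equiv.Perm.sign_swap n01]
      rfl
    · rw [Equiv.Perm.mul_apply, Equiv.swap_apply_of_ne_of_ne (nh k 0) (nh k 1),
        Equiv.swap_apply_of_ne_of_ne (bal_hh hk) (nh k 0)]
    · rw [Equiv.Perm.mul_apply, Equiv.swap_apply_of_ne_of_ne (nh i 0) (nh i 1),
        Equiv.swap_apply_left]
    · rw [Equiv.Perm.mul_apply, Equiv.swap_apply_left,
        Equiv.swap_apply_of_ne_of_ne (nh i 1).symm n01.symm]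
    · rw [Equiv.Perm.mul_apply, Equiv.swap_apply_right, Equiv.swap_apply_right]
    · rw [Equiv.Perm.mul_apply, Equiv.swap_apply_of_ne_of_ne n02.symm n12.symm,
        Equiv.swap_apply_of_ne_of_ne (nh i 2).symm n02.symm]
    · rw [Equiv.Perm.mul_apply, Equiv.swap_apply_of_ne_of_ne n03.symm n13.symm,
        Equiv.swap_apply_of_ne_of_ne (nh i 3).symm n03.symm]
  have cτ : ∀ s, c (s * τ) = c s := fun s => hc s τ fun k _ => t k
  have cσ : ∀ s, c (s * σ) = c s := fun s => hc s σ sh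
  let G1 : Equiv.Perm (Fin (q + 5)) → ℝ := fun s =>
    c s * tr2 (P (s (hd i)) (s (tl 0)) (s (tl 1))) (C (s (tl 2)) (s (tl 3)))
  let G3 : Equiv.Perm (Fin (q + 5)) → ℝ := fun s =>
    c s * tr2 (A (s (hd i)) * C (s (tl 0)) (s (tl 1)) - C (s (tl 0)) (s (tl 1)) * A (s (hd i)))
      (C (s (tl 2)) (s (tl 3)))
  have e2 : ∀ s : Equiv.Perm (Fin (q + 5)),
      c s * tr2 (C (s (tl 0)) (s (tl 1))) (P (s (hd i)) (s (tl 2)) (s (tl 3))) = G1 (s * τ) := by
    intro s
    simp only [G1, cτ, Equiv.Perm.coe_mul, Function.comp_apply, t, t0, t1, t2, t3]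
    rw [bal_comm]
  have hG1 := bal_perm G1 τ hτ
  have hG1a := bal_perm G1 σ hσ
  have hG1b := bal_perm (fun s => G1 (s * σ)) σ hσ
  have hG3 := bal_perm G3 τ hτ
  have hG3a := bal_perm G3 σ hσ
  have hG3b := bal_perm (fun s => G3 (s * σ)) σ hσ
  have key : ∀ s : Equiv.Perm (Fin (q + 5)), G1 s + G1 (s * σ) + G1 (s * σ * σ) +
      (G3 s + G3 (s * σ) + G3 (s * σ * σ)) = 0 := by
    intro s
    simp only [G1, G3, cσ, Equiv.Perm.coe_mul, Function.comp_apply, si, s0, s1, s2, s3]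
    have h0 := h (s (hd i)) (s (tl 0)) (s (tl 1))
    rw [← mul_add, ← mul_add, ← mul_add, ← mul_add, ← mul_add, ← bal_add, ← bal_add, ← bal_add,
      ← bal_add, ← bal_add, h0]
    simp [tr2]
  have key2 : ∀ s : Equiv.Perm (Fin (q + 5)), G3 s + G3 (s * τ) = 0 := by
    intro s
    simp only [G3, cτ, Equiv.Perm.coe_mul, Function.comp_apply, t, t0, t1, t2, t3]
    rw [← mul_add, bal_cyc, mul_zero]
  have k1 : ∑ s : Equiv.Perm (Fin (q + 5)), sg s * (G1 s + G1 (s * σ) + G1 (s * σ * σ) +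
      (G3 s + G3 (s * σ) + G3 (s * σ * σ))) = 0 :=
    Finset.sum_eq_zero fun s _ => by rw [key s, mul_zero]
  have k2 : ∑ s : Equiv.Perm (Fin (q + 5)), sg s * (G3 s + G3 (s * τ)) = 0 :=
    Finset.sum_eq_zero fun s _ => by rw [key2 s, mul_zero]
  simp only [mul_add, Finset.sum_add_distrib] at k1 k2
  have goal1 : ∑ s : Equiv.Perm (Fin (q + 5)), sg s * (c s *
      (tr2 (P (s (hd i)) (s (tl 0)) (s (tl 1))) (C (s (tl 2)) (s (tl 3))) +
        tr2 (C (s (tl 0)) (s (tl 1))) (P (s (hd i)) (s (tl 2)) (s (tl 3))))) =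
      ∑ s : Equiv.Perm (Fin (q + 5)), sg s * G1 s +
        ∑ s : Equiv.Perm (Fin (q + 5)), sg s * G1 (s * τ) := by
    rw [← Finset.sum_add_distrib]
    refine Finset.sum_congr rfl fun s _ => ?_
    rw [← e2 s, mul_add, mul_add]
  rw [goal1, hG1]
  rw [hG1a] at k1 hG1b
  rw [hG3a] at k1 hG3b
  rw [hG3] at k2
  rw [hG1b, hG3b] at k1
  linarith
-- END bal

-- BEGIN clo
/-- Rows cls, bal (with `c s` the indicator of `i.removeNth (fun r => s (hd r)) = J`, which depends only on `s (hd k)`, `k ≠ i`: `Fin.removeNth_apply`, `Fin.succAbove_ne`), bia. -/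
theorem closed {n q : ℕ} (A : Fin (q + 5) → E q → Mat n) (N : Set (E q)) (hN : IsOpen N)
    (hA : ∀ i, Sm N (A i)) (x : E q) (hx : x ∈ N) (J : Fin q → Fin (q + 5)) :
    ∑ k, pd k (cwt (curv A) (dJ J k)) x = 0 := by
  rw [sum_pd_cw A N hN hA x hx J]
  refine mul_eq_zero_of_right _ (Finset.sum_eq_zero fun i _ => mul_eq_zero_of_right _ ?_)
  refine bianchi_alg (fun a b c => pdm a (fun y => curv A y b c) x) (fun b c => curv A x b c)
    (fun a => A a x) (fun a b c => bianchi A N hN hA x hx a b c) i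
    (fun s => if i.removeNth (fun r => s (hd r)) = J then 1 else 0) ?_
  intro s τ hτ
  have h1 : i.removeNth (fun r => (s * τ) (hd r)) = i.removeNth (fun r => s (hd r)) := by
    funext r
    show (s * τ) (hd (i.succAbove r)) = s (hd (i.succAbove r))
    rw [Equiv.Perm.mul_apply, hτ _ (Fin.succAbove_ne i r)]
  show (if i.removeNth (fun r => (s * τ) (hd r)) = J then (1 : ℝ) else 0) = _
  rw [h1]
-- END clo

-- BEGIN gin
private theorem gin_tr {n : ℕ} (X Y g : Mat n) (hg : gᴴ * g = 1) :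
    tr2 (gᴴ * X * g) (gᴴ * Y * g) = tr2 X Y := by
  have hg' : g * gᴴ = 1 := mul_eq_one_comm.mp hg
  unfold tr2
  have h1 : gᴴ * X * g * (gᴴ * Y * g) = gᴴ * (X * Y * g) := by
    calc gᴴ * X * g * (gᴴ * Y * g) = gᴴ * X * (g * gᴴ) * Y * g := by
          simp only [Matrix.mul_assoc]
      _ = gᴴ * (X * Y * g) := by
          rw [hg', Matrix.mul_one]
          simp only [Matrix.mul_assoc]
  have h2 : (gᴴ * (X * Y * g)).trace = (X * Y).trace := by
    rw [Matrix.trace_mul_comm, Matrix.mul_assoc, hg', Matrix.mul_one]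
  rw [h1, h2]

private theorem gin_fr {n q : ℕ} (e : Fin (q + 5) → (E q) → (E q)) (F D : (E q) → Fin (q + 5) → Fin (q + 5) → Mat n) (y : (E q))
    (g : Mat n) (h : ∀ i j, F y i j = gᴴ * D y i j * g) (b c : Fin (q + 5)) :
    frF e F y b c = gᴴ * frF e D y b c * g := by
  unfold frF
  rw [Matrix.mul_sum, Matrix.sum_mul]
  refine Finset.sum_congr rfl fun i _ => ?_
  rw [Matrix.mul_sum, Matrix.sum_mul]
  refine Finset.sum_congr rfl fun j _ => ?_
  rw [h i j, Matrix.mul_smul, Matrix.smul_mul]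

/-- `tr (gᴴ X g gᴴ Y g) = tr (X Y)`: `g gᴴ = 1` (`mul_eq_one_comm`) and cyclicity of the trace; `frF` commutes with `X ↦ gᴴ X g` (sums and real multiples); `curv` is antisymmetric. -/
theorem gauge {n q : ℕ} (e : Fin (q + 5) → (E q) → (E q)) (F D : (E q) → Fin (q + 5) → Fin (q + 5) → Mat n) (y : (E q))
    (g : Mat n) (hg : gᴴ * g = 1) (h : ∀ i j, F y i j = gᴴ * D y i j * g) :
    (∀ c : (Fin (q + 1) → Fin (q + 5)) → ℝ, cwt F c y = cwt D c y) ∧ qh e F y = qh e D y := by
  constructor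
  · intro c
    have hs : ∀ s : Equiv.Perm (Fin (q + 5)),
        sg s * (c (fun r => s (hd r)) *
          tr2 (F y (s (tl 0)) (s (tl 1))) (F y (s (tl 2)) (s (tl 3)))) =
          sg s * (c (fun r => s (hd r)) *
            tr2 (D y (s (tl 0)) (s (tl 1))) (D y (s (tl 2)) (s (tl 3)))) := by
      intro s
      rw [h (s (tl 0)) (s (tl 1)), h (s (tl 2)) (s (tl 3)), gin_tr _ _ g hg]
    unfold cwt
    rw [Finset.sum_congr rfl fun s _ => hs s]
  · have hb : ∀ b c : Fin (q + 5), tr2 (frF e F y b c) (frF e F y b c) =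
        tr2 (frF e D y b c) (frF e D y b c) := by
      intro b c
      rw [gin_fr e F D y g h b c, gin_tr _ _ g hg]
    unfold qh
    rw [Finset.sum_congr rfl fun b _ => Finset.sum_congr rfl fun c _ => hb b c]
-- END gin

-- BEGIN skw
/-- `curv A y j i = -curv A y i j` by definition, and `X ↦ gᴴ X g` is linear. -/
theorem curvature_skew {n q : ℕ} (W : Set (E q)) (F : (E q) → Fin (q + 5) → Fin (q + 5) → Mat n)
    (hF : IsCurvature W F) (x : (E q)) (hx : x ∈ W) (i j : Fin (q + 5)) : F x j i = -F x i j := by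
  obtain ⟨N, A, -, hxN, -, -, -, h⟩ := hF x hx
  obtain ⟨g, -, hg⟩ := h x hxN
  rw [hg j i, hg i j]
  have e : curv A x j i = -curv A x i j := by
    unfold curv
    abel
  rw [e, Matrix.mul_neg, Matrix.neg_mul]
-- END skw

-- BEGIN qs1
/-- Everything is a polynomial in smooth functions (real part and trace are continuous linear), divided by `dt e`, which is smooth (`Matrix.det_apply`) and positive on `U`. -/
theorem Qf_smooth_aux {n q : ℕ} (U N : Set (E q)) (hNU : N ⊆ U) (e : Fin (q + 5) → (E q) → (E q))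
    (he : IsFrame U e) (D : (E q) → Fin (q + 5) → Fin (q + 5) → Mat n) (hD : ∀ i j, Sm N (fun y => D y i j)) :
    ContDiffOn ℝ ∞ (Qf e D) N := by
  have hec : ∀ a i, ContDiffOn ℝ ∞ (fun y => e a y i) N := fun a i =>
    (contDiffOn_euclidean.1 ((he.1 a).mono hNU)) i
  have hfr : ∀ b c p q, ContDiffOn ℝ ∞ (fun y => frF e D y b c p q) N := by
    intro b c p q
    have h1 : (fun y => frF e D y b c p q) =
        fun y => ∑ i, ∑ j, (e b y i * e c y j) • D y i j p q := by
      funext y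
      simp only [frF, Matrix.sum_apply, Matrix.smul_apply]
    rw [h1]
    exact ContDiffOn.sum fun i _ => ContDiffOn.sum fun j _ =>
      ((hec b i).mul (hec c j)).smul (hD i j p q)
  have hqh : ContDiffOn ℝ ∞ (fun y => qh e D y) N := by
    unfold qh
    refine contDiffOn_const.mul (ContDiffOn.sum fun b _ => ContDiffOn.sum fun c _ => ?_)
    have h2 : (fun y => tr2 (frF e D y b c) (frF e D y b c)) =
        fun y => (∑ p, ∑ q, frF e D y b c p q * frF e D y b c q p).re := by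
      funext y
      simp only [tr2, Matrix.trace, Matrix.mul_apply, Matrix.diag_apply]
    rw [h2]
    exact Complex.reCLM.contDiff.comp_contDiffOn (ContDiffOn.sum fun p _ =>
      ContDiffOn.sum fun q _ => (hfr b c p q).mul (hfr b c q p))
  have hdt : ContDiffOn ℝ ∞ (fun y => dt e y) N := by
    unfold dt
    simp only [Matrix.det_apply']
    exact ContDiffOn.sum fun s _ => contDiffOn_const.mul (contDiffOn_prod fun i _ => hec (s i) i)
  unfold Qf
  exact hqh.div hdt fun y hy => (he.2 y (hNU hy)).ne'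
-- END qs1

-- BEGIN fex
/-- Multilinearity: `e (b r) x = ∑ i, e (b r) x i • bv i` (`EuclideanSpace.basisFun`, or `ext`), `ContinuousAlternatingMap` to multilinear map, `MultilinearMap.map_sum`, `MultilinearMap.map_smul_univ`. -/
theorem form_expand {q k : ℕ} (φ : Form q k) (v : Fin k → E q) :
    φ v = ∑ a : Fin k → Fin (q + 5), (∏ r, v r (a r)) * φ (fun r => bv (a r)) := by
  have h1 : v = fun r => ∑ i : Fin (q + 5), v r i • (bv i : E q) := by
    funext r
    have h := (EuclideanSpace.basisFun (Fin (q + 5)) ℝ).sum_repr (v r)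
    simp only [EuclideanSpace.basisFun_repr, EuclideanSpace.basisFun_apply] at h
    exact h.symm
  have h2 : φ v = φ (fun r => ∑ i : Fin (q + 5), v r i • (bv i : E q)) := congrArg φ h1
  rw [h2, ContinuousAlternatingMap.map_sum]
  refine Finset.sum_congr rfl fun a _ => ?_
  rw [ContinuousAlternatingMap.map_smul_univ, smul_eq_mul]
-- END fex

-- BEGIN osm
/-- By row fex `Ω x (fun r => e (b r) x)` is a sum of products of the smooth functions `e (b r) x (a r)` and `Ω x (fun r => bv (a r))` (evaluation at a fixed vector is continuous and linear in the form). -/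
theorem Wf_smooth {q : ℕ} (U : Set (E q)) (e : Fin (q + 5) → E q → E q) (he : IsFrame U e)
    (Ω : E q → Form q (q + 1)) (hΩ : ContDiffOn ℝ ∞ Ω U) (J : Fin q → Fin (q + 5))
    (k : Fin (q + 5)) : ContDiffOn ℝ ∞ (Wf e Ω J k) U := by
  have hcoord : ∀ (b i : Fin (q + 5)), ContDiffOn ℝ ∞ (fun x => e b x i) U := by
    intro b i
    have h1 : ContDiffOn ℝ ∞ (fun x => (EuclideanSpace.proj i : E q →L[ℝ] ℝ) (e b x)) U :=
      (EuclideanSpace.proj i : E q →L[ℝ] ℝ).contDiff.comp_contDiffOn (he.1 b)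
    exact h1
  have hev : ∀ v : Fin (q + 1) → E q, ContDiffOn ℝ ∞ (fun x => Ω x v) U := by
    intro v
    have h1 : ContDiffOn ℝ ∞ (fun x => (ContinuousAlternatingMap.apply ℝ (E q) ℝ v) (Ω x)) U :=
      (ContinuousAlternatingMap.apply ℝ (E q) ℝ v).contDiff.comp_contDiffOn hΩ
    exact h1
  have hfr : ∀ b : Fin (q + 1) → Fin (q + 5), ContDiffOn ℝ ∞ (fun x => Ω x (fun r => e (b r) x)) U := by
    intro b
    have h2 : (fun x => Ω x (fun r => e (b r) x)) =
        fun x => ∑ a : Fin (q + 1) → Fin (q + 5), (∏ r, e (b r) x (a r)) * Ω x (fun r => bv (a r)) := by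
      funext x
      exact form_expand (Ω x) (fun r => e (b r) x)
    rw [h2]
    exact ContDiffOn.sum fun a _ => (contDiffOn_prod fun r _ => hcoord (b r) (a r)).mul (hev _)
  unfold Wf
  refine ContDiffOn.sum fun a _ => contDiffOn_const.mul ?_
  unfold Od
  exact contDiffOn_const.mul (ContDiffOn.sum fun b _ => (contDiffOn_prod fun r _ => hcoord (b r) (a r)).mul (hfr b))
-- END osm

-- BEGIN qsm
/-- Near `x ∈ W` take `N, A` from the definition: `Qf e F = Qf e (curv A)` on `N` (row gin), smooth by rows csm, qs1; `N` is a neighbourhood of `x`. -/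
theorem Qf_smooth {n q : ℕ} (U W : Set (E q)) (hWU : W ⊆ U) (e : Fin (q + 5) → (E q) → (E q))
    (he : IsFrame U e) (F : (E q) → Fin (q + 5) → Fin (q + 5) → Mat n) (hF : IsCurvature W F) :
    ContDiffOn ℝ ∞ (Qf e F) W := by
  intro x hx
  obtain ⟨N, A, hN, hxN, hNW, hA, -, hg⟩ := hF x hx
  have h1 : ContDiffOn ℝ ∞ (Qf e (curv A)) N :=
    Qf_smooth_aux U N (hNW.trans hWU) e he (curv A) fun i j => curv_smooth A N hN hA i j
  have h2 : ContDiffOn ℝ ∞ (Qf e F) N := by
    refine h1.congr fun y hy => ?_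
    obtain ⟨g, hg1, hg2⟩ := hg y hy
    have := (gauge e F (curv A) y g hg1 hg2).2
    unfold Qf
    rw [this]
  exact ((h2 x hxN).contDiffAt (hN.mem_nhds hxN)).contDiffWithinAt
-- END qsm

-- BEGIN trl
private theorem trl_sq {n : ℕ} (X : Mat n) : (X * Xᴴ).trace.re = ∑ p, ∑ q, ‖X p q‖ ^ 2 := by
  rw [Matrix.trace, Complex.re_sum]
  refine Finset.sum_congr rfl fun p _ => ?_
  rw [Matrix.diag_apply, Matrix.mul_apply, Complex.re_sum]
  refine Finset.sum_congr rfl fun q _ => ?_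
  rw [Matrix.conjTranspose_apply]
  show (X p q * (starRingEnd ℂ) (X p q)).re = _
  rw [Complex.mul_conj, Complex.ofReal_re, Complex.normSq_eq_norm_sq]

/-- `|re tr (X Y)| ≤ ∑ |X p q| |Y q p| ≤ ∑ (|X p q|^2 + |Y q p|^2) / 2`, and `tr (X Xᴴ) = ∑ |X p q|^2`. -/
theorem tr2_le {n : ℕ} (X Y : Mat n) :
    |tr2 X Y| ≤ ((X * Xᴴ).trace.re + (Y * Yᴴ).trace.re) / 2 ∧ 0 ≤ (X * Xᴴ).trace.re := by
  have h0 : 0 ≤ (X * Xᴴ).trace.re := by
    rw [trl_sq]
    positivity
  refine ⟨?_, h0⟩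
  rw [trl_sq, trl_sq]
  unfold tr2
  have e : (X * Y).trace = ∑ p, ∑ q, X p q * Y q p := by
    rw [Matrix.trace]
    refine Finset.sum_congr rfl fun p _ => ?_
    rw [Matrix.diag_apply, Matrix.mul_apply]
  have h1 : |(X * Y).trace.re| ≤ ∑ p, ∑ q, ‖X p q‖ * ‖Y q p‖ := by
    refine (Complex.abs_re_le_norm _).trans ?_
    rw [e]
    refine (norm_sum_le _ _).trans (Finset.sum_le_sum fun p _ => (norm_sum_le _ _).trans
      (Finset.sum_le_sum fun q _ => ?_))
    rw [norm_mul]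
  have h2 : ∑ p, ∑ q, ‖X p q‖ * ‖Y q p‖ ≤ ∑ p, ∑ q, (‖X p q‖ ^ 2 / 2 + ‖Y q p‖ ^ 2 / 2) :=
    Finset.sum_le_sum fun p _ => Finset.sum_le_sum fun q _ => by
      nlinarith [sq_nonneg (‖X p q‖ - ‖Y q p‖)]
  have h3 : ∑ p, ∑ q, (‖X p q‖ ^ 2 / 2 + ‖Y q p‖ ^ 2 / 2) =
      (∑ p, ∑ q, ‖X p q‖ ^ 2 + ∑ p, ∑ q, ‖Y p q‖ ^ 2) / 2 := by
    rw [Finset.sum_comm (f := fun p q => ‖Y p q‖ ^ 2)]
    simp only [add_div, Finset.sum_add_distrib, Finset.sum_div]
  exact (h1.trans h2).trans h3.le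
-- END trl

-- BEGIN qb1
/-- Expand `tr2 (frF b c) (frF b c)` as a sum of `5^4` terms `e e e e tr2 (F i j) (F k l)`, each at most `R^4 (|F i j|^2 + |F k l|^2) / 2` (row trl), so at most `25 R^4 nsq F x`; `25` pairs `(b, c)`, and the factor `1/2`. -/
theorem qh_le {n q : ℕ} (e : Fin (q + 5) → (E q) → (E q)) (F : (E q) → Fin (q + 5) → Fin (q + 5) → Mat n) (x : (E q)) (R : ℝ)
    (hR : ∀ a i, |e a x i| ≤ R) : |qh e F x| ≤ ((q : ℝ) + 5) ^ 4 * R ^ 4 * nsq F x := by
  have hR0 : 0 ≤ R := (abs_nonneg _).trans (hR 0 0)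
  have key : ∀ b c, tr2 (frF e F x b c) (frF e F x b c) =
      ∑ i, ∑ j, ∑ k, ∑ l, ((e b x i * e c x j) * (e b x k * e c x l)) *
        tr2 (F x i j) (F x k l) := by
    intro b c
    unfold tr2 frF
    simp only [Finset.sum_mul, Finset.mul_sum, Matrix.trace_sum, Complex.re_sum, smul_mul_assoc,
      mul_smul_comm, Matrix.trace_smul, Complex.smul_re, smul_eq_mul]
    refine Finset.sum_congr rfl fun i _ => Finset.sum_congr rfl fun j _ =>
      Finset.sum_congr rfl fun k _ => Finset.sum_congr rfl fun l _ => ?_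
    rw [Matrix.trace_mul_comm (F x k l) (F x i j)]
    ring
  have hN : 0 ≤ nsq F x := by
    unfold nsq
    exact Finset.sum_nonneg fun i _ => Finset.sum_nonneg fun j _ =>
      (tr2_le (F x i j) (F x i j)).2
  have hterm : ∀ b c i j k l, |((e b x i * e c x j) * (e b x k * e c x l)) *
      tr2 (F x i j) (F x k l)| ≤ R ^ 4 * (((F x i j * (F x i j)ᴴ).trace.re +
        (F x k l * (F x k l)ᴴ).trace.re) / 2) := by
    intro b c i j k l
    rw [abs_mul, abs_mul, abs_mul, abs_mul]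
    refine mul_le_mul ?_ (tr2_le _ _).1 (abs_nonneg _) (by positivity)
    calc |e b x i| * |e c x j| * (|e b x k| * |e c x l|) ≤ R * R * (R * R) := by
          have h1 := hR b i
          have h2 := hR c j
          have h3 := hR b k
          have h4 := hR c l
          gcongr
      _ = R ^ 4 := by ring
  have hbc : ∀ b c, |tr2 (frF e F x b c) (frF e F x b c)| ≤ ((q : ℝ) + 5) ^ 2 * R ^ 4 * nsq F x := by
    intro b c
    rw [key b c]
    have h1 : |∑ i, ∑ j, ∑ k, ∑ l, ((e b x i * e c x j) * (e b x k * e c x l)) *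
        tr2 (F x i j) (F x k l)| ≤ ∑ i, ∑ j, ∑ k, ∑ l, R ^ 4 *
        (((F x i j * (F x i j)ᴴ).trace.re + (F x k l * (F x k l)ᴴ).trace.re) / 2) := by
      refine (Finset.abs_sum_le_sum_abs _ _).trans (Finset.sum_le_sum fun i _ => ?_)
      refine (Finset.abs_sum_le_sum_abs _ _).trans (Finset.sum_le_sum fun j _ => ?_)
      refine (Finset.abs_sum_le_sum_abs _ _).trans (Finset.sum_le_sum fun k _ => ?_)
      exact (Finset.abs_sum_le_sum_abs _ _).trans (Finset.sum_le_sum fun l _ =>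
        hterm b c i j k l)
    refine h1.trans (le_of_eq ?_)
    simp only [← Finset.mul_sum, ← Finset.sum_div, Finset.sum_add_distrib, Finset.sum_const,
      Finset.card_univ, Fintype.card_fin, nsmul_eq_mul]
    unfold nsq
    push_cast
    ring
  unfold qh
  rw [abs_mul]
  have h2 : |∑ b, ∑ c, tr2 (frF e F x b c) (frF e F x b c)| ≤
      ∑ _b : Fin (q + 5), ∑ _c : Fin (q + 5), ((q : ℝ) + 5) ^ 2 * R ^ 4 * nsq F x := by
    refine (Finset.abs_sum_le_sum_abs _ _).trans (Finset.sum_le_sum fun b _ => ?_)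
    exact (Finset.abs_sum_le_sum_abs _ _).trans (Finset.sum_le_sum fun c _ => hbc b c)
  simp only [Finset.sum_const, Finset.card_univ, Fintype.card_fin, nsmul_eq_mul] at h2
  have h3 : |(-(1 / 2) : ℝ)| = 1 / 2 := by norm_num
  rw [h3]
  have h4 : 0 ≤ R ^ 4 * nsq F x := by positivity
  push_cast at h2
  have h5 : 0 ≤ ((q : ℝ) + 5) ^ 4 * (R ^ 4 * nsq F x) := by positivity
  nlinarith [h2, h4, h5]
-- END qb1

end Pool.Agent.Oad
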