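import Pool.Agent.Oad.Alg
import Pool.Agent.Oad.Ana
import Pool.Agent.Oad.Gau

/-!
`φ ∧ tr (F ∧ F) = Q ⟨φ, Ω⟩ dx` and the conclusion
-/

set_option autoImplicit false

namespace Pool.Agent.Oad

open MeasureTheory Set Matrix Filter Topology
open scoped ContDiff

-- BEGIN tsp
/-- Evaluation at fixed vectors is continuous and linear in the form. `extDeriv ψ` is a fixed continuous linear map (`ContinuousAlternatingMap.alternatizeUncurryFinCLM` or the definition of `extDeriv`) applied to `fderiv ℝ ψ`, which is smooth; outside `tsupport ψ` the form `ψ` vanishes near `x`, so all derivatives are `0`. -/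
theorem test_form {q : ℕ} (U : Set (E q)) (ψ : E q → Form q q) (hψ : IsTest U ψ) :
    (∀ J : Fin q → Fin (q + 5), IsTestF U (fun y => ψ y (fun r => bv (J r)))) ∧
      IsTest U (extDeriv ψ) ∧ ∀ x, x ∉ tsupport ψ → extDeriv ψ x = 0 := by
  obtain ⟨h1, h2, h3⟩ := hψ
  refine ⟨fun J => ?_, ?_, ?_⟩
  · let L : Form q q →L[ℝ] ℝ :=
      (ContinuousMultilinearMap.apply ℝ (fun _ : Fin q => E q) ℝ (fun r => bv (J r))).comp
        (ContinuousAlternatingMap.toContinuousMultilinearMapCLM ℝ)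
    have hL : (fun y => ψ y (fun r => bv (J r))) = L ∘ ψ := rfl
    rw [hL]
    exact ⟨L.contDiff.comp h1, h2.comp_left (map_zero L),
      (tsupport_comp_subset (map_zero L) ψ).trans h3⟩
  · have hL : extDeriv ψ = (ContinuousAlternatingMap.alternatizeUncurryFinCLM ℝ (E q) ℝ) ∘
        (fderiv ℝ ψ) := rfl
    rw [hL]
    refine ⟨(ContinuousLinearMap.contDiff _).comp (h1.fderiv_right (by simp)),
      (h2.fderiv ℝ).comp_left (map_zero _), ?_⟩
    exact ((tsupport_comp_subset (map_zero _) _).trans (tsupport_fderiv_subset ℝ)).trans h3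
  · intro x hx
    have h4 : fderiv ℝ ψ x = 0 := image_eq_zero_of_notMem_tsupport fun h =>
      hx (tsupport_fderiv_subset ℝ h)
    have hL : extDeriv ψ x = (ContinuousAlternatingMap.alternatizeUncurryFinCLM ℝ (E q) ℝ)
        (fderiv ℝ ψ x) := rfl
    rw [hL, h4, map_zero]
-- END tsp

-- BEGIN efo
/-- `extDeriv_apply`: `(dψ)_x (bv ∘ a) = ∑ i, (-1)^i * pd (a i) (ψ_(i.removeNth a)) x`, which is `∑ J, ∑ k, pd k ψ_J x * dJ J k a`; `cw F φ x = cwt F (components of φ x) x` by definition and `cwt` is linear in the tensor. -/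
theorem cw_extDeriv {n q : ℕ} (F : E q → Fin (q + 5) → Fin (q + 5) → Mat n)
    (ψ : E q → Form q q) (x : E q) (hψ : DifferentiableAt ℝ ψ x) :
    cw F (extDeriv ψ) x = ∑ J : Fin q → Fin (q + 5), ∑ k,
      pd k (fun y => ψ y (fun r => bv (J r))) x * cwt F (dJ J k) x := by
  have h1 : ∀ a : Fin (q + 1) → Fin (q + 5), extDeriv ψ x (fun r => bv (a r)) =
      ∑ J : Fin q → Fin (q + 5), ∑ k, pd k (fun y => ψ y (fun r => bv (J r))) x * dJ J k a := by
    intro a
    rw [extDeriv_apply hψ]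
    have h2 : ∀ (J : Fin q → Fin (q + 5)) (k : Fin (q + 5)),
        pd k (fun y => ψ y (fun r => bv (J r))) x * dJ J k a =
        ∑ i : Fin (q + 1), (-1) ^ (i : ℕ) * (if J = i.removeNth a then
          (if k = a i then pd k (fun y => ψ y (fun r => bv (J r))) x else 0) else 0) := by
      intro J k
      unfold dJ
      rw [Finset.mul_sum]
      refine Finset.sum_congr rfl fun i _ => ?_
      by_cases hJ : J = i.removeNth a
      · by_cases hk : k = a i
        · rw [if_pos hJ, if_pos hk, if_pos ⟨hk.symm, hJ.symm⟩]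
          ring
        · rw [if_pos hJ, if_neg hk, if_neg (fun h => hk h.1.symm)]
          ring
      · rw [if_neg hJ, if_neg (fun h => hJ h.2.symm)]
        ring
    simp only [h2]
    have h3 : ∀ J : Fin q → Fin (q + 5), ∑ k : Fin (q + 5), ∑ i : Fin (q + 1),
        (-1 : ℝ) ^ (i : ℕ) * (if J = i.removeNth a then
          (if k = a i then pd k (fun y => ψ y (fun r => bv (J r))) x else 0) else 0) =
        ∑ i : Fin (q + 1), (-1 : ℝ) ^ (i : ℕ) * (if J = i.removeNth a then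
          pd (a i) (fun y => ψ y (fun r => bv (J r))) x else 0) := by
      intro J
      rw [Finset.sum_comm]
      refine Finset.sum_congr rfl fun i _ => ?_
      rw [← Finset.mul_sum]
      congr 1
      by_cases hJ : J = i.removeNth a
      · simp only [if_pos hJ]
        rw [Finset.sum_ite_eq' Finset.univ (a i), if_pos (Finset.mem_univ _)]
      · simp only [if_neg hJ, Finset.sum_const_zero]
    simp only [h3]
    rw [Finset.sum_comm]
    refine Finset.sum_congr rfl fun i _ => ?_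
    rw [← Finset.mul_sum, Finset.sum_ite_eq' Finset.univ (i.removeNth a),
      if_pos (Finset.mem_univ _), zsmul_eq_mul]
    push_cast
    rfl
  unfold cw cwt
  simp only [h1]
  simp only [Finset.mul_sum, Finset.sum_mul]
  rw [Finset.sum_comm]
  refine Finset.sum_congr rfl fun J _ => ?_
  rw [Finset.sum_comm]
  refine Finset.sum_congr rfl fun k _ => ?_
  refine Finset.sum_congr rfl fun s _ => ?_
  ring
-- END efo

-- BEGIN spl
private theorem spl_cons {X : Type} [Fintype X] (k : ℕ) (f : (Fin (k + 1) → X) → ℝ) :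
    ∑ t, f t = ∑ a, ∑ t : Fin k → X, f (Fin.cons a t) := by
  rw [← (Fin.consEquiv (fun _ => X)).sum_comp, Fintype.sum_prod_type]
  rfl

private theorem spl_four {X : Type} [Fintype X] (f : X → X → X → X → ℝ) :
    ∑ b : Fin 4 → X, f (b 0) (b 1) (b 2) (b 3) = ∑ i, ∑ j, ∑ k, ∑ l, f i j k l := by
  rw [spl_cons]
  refine Finset.sum_congr rfl fun i _ => ?_
  rw [spl_cons]
  refine Finset.sum_congr rfl fun j _ => ?_
  rw [spl_cons]
  refine Finset.sum_congr rfl fun k _ => ?_
  rw [spl_cons]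
  refine Finset.sum_congr rfl fun l _ => ?_
  rw [Fintype.sum_unique]
  rfl

/-- `Fin (q + 5)` is `Fin (q + 1 + 4)` with `hd = Fin.castAdd 4`, `tl = Fin.natAdd (q + 1)` (definitionally): `Fin.prod_univ_add`, `Fin.appendEquiv` (or `Fin.consEquiv` / `Fin.snocEquiv` four times). -/
theorem sum_split {q : ℕ} :
    (∀ g : Fin (q + 5) → ℝ, ∏ r, g r =
      (∏ r : Fin (q + 1), g (hd r)) * (g (tl 0) * g (tl 1) * g (tl 2) * g (tl 3))) ∧
    ∀ f : (Fin (q + 1) → Fin (q + 5)) → Fin (q + 5) → Fin (q + 5) → Fin (q + 5) →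
      Fin (q + 5) → ℝ, ∑ t : Fin (q + 5) → Fin (q + 5),
        f (fun r => t (hd r)) (t (tl 0)) (t (tl 1)) (t (tl 2)) (t (tl 3)) =
      ∑ a, ∑ i, ∑ j, ∑ k, ∑ l, f a i j k l := by
  constructor
  · intro g
    have h := Fin.prod_univ_add (a := q + 1) (b := 4) (show Fin (q + 1 + 4) → ℝ from g)
    rw [Fin.prod_univ_four] at h
    exact h
  · intro f
    have h := (Fin.appendEquiv (α := Fin (q + 5)) (q + 1) 4).sum_comp
      (fun t : Fin (q + 1 + 4) → Fin (q + 5) => f (fun r => t (Fin.castAdd 4 r))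
        (t (Fin.natAdd (q + 1) 0)) (t (Fin.natAdd (q + 1) 1)) (t (Fin.natAdd (q + 1) 2))
        (t (Fin.natAdd (q + 1) 3)))
    refine h.symm.trans ?_
    rw [Fintype.sum_prod_type]
    refine Finset.sum_congr rfl fun a _ => ?_
    rw [← spl_four (f a)]
    refine Finset.sum_congr rfl fun b _ => ?_
    simp only [Fin.appendEquiv, Equiv.coe_fn_mk, Fin.append_left, Fin.append_right]
-- END spl

-- BEGIN fr1
private theorem fr1_sumL {n : ℕ} {X : Type} (S : Finset X) (A : X → Mat n) (Y : Mat n) :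
    tr2 (∑ i ∈ S, A i) Y = ∑ i ∈ S, tr2 (A i) Y := by
  unfold tr2
  rw [Finset.sum_mul, Matrix.trace_sum, Complex.re_sum]

private theorem fr1_sumR {n : ℕ} {X : Type} (S : Finset X) (A : Mat n) (Y : X → Mat n) :
    tr2 A (∑ i ∈ S, Y i) = ∑ i ∈ S, tr2 A (Y i) := by
  unfold tr2
  rw [Finset.mul_sum, Matrix.trace_sum, Complex.re_sum]

private theorem fr1_smulL {n : ℕ} (c : ℝ) (X Y : Mat n) : tr2 (c • X) Y = c * tr2 X Y := by
  unfold tr2
  rw [Matrix.smul_mul, Matrix.trace_smul, Complex.smul_re, smul_eq_mul]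

private theorem fr1_smulR {n : ℕ} (c : ℝ) (X Y : Mat n) : tr2 X (c • Y) = c * tr2 X Y := by
  unfold tr2
  rw [Matrix.mul_smul, Matrix.trace_smul, Complex.smul_re, smul_eq_mul]

private theorem fr1_tr {n q : ℕ} (e : Fin (q + 5) → E q → E q)
    (F : E q → Fin (q + 5) → Fin (q + 5) → Mat n) (x : E q) (b c d g : Fin (q + 5)) :
    tr2 (frF e F x b c) (frF e F x d g) =
      ∑ i, ∑ j, ∑ k, ∑ l, e b x i * e c x j * (e d x k * e g x l) *
        tr2 (F x i j) (F x k l) := by
  unfold frF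
  rw [fr1_sumL]
  refine Finset.sum_congr rfl fun i _ => ?_
  rw [fr1_sumL]
  refine Finset.sum_congr rfl fun j _ => ?_
  rw [fr1_sumR]
  refine Finset.sum_congr rfl fun k _ => ?_
  rw [fr1_sumR]
  refine Finset.sum_congr rfl fun l _ => ?_
  rw [fr1_smulL, fr1_smulR]
  ring

private theorem fr1_key {n q : ℕ} (e : Fin (q + 5) → E q → E q)
    (F : E q → Fin (q + 5) → Fin (q + 5) → Mat n) (c : (Fin (q + 1) → Fin (q + 5)) → ℝ)
    (x : E q) (s : Fin (q + 5) → Fin (q + 5)) :
    ∑ t : Fin (q + 5) → Fin (q + 5), (∏ r, (Matrix.of fun a i => e a x i) (s r) (t r)) *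
      (c (fun r => t (hd r)) * tr2 (F x (t (tl 0)) (t (tl 1))) (F x (t (tl 2)) (t (tl 3)))) =
      (∑ a, (∏ r, e (s (hd r)) x (a r)) * c a) *
      tr2 (frF e F x (s (tl 0)) (s (tl 1))) (frF e F x (s (tl 2)) (s (tl 3))) := by
  have h1 : ∀ t : Fin (q + 5) → Fin (q + 5),
      (∏ r, (Matrix.of fun a i => e a x i) (s r) (t r)) *
      (c (fun r => t (hd r)) * tr2 (F x (t (tl 0)) (t (tl 1))) (F x (t (tl 2)) (t (tl 3)))) =
      (fun (a : Fin (q + 1) → Fin (q + 5)) (i j k l : Fin (q + 5)) =>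
        (∏ r, e (s (hd r)) x (a r)) * c a * (e (s (tl 0)) x i * e (s (tl 1)) x j *
          (e (s (tl 2)) x k * e (s (tl 3)) x l) * tr2 (F x i j) (F x k l)))
        (fun r => t (hd r)) (t (tl 0)) (t (tl 1)) (t (tl 2)) (t (tl 3)) := by
    intro t
    have h2 := (sum_split (q := q)).1 (fun r => (Matrix.of fun a i => e a x i) (s r) (t r))
    rw [h2]
    simp only [Matrix.of_apply]
    ring
  rw [Finset.sum_congr rfl fun t _ => h1 t]
  rw [(sum_split (q := q)).2 (fun (a : Fin (q + 1) → Fin (q + 5)) (i j k l : Fin (q + 5)) =>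
        (∏ r, e (s (hd r)) x (a r)) * c a * (e (s (tl 0)) x i * e (s (tl 1)) x j *
          (e (s (tl 2)) x k * e (s (tl 3)) x l) * tr2 (F x i j) (F x k l)))]
  rw [fr1_tr, Finset.sum_mul]
  refine Finset.sum_congr rfl fun a _ => ?_
  simp only [Finset.mul_sum]

/-- Row frc with `M = Matrix.of fun a i => e a x i` and `c' t = c (fun r => t (hd r)) * tr2 (F x (t (tl 0)) (t (tl 1))) (F x (t (tl 2)) (t (tl 3)))`; the inner sum over all functions `t` is computed with row spl and bilinearity of `tr2` (row fr1 of mods_oas does it for five indices: store MP_5e05dd_gt_Oas_fr1_helper14.lean). -/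
theorem frame_sum {n q : ℕ} (e : Fin (q + 5) → E q → E q)
    (F : E q → Fin (q + 5) → Fin (q + 5) → Mat n) (c : (Fin (q + 1) → Fin (q + 5)) → ℝ)
    (x : E q) :
    ∑ s : Equiv.Perm (Fin (q + 5)), sg s * ((∑ a, (∏ r, e (s (hd r)) x (a r)) * c a) *
      tr2 (frF e F x (s (tl 0)) (s (tl 1))) (frF e F x (s (tl 2)) (s (tl 3)))) =
      dt e x * (4 * (Nat.factorial (q + 1) : ℝ) * cwt F c x) := by
  have h := sum_frame (Matrix.of fun a i => e a x i)
    (fun t : Fin (q + 5) → Fin (q + 5) => c (fun r => t (hd r)) *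
      tr2 (F x (t (tl 0)) (t (tl 1))) (F x (t (tl 2)) (t (tl 3))))
  have h2 : ∀ s : Equiv.Perm (Fin (q + 5)), (∑ t : Fin (q + 5) → Fin (q + 5),
      (∏ r, (Matrix.of fun a i => e a x i) (s r) (t r)) *
      (c (fun r => t (hd r)) * tr2 (F x (t (tl 0)) (t (tl 1))) (F x (t (tl 2)) (t (tl 3))))) =
      (∑ a, (∏ r, e (s (hd r)) x (a r)) * c a) *
      tr2 (frF e F x (s (tl 0)) (s (tl 1))) (frF e F x (s (tl 2)) (s (tl 3))) :=
    fun s => fr1_key e F c x s
  have h3 : 4 * (Nat.factorial (q + 1) : ℝ) * cwt F c x = ∑ s : Equiv.Perm (Fin (q + 5)),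
      sg s * (c (fun r => s (hd r)) *
        tr2 (F x (s (tl 0)) (s (tl 1))) (F x (s (tl 2)) (s (tl 3)))) := by
    unfold cwt
    have h4 : (4 * (Nat.factorial (q + 1) : ℝ)) ≠ 0 := by
      have := Nat.factorial_ne_zero (q + 1)
      positivity
    rw [one_div, mul_inv_cancel_left₀ h4]
  rw [h3]
  unfold dt
  rw [← h]
  refine Finset.sum_congr rfl fun s _ => ?_
  rw [h2 s]
-- END fr1

-- BEGIN pnt
private noncomputable def pnt_B (n : ℕ) : Mat n →ₗ[ℝ] Mat n →ₗ[ℝ] ℝ :=
  LinearMap.mk₂ ℝ (fun X Y => tr2 X Y)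
    (fun X X' Y => by
      unfold tr2
      rw [add_mul, Matrix.trace_add, Complex.add_re])
    (fun r X Y => by
      unfold tr2
      rw [smul_mul_assoc, Matrix.trace_smul, Complex.smul_re])
    (fun X Y Y' => by
      unfold tr2
      rw [mul_add, Matrix.trace_add, Complex.add_re])
    (fun r X Y => by
      unfold tr2
      rw [mul_smul_comm, Matrix.trace_smul, Complex.smul_re])

private theorem pnt_anti {n q : ℕ} (e : Fin (q + 5) → E q → E q)
    (F : E q → Fin (q + 5) → Fin (q + 5) → Mat n) (x : E q)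
    (hs : ∀ i j, F x j i = -F x i j) (a b : Fin (q + 5)) : frF e F x b a = -frF e F x a b := by
  unfold frF
  rw [Finset.sum_comm, ← Finset.sum_neg_distrib]
  refine Finset.sum_congr rfl fun i _ => ?_
  rw [← Finset.sum_neg_distrib]
  refine Finset.sum_congr rfl fun j _ => ?_
  rw [hs i j, smul_neg, mul_comm (e b x j) (e a x i)]

/-- Row fr1, and row alg with `V = Mat n` over `ℝ`, `B = tr2` (as a bilinear map, `LinearMap.mk₂`), `X = frF e F x`, `T r a = θ r (e a x)`, `O b = Ω x (fun r => e (b r) x)`, `c b = ∑ a, (∏ r, e (b r) x (a r)) * c a`; divide by `dt e x`. -/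
theorem cwt_eq {n q : ℕ} (U : Set (E q)) (e : Fin (q + 5) → E q → E q) (he : IsFrame U e)
    (Ω : E q → Form q (q + 1)) (hD : IsDecomposable U Ω)
    (F : E q → Fin (q + 5) → Fin (q + 5) → Mat n) (x : E q) (hx : x ∈ U)
    (hs : ∀ i j, F x j i = -F x i j) (h : IsASD e Ω F x)
    (c : (Fin (q + 1) → Fin (q + 5)) → ℝ) :
    cwt F c x = Qf e F x * ∑ a, c a * Od e Ω a x := by
  obtain ⟨θ, hθ⟩ := hD x hx
  have hdet : 0 < dt e x := he.2 x hx
  have h1 := frame_sum e F c x
  have h2 := alg_main (pnt_B n) (frF e F x) (fun a b => pnt_anti e F x hs a b)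
    (fun r a => θ r (e a x)) (fun b => Ω x (fun r => e (b r) x))
    (fun b => hθ (fun r => e (b r) x)) h
    (fun b => ∑ a : Fin (q + 1) → Fin (q + 5), (∏ r, e (b r) x (a r)) * c a)
  have h3 : ∑ s : Equiv.Perm (Fin (q + 5)), sg s *
      ((∑ a : Fin (q + 1) → Fin (q + 5), (∏ r, e (s (hd r)) x (a r)) * c a) *
      tr2 (frF e F x (s (tl 0)) (s (tl 1))) (frF e F x (s (tl 2)) (s (tl 3)))) =
      -2 * (∑ b, ∑ c, tr2 (frF e F x b c) (frF e F x b c)) *
        ∑ b : Fin (q + 1) → Fin (q + 5),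
          (∑ a : Fin (q + 1) → Fin (q + 5), (∏ r, e (b r) x (a r)) * c a) *
            Ω x (fun r => e (b r) x) := h2
  have hf : ((Nat.factorial (q + 1) : ℕ) : ℝ) ≠ 0 := by
    exact_mod_cast (Nat.factorial_pos (q + 1)).ne'
  have h4 : ∑ b : Fin (q + 1) → Fin (q + 5),
          (∑ a : Fin (q + 1) → Fin (q + 5), (∏ r, e (b r) x (a r)) * c a) *
            Ω x (fun r => e (b r) x) =
      (Nat.factorial (q + 1) : ℝ) * ∑ a, c a * Od e Ω a x := by
    have e1 : ∀ a, (Nat.factorial (q + 1) : ℝ) * (c a * Od e Ω a x) =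
        ∑ b : Fin (q + 1) → Fin (q + 5), ((∏ r, e (b r) x (a r)) * c a) *
            Ω x (fun r => e (b r) x) := by
      intro a
      unfold Od
      rw [show (Nat.factorial (q + 1) : ℝ) * (c a * ((1 / (Nat.factorial (q + 1) : ℝ)) *
        ∑ b : Fin (q + 1) → Fin (q + 5), (∏ r, e (b r) x (a r)) * Ω x (fun r => e (b r) x))) =
        c a * ∑ b : Fin (q + 1) → Fin (q + 5), (∏ r, e (b r) x (a r)) *
          Ω x (fun r => e (b r) x) by field_simp, Finset.mul_sum]
      exact Finset.sum_congr rfl fun b _ => by ring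
    rw [Finset.mul_sum]
    simp only [e1, Finset.sum_mul]
    exact Finset.sum_comm
  rw [h1, h4] at h3
  have h5 : -2 * (∑ b, ∑ c, tr2 (frF e F x b c) (frF e F x b c)) = 4 * qh e F x := by
    unfold qh
    ring
  rw [h5] at h3
  have h6 : dt e x ≠ 0 := hdet.ne'
  unfold Qf
  rw [div_mul_eq_mul_div, eq_div_iff h6]
  have h7 : (4 * (Nat.factorial (q + 1) : ℝ)) * (cwt F c x * dt e x) =
      (4 * (Nat.factorial (q + 1) : ℝ)) * (qh e F x * ∑ a, c a * Od e Ω a x) := by
    linarith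
  exact mul_left_cancel₀ (mul_ne_zero (by norm_num) hf) h7
-- END pnt

-- BEGIN dvz
/-- Near `x` take `N, A`: for `y ∈ N`, `Qf e F y * Wf e Ω J k y = cwt F (dJ J k) y` (row pnt, row skw) `= cwt (curv A) (dJ J k) y` (row gin); `Filter.EventuallyEq.fderiv_eq`, row clo. -/
theorem div_zero {n q : ℕ} (U W : Set (E q)) (hWU : W ⊆ U) (e : Fin (q + 5) → E q → E q)
    (he : IsFrame U e) (Ω : E q → Form q (q + 1)) (hD : IsDecomposable U Ω)
    (F : E q → Fin (q + 5) → Fin (q + 5) → Mat n) (hF : IsCurvature W F)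
    (hE : ∀ x ∈ W, IsASD e Ω F x) (J : Fin q → Fin (q + 5)) (x : E q) (hx : x ∈ W) :
    ∑ k, pd k (fun y => Qf e F y * Wf e Ω J k y) x = 0 := by
  obtain ⟨N, A, hN, hxN, hNW, hA, _, hg⟩ := hF x hx
  have hcl : ∑ k, pd k (cwt (curv A) (dJ J k)) x = 0 := closed A N hN (fun i a b => hA i a b) x hxN J
  rw [← hcl]
  refine Finset.sum_congr rfl fun k _ => ?_
  have hev : (fun y => Qf e F y * Wf e Ω J k y) =ᶠ[𝓝 x] cwt (curv A) (dJ J k) := by
    filter_upwards [hN.mem_nhds hxN] with y hy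
    obtain ⟨g, hg1, hg2⟩ := hg y hy
    have hyW : y ∈ W := hNW hy
    have h1 := cwt_eq U e he Ω hD F y (hWU hyW) (fun k l => curvature_skew W F hF y hyW k l)
      (hE y hyW) (dJ J k)
    have h3 := (gauge e F (curv A) y g hg1 hg2).1 (dJ J k)
    rw [← h3, h1]
    rfl
  unfold pd
  rw [hev.fderiv_eq]
-- END dvz

-- BEGIN qli
/-- Measurable on `U` by rows qsm, vl0, msr. Each `x ∈ U` has a neighbourhood on which `nsq F` is integrable, `|e a y i| ≤ R` and `(dt e y)⁻¹ ≤ R` (continuity), so `|Qf e F| ≤ 400 R^5 nsq F` (row qb1; `nsq F ≥ 0` by row trl). -/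
theorem Qf_locInt {n q : ℕ} (U K : Set (E q)) (hU : IsOpen U) (hK : IsOpen (U \ K))
    (h0 : μH[(q : ℝ) + 4] K = 0) (e : Fin (q + 5) → (E q) → (E q)) (he : IsFrame U e)
    (F : (E q) → Fin (q + 5) → Fin (q + 5) → Mat n) (hF : IsCurvature (U \ K) F)
    (hi : LocallyIntegrableOn (nsq F) U) : LocallyIntegrableOn (Qf e F) U := by
  intro x hx
  have hm : AEStronglyMeasurable (Qf e F) (volume.restrict U) :=
    meas_of_cont U K hK (vol_zero K h0) (Qf e F)
      (Qf_smooth U (U \ K) diff_subset e he F hF).continuousOn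
  have hec : ∀ a i, ContinuousOn (fun y => e a y i) U := by
    intro a i
    exact (EuclideanSpace.proj i : (E q) →L[ℝ] ℝ).continuous.comp_continuousOn
      (he.1 a).continuousOn
  have hdc : ContinuousOn (dt e) U := by
    have : dt e = fun y => ∑ s : Equiv.Perm (Fin (q + 5)),
        Equiv.Perm.sign s • ∏ i, e (s i) y i := by
      funext y
      simp only [dt, Matrix.det_apply, Matrix.of_apply]
    rw [this]
    refine continuousOn_finset_sum _ fun s _ => ?_
    exact (continuousOn_finset_prod _ fun i _ => hec (s i) i).const_smul _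
  have hdi : ContinuousOn (fun y => (dt e y)⁻¹) U :=
    hdc.inv₀ fun y hy => (he.2 y hy).ne'
  set b : (E q) → ℝ := fun y => 1 + (∑ a, ∑ i, |e a y i|) + (dt e y)⁻¹ with hb
  have hbc : ContinuousOn b U := by
    refine (continuousOn_const.add ?_).add hdi
    exact continuousOn_finset_sum _ fun a _ => continuousOn_finset_sum _ fun i _ =>
      (hec a i).abs
  obtain ⟨s, hs, his⟩ := hi x hx
  rw [hU.nhdsWithin_eq hx] at hs
  have hnb : ∀ᶠ y in 𝓝 x, b y < b x + 1 :=
    (hbc.continuousAt (hU.mem_nhds hx)).eventually (gt_mem_nhds (by linarith))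
  have hall : ∀ᶠ y in 𝓝 x, y ∈ s ∧ y ∈ U ∧ b y < b x + 1 :=
    (Filter.eventually_mem_set.2 hs).and ((hU.eventually_mem hx).and hnb)
  obtain ⟨t, ht, hto, hxt⟩ := eventually_nhds_iff.1 hall
  refine ⟨t, by rw [hU.nhdsWithin_eq hx]; exact hto.mem_nhds hxt, ?_⟩
  have hts : t ⊆ s := fun y hy => (ht y hy).1
  have htU : t ⊆ U := fun y hy => (ht y hy).2.1
  set R : ℝ := b x + 1 with hR
  have hint : Integrable (fun y => ((q : ℝ) + 5) ^ 4 * R ^ 4 * R * nsq F y) (volume.restrict t) :=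
    (his.mono_set hts).const_mul _
  refine hint.mono' (hm.mono_measure (Measure.restrict_mono_set _ htU)) ?_
  refine (ae_restrict_mem hto.measurableSet).mono fun y hy => ?_
  have hby := (ht y hy).2.2
  have hyU := htU hy
  have hd : 0 < dt e y := he.2 y hyU
  have hsum : 0 ≤ ∑ a, ∑ i, |e a y i| :=
    Finset.sum_nonneg fun a _ => Finset.sum_nonneg fun i _ => abs_nonneg _
  have hdinv : 0 < (dt e y)⁻¹ := inv_pos.2 hd
  have hbd : (dt e y)⁻¹ ≤ R := by
    have : b y = 1 + (∑ a, ∑ i, |e a y i|) + (dt e y)⁻¹ := rfl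
    linarith
  have hR0 : 0 ≤ R := hdinv.le.trans hbd
  have hbe : ∀ a i, |e a y i| ≤ R := by
    intro a i
    have h1 : |e a y i| ≤ ∑ i, |e a y i| :=
      Finset.single_le_sum (f := fun i => |e a y i|) (fun i _ => abs_nonneg _)
        (Finset.mem_univ i)
    have h2 : ∑ i, |e a y i| ≤ ∑ a, ∑ i, |e a y i| :=
      Finset.single_le_sum (f := fun a => ∑ i, |e a y i|)
        (fun a _ => Finset.sum_nonneg fun i _ => abs_nonneg _) (Finset.mem_univ a)
    have : b y = 1 + (∑ a, ∑ i, |e a y i|) + (dt e y)⁻¹ := rfl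
    linarith
  have hq := qh_le e F y R hbe
  have hq0 : 0 ≤ ((q : ℝ) + 5) ^ 4 * R ^ 4 * nsq F y := (abs_nonneg _).trans hq
  rw [Real.norm_eq_abs, Qf, abs_div, abs_of_pos hd, div_eq_mul_inv]
  calc |qh e F y| * (dt e y)⁻¹ ≤ (((q : ℝ) + 5) ^ 4 * R ^ 4 * nsq F y) * R :=
        mul_le_mul hq hbd hdinv.le hq0
    _ = ((q : ℝ) + 5) ^ 4 * R ^ 4 * R * nsq F y := by ring
-- END qli

-- BEGIN wkz
/-- Almost everywhere (`K` is null, row vl0) `cw F (dψ) = ∑ J, Qf e F * ∑ k, Wf e Ω J k * pd k ψ_J` (rows efo, pnt on `U \ K`, row skw, row tsp outside `tsupport ψ`); every summand has integral `0` by row arc with `Q = Qf e F`, `V = Wf e Ω J` (rows qsm, osm, dvz) and is integrable by row itg. -/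
theorem weak_closed {n q : ℕ} (U K : Set (E q)) (hU : IsOpen U) (hK : IsOpen (U \ K))
    (h0 : μH[(q : ℝ) + 4] K = 0) (e : Fin (q + 5) → E q → E q) (he : IsFrame U e)
    (Ω : E q → Form q (q + 1)) (hΩ : ContDiffOn ℝ ∞ Ω U) (hD : IsDecomposable U Ω)
    (F : E q → Fin (q + 5) → Fin (q + 5) → Mat n)
    (hF : IsCurvature (U \ K) F) (hE : ∀ x ∈ U \ K, IsASD e Ω F x)
    (hi : LocallyIntegrableOn (Qf e F) U) (ψ : E q → Form q q) (hψ : IsTest U ψ) :
    ∫ x, cw F (extDeriv ψ) x = 0 := by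
  have hv := vol_zero K h0
  have ht := test_form U ψ hψ
  have h1 : (1 : WithTop ℕ∞) ≤ ∞ := by exact_mod_cast le_top
  let ψJ : (Fin q → Fin (q + 5)) → E q → ℝ := fun J y => ψ y (fun r => bv (J r))
  have hpd0 : ∀ J k x, x ∉ tsupport ψ → pd k (ψJ J) x = 0 := by
    intro J k x hx
    have h2 : ψJ J =ᶠ[𝓝 x] fun _ => (0 : ℝ) := by
      have h3 : ψ =ᶠ[𝓝 x] 0 := notMem_tsupport_iff_eventuallyEq.1 hx
      filter_upwards [h3] with y hy
      show ψ y (fun r => bv (J r)) = 0
      rw [hy]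
      rfl
    unfold pd
    rw [h2.fderiv_eq]
    simp
  have key : (fun x => cw F (extDeriv ψ) x) =ᵐ[volume]
      fun x => ∑ J : Fin q → Fin (q + 5), Qf e F x * (∑ k, Wf e Ω J k x * pd k (ψJ J) x) := by
    filter_upwards [measure_eq_zero_iff_ae_notMem.1 hv] with x hxK
    have hdiff : DifferentiableAt ℝ ψ x := hψ.1.differentiable (by simp) x
    rw [cw_extDeriv F ψ x hdiff]
    refine Finset.sum_congr rfl fun J _ => ?_
    rw [Finset.mul_sum]
    refine Finset.sum_congr rfl fun k _ => ?_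
    by_cases hxs : x ∈ tsupport ψ
    · have hxU : x ∈ U \ K := ⟨hψ.2.2 hxs, hxK⟩
      have h2 := cwt_eq U e he Ω hD F x hxU.1 (curvature_skew (U \ K) F hF x hxU)
        (hE x hxU) (dJ J k)
      have h3 : ∑ a, dJ J k a * Od e Ω a x = Wf e Ω J k x := rfl
      rw [h2, h3]
      ring
    · have h2 := hpd0 J k x hxs
      show pd k (ψJ J) x * _ = _
      rw [h2]
      ring
  rw [integral_congr_ae key]
  have hWc : ∀ J k, ContDiffOn ℝ ∞ (Wf e Ω J k) U := fun J k => Wf_smooth U e he Ω hΩ J k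
  rw [integral_finsetSum]
  · refine Finset.sum_eq_zero fun J _ => ?_
    exact removable U K hU hK h0 (Qf e F)
      ((Qf_smooth U (U \ K) sdiff_subset e he F hF).of_le h1) hi (Wf e Ω J)
      (fun k => (hWc J k).of_le h1)
      (fun x hx => div_zero U (U \ K) sdiff_subset e he Ω hD F hF hE J x hx) (ψJ J) (ht.1 J)
  · intro J _
    refine integrable_test U (Qf e F) hi (fun x => ∑ k, Wf e Ω J k x * pd k (ψJ J) x) ?_
      (tsupport ψ) hψ.2.1 hψ.2.2 ?_
    · refine continuousOn_finsetSum _ fun k _ => (hWc J k).continuousOn.mul ?_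
      have h2 := (ht.1 J).1.continuous_fderiv (by simp)
      exact (h2.clm_apply continuous_const).continuousOn
    · intro x hx
      exact Finset.sum_eq_zero fun k _ => by rw [hpd0 J k x hx, mul_zero]
-- END wkz

-- BEGIN res
/-- Row wkz for `G` (row qli) and, with `K = ∅`, for every `F k`; the limit in `hC` for `φ = dψ` (row tsp) gives `0 = 0 + 8 π² C (dψ)`. -/
theorem main_thm {n q : ℕ} (U K : Set (E q)) (hU : IsOpen U) (hK : IsOpen (U \ K))
    (h0 : μH[(q : ℝ) + 4] K = 0) (e : Fin (q + 5) → E q → E q) (he : IsFrame U e)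
    (Ω : E q → Form q (q + 1)) (hΩ : ContDiffOn ℝ ∞ Ω U) (hD : IsDecomposable U Ω)
    (F : ℕ → E q → Fin (q + 5) → Fin (q + 5) → Mat n) (hF : ∀ k, IsCurvature U (F k))
    (hFe : ∀ k, ∀ x ∈ U, IsASD e Ω (F k) x)
    (G : E q → Fin (q + 5) → Fin (q + 5) → Mat n) (hG : IsCurvature (U \ K) G)
    (hGe : ∀ x ∈ U \ K, IsASD e Ω G x) (hGi : LocallyIntegrableOn (nsq G) U)
    (C : (E q → Form q (q + 1)) → ℝ)
    (hC : ∀ φ : E q → Form q (q + 1), IsTest U φ →
      Tendsto (fun k => ∫ x, cw (F k) φ x) atTop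
        (𝓝 ((∫ x, cw G φ x) + 8 * Real.pi ^ 2 * C φ)))
    (ψ : E q → Form q q) (hψ : IsTest U ψ) :
    C (extDeriv ψ) = 0 ∧ ∫ x, cw G (extDeriv ψ) x = 0 := by
  have hG0 : ∫ x, cw G (extDeriv ψ) x = 0 :=
    weak_closed U K hU hK h0 e he Ω hΩ hD G hG hGe (Qf_locInt U K hU hK h0 e he G hG hGi) ψ hψ
  have hd : U \ (∅ : Set (E q)) = U := sdiff_empty
  have hF0 : ∀ k, ∫ x, cw (F k) (extDeriv ψ) x = 0 := by
    intro k
    refine weak_closed U ∅ hU (by rw [hd]; exact hU) (measure_empty) e he Ω hΩ hD (F k)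
      (by rw [hd]; exact hF k) (fun x hx => hFe k x (by rw [hd] at hx; exact hx)) ?_ ψ hψ
    have hc : ContinuousOn (Qf e (F k)) U := (Qf_smooth U U (subset_refl U) e he (F k) (hF k)).continuousOn
    exact hc.locallyIntegrableOn hU.measurableSet
  have h1 := hC (extDeriv ψ) (test_form U ψ hψ).2.1
  have h2 : (fun k => ∫ x, cw (F k) (extDeriv ψ) x) = fun _ : ℕ => (0 : ℝ) := funext hF0
  rw [h2, hG0, zero_add] at h1
  have h3 : (0 : ℝ) = 8 * Real.pi ^ 2 * C (extDeriv ψ) :=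
    tendsto_nhds_unique tendsto_const_nhds h1
  refine ⟨?_, hG0⟩
  have h4 : (8 * Real.pi ^ 2 : ℝ) ≠ 0 := by positivity
  rcases mul_eq_zero.1 h3.symm with h | h
  · exact absurd h h4
  · exact h
-- END res

end Pool.Agent.Oad
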